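import Mathlib

set_option autoImplicit false

universe u

/-! Abstract polytopes, their flag orbits, extensions and coverings. -/

namespace Pool.Agent.H39.Poly

/-- `P`, a poset with a least and a greatest element, is an abstract polytope of rank `n`.

* `ranked`: `P` is ranked and flagged.  The rank function `rk` is shifted by one, so that the least
  face has rank `0` and the greatest face has rank `n + 1`; it is strictly monotone and increases by
  one along each cover, which says that every maximal chain has exactly `n + 2` elements.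
* `diamond`: the diamond condition.
* `connected`: strong flag-connectedness.  A flag is a chain `Φ` of `n + 2` faces, indexed by
  `Fin (n + 2)`; any two flags `Φ`, `Ψ` are joined by a sequence of flags in which consecutive
  members `A`, `B` differ in at most one face, and all of which contain `Φ ∩ Ψ`. -/
structure IsPolytope (n : ℕ) (P : Type u) [PartialOrder P] [BoundedOrder P] : Prop where
  ranked : ∃ rk : P → ℕ, rk ⊥ = 0 ∧ rk ⊤ = n + 1 ∧ (∀ x y, x < y → rk x < rk y) ∧
    ∀ x y, x ⋖ y → rk y = rk x + 1
  diamond : ∀ x y z : P, x ⋖ y → y ⋖ z → ∃! w, w ≠ y ∧ x < w ∧ w < z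
  connected : ∀ Φ Ψ : Fin (n + 2) ↪o P,
    Relation.ReflTransGen (fun A B : Fin (n + 2) ↪o P =>
      (∃ i, ∀ j, j ≠ i → A j = B j) ∧ ∀ j, Φ j = Ψ j → A j = Φ j ∧ B j = Φ j) Φ Ψ

/-- Two flags are equivalent if some automorphism of `P` maps one onto the other. -/
def flagSetoid (n : ℕ) (P : Type u) [PartialOrder P] : Setoid (Fin (n + 2) ↪o P) where
  r Φ Ψ := ∃ g : P ≃o P, ∀ i, g (Φ i) = Ψ i
  iseqv :=
    { refl := fun _ => ⟨OrderIso.refl P, fun _ => rfl⟩
      symm := fun ⟨g, hg⟩ => ⟨g.symm, fun i => by rw [← hg i, OrderIso.symm_apply_apply]⟩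
      trans := fun ⟨g, hg⟩ ⟨h, hh⟩ => ⟨g.trans h, fun i => by
        rw [OrderIso.trans_apply, hg, hh]⟩ }

/-- `P` is a `k`-orbit polytope of rank `n` (`k ≥ 1`): its automorphism group has exactly `k` orbits
on the flags of `P`. -/
def IsKOrbit (k n : ℕ) (P : Type u) [PartialOrder P] [BoundedOrder P] : Prop :=
  IsPolytope n P ∧ 1 ≤ k ∧ Nat.card (Quotient (flagSetoid n P)) = k

/-- `R` is an extension of the `n`-polytope `P`: an `(n + 1)`-polytope all of whose facets (the
sections `{x | x ≤ F}` below the coatoms `F`) are isomorphic to `P`. -/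
def IsExtension (n : ℕ) (P : Type u) [PartialOrder P] [BoundedOrder P]
    (R : Type u) [PartialOrder R] [BoundedOrder R] : Prop :=
  IsPolytope (n + 1) R ∧ ∀ F : R, IsCoatom F → Nonempty (Set.Iic F ≃o P)

/-- `f : U → R` is a covering of polytopes of rank `n`: it is surjective, it is strictly monotone
(for polytopes of the same rank this says that it preserves rank and incidence), and it sends
`i`-adjacent flags to `i`-adjacent flags. -/
structure IsCovering (n : ℕ) {U R : Type u} [PartialOrder U] [PartialOrder R] (f : U → R) :
    Prop where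
  surjective : Function.Surjective f
  strictMono : StrictMono f
  adjacent : ∀ (i : Fin (n + 2)) (A B : Fin (n + 2) ↪o U),
    A i ≠ B i → (∀ j, j ≠ i → A j = B j) → f (A i) ≠ f (B i)

/-- The `k`-orbit polytope `P` of rank `n` has a universal `k`-orbit extension: a `k`-orbit
extension that covers every `k`-orbit extension of `P`. -/
def HasUniversalExtension (k n : ℕ) (P : Type u) [PartialOrder P] [BoundedOrder P] : Prop :=
  ∃ (U : Type u) (_ : PartialOrder U) (_ : BoundedOrder U),
    IsExtension n P U ∧ IsKOrbit k (n + 1) U ∧
    ∀ (R : Type u) [PartialOrder R] [BoundedOrder R],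
      IsExtension n P R → IsKOrbit k (n + 1) R → ∃ f : U → R, IsCovering (n + 1) f

/-- The isomorphism `γ` between two faces `F`, `G` of `P` (more precisely between the sections below
them) is induced by an automorphism of `P`. -/
def Extends {P : Type u} [PartialOrder P] {F G : P} (γ : Set.Iic F ≃o Set.Iic G) : Prop :=
  ∃ g : P ≃o P, ∀ x : Set.Iic F, g x = γ x

/-- The isomorphism `γ` from the face `F` to the face `G` conjugates the group of automorphisms
of `F` induced by automorphisms of `P` to the corresponding group for `G`. -/
def Conjugates {P : Type u} [PartialOrder P] {F G : P} (γ : Set.Iic F ≃o Set.Iic G) : Prop :=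
  ∀ a : Set.Iic F ≃o Set.Iic F, Extends a ↔ Extends ((γ.symm.trans a).trans γ)

end Pool.Agent.H39.Poly
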