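import Mathlib
import Pool.Agent.H39.PolyDefs

set_option autoImplicit false
set_option linter.unusedSectionVars false

universe u v w

namespace Pool.Agent.H39.Poly

open Relation

section Rank

variable {P : Type u} [PartialOrder P] [BoundedOrder P] {n : ℕ}

/-- the rank function (shifted by one) -/
noncomputable def rk (hP : IsPolytope n P) : P → ℕ := hP.ranked.choose

variable (hP : IsPolytope n P)

include hP

lemma rk_bot : rk hP ⊥ = 0 := hP.ranked.choose_spec.1

lemma rk_top : rk hP ⊤ = n + 1 := hP.ranked.choose_spec.2.1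

lemma rk_lt {x y : P} (h : x < y) : rk hP x < rk hP y := hP.ranked.choose_spec.2.2.1 x y h

lemma rk_cov {x y : P} (h : x ⋖ y) : rk hP y = rk hP x + 1 := hP.ranked.choose_spec.2.2.2 x y h

lemma rk_le {x y : P} (h : x ≤ y) : rk hP x ≤ rk hP y := by
  rcases eq_or_lt_of_le h with h | h
  · rw [h]
  · exact (rk_lt hP h).le

lemma rk_le_top (x : P) : rk hP x ≤ n + 1 := by
  rw [← rk_top hP]; exact rk_le hP le_top

lemma eq_of_le_of_rk {x y : P} (h : x ≤ y) (h' : rk hP y ≤ rk hP x) : x = y := by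
  rcases eq_or_lt_of_le h with h | h
  · exact h
  · have := rk_lt hP h
    omega

lemma cov_of_rk {x y : P} (h : x < y) (h' : rk hP y = rk hP x + 1) : x ⋖ y := by
  refine ⟨h, fun z hxz hzy => ?_⟩
  have h1 := rk_lt hP hxz
  have h2 := rk_lt hP hzy
  omega

lemma eq_bot_of_rk {x : P} (h : rk hP x = 0) : x = ⊥ :=
  (eq_of_le_of_rk hP bot_le (by omega)).symm

lemma eq_top_of_rk {x : P} (h : rk hP x = n + 1) : x = ⊤ :=
  eq_of_le_of_rk hP le_top (by rw [rk_top, h])

lemma coatom_iff {x : P} : IsCoatom x ↔ rk hP x = n := by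
  rw [← covBy_top_iff]
  constructor
  · intro h
    have := rk_cov hP h
    rw [rk_top] at this
    omega
  · intro h
    refine cov_of_rk hP ?_ (by rw [rk_top, h])
    refine lt_of_le_of_ne le_top ?_
    rintro rfl
    rw [rk_top] at h
    omega

lemma exists_cov {x y : P} (h : x < y) : ∃ z, x ⋖ z ∧ z ≤ y := by
  classical
  obtain ⟨z, hz, hmin⟩ := WellFounded.has_min (measure (rk hP)).wf {z | x < z ∧ z ≤ y} ⟨y, h, le_rfl⟩
  refine ⟨z, ⟨hz.1, fun w hxw hwz => ?_⟩, hz.2⟩
  exact hmin w ⟨hxw, hwz.le.trans hz.2⟩ (rk_lt hP hwz)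

/-- a saturated chain from `x` to `y`, indexed by rank -/
lemma exists_chain {x y : P} (h : x ≤ y) : ∃ c : ℕ → P, c (rk hP x) = x ∧ c (rk hP y) = y ∧
    (∀ i, rk hP x ≤ i → i ≤ rk hP y → rk hP (c i) = i) ∧
    (∀ i j, rk hP x ≤ i → i ≤ j → j ≤ rk hP y → c i ≤ c j) := by
  classical
  obtain ⟨d, hd⟩ : ∃ d, rk hP y - rk hP x = d := ⟨_, rfl⟩
  induction d generalizing x with
  | zero =>
    have hxy : x = y := eq_of_le_of_rk hP h (by omega)
    subst hxy
    refine ⟨fun _ => x, rfl, rfl, ?_, fun _ _ _ _ _ => le_rfl⟩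
    intro i h1 h2
    show rk hP x = i
    omega
  | succ d ih =>
    have hne : x ≠ y := by
      rintro rfl
      omega
    obtain ⟨z, hz, hzy⟩ := exists_cov hP (lt_of_le_of_ne h hne)
    have hrz := rk_cov hP hz
    obtain ⟨c, c1, c2, c3, c4⟩ := ih hzy (by omega)
    have hzr := rk_le hP hzy
    refine ⟨fun i => if i ≤ rk hP x then x else c i, by simp, ?_, ?_, ?_⟩
    · simp only
      rw [if_neg (by omega), c2]
    · intro i h1 h2
      by_cases hi : i ≤ rk hP x
      · simp only [if_pos hi]; omega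
      · simp only [if_neg hi]
        exact c3 i (by omega) h2
    · intro i j h1 h2 h3
      by_cases hi : i ≤ rk hP x
      · by_cases hj : j ≤ rk hP x
        · simp only [if_pos hi, if_pos hj]; exact le_rfl
        · simp only [if_pos hi, if_neg hj]
          refine hz.1.le.trans ?_
          rw [← c1]
          exact c4 _ _ le_rfl (by omega) h3
      · simp only [if_neg hi, if_neg (by omega : ¬ j ≤ rk hP x)]
        exact c4 _ _ (by omega) h2 h3

lemma rk_flag (Φ : Fin (n + 2) ↪o P) (i : Fin (n + 2)) : rk hP (Φ i) = i.val := by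
  have h1 : ∀ k : ℕ, ∀ i : Fin (n + 2), i.val = k → k ≤ rk hP (Φ i) := by
    intro k
    induction k with
    | zero => intro i _; omega
    | succ k ih =>
      intro i hi
      have hk : k < n + 2 := by omega
      have := ih ⟨k, hk⟩ rfl
      have hlt : (⟨k, hk⟩ : Fin (n + 2)) < i := by
        rw [Fin.lt_def]; simp only; omega
      have := rk_lt hP (Φ.strictMono hlt)
      omega
  have h2 : ∀ k : ℕ, ∀ i : Fin (n + 2), i.val + k = n + 1 → rk hP (Φ i) + k ≤ n + 1 := by
    intro k
    induction k with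
    | zero => intro i _; simpa using rk_le_top hP _
    | succ k ih =>
      intro i hi
      have hk : i.val + 1 < n + 2 := by omega
      have := ih ⟨i.val + 1, hk⟩ (by simp only; omega)
      have hlt : i < (⟨i.val + 1, hk⟩ : Fin (n + 2)) := by
        rw [Fin.lt_def]; simp only; omega
      have := rk_lt hP (Φ.strictMono hlt)
      omega
  have a := h1 i.val i rfl
  have b := h2 (n + 1 - i.val) i (by omega)
  omega

omit hP in
lemma flag_ext {Φ Ψ : Fin (n + 2) ↪o P} (h : ∀ i, Φ i = Ψ i) : Φ = Ψ := by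
  ext i
  exact h i

/-- a flag from a rank-indexed chain -/
lemma exists_flag (c : ℕ → P) (h1 : ∀ i, i ≤ n + 1 → rk hP (c i) = i)
    (h2 : ∀ i j, i ≤ j → j ≤ n + 1 → c i ≤ c j) :
    ∃ Φ : Fin (n + 2) ↪o P, ∀ i : Fin (n + 2), Φ i = c i.val := by
  refine ⟨OrderEmbedding.ofStrictMono (fun i : Fin (n + 2) => c i.val) ?_, fun i => rfl⟩
  intro i j hij
  have hij' : i.val < j.val := hij
  refine lt_of_le_of_ne (h2 _ _ hij'.le (by omega)) ?_
  intro heq
  have a := h1 i.val (by omega)
  have b := h1 j.val (by omega)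
  simp only at heq
  rw [heq] at a
  omega

lemma exists_flag_any : ∃ _Φ : Fin (n + 2) ↪o P, True := by
  obtain ⟨c, -, -, c3, c4⟩ := exists_chain hP (bot_le : (⊥ : P) ≤ ⊤)
  rw [rk_bot, rk_top] at c3 c4
  obtain ⟨Φ, -⟩ := exists_flag hP c (fun i hi => c3 i (by omega) hi)
    (fun i j hij hj => c4 i j (by omega) hij hj)
  exact ⟨Φ, trivial⟩

/-- change a flag above the index `j` so that it passes through `x` -/
lemma splice_up (Φ : Fin (n + 2) ↪o P) (j : Fin (n + 2)) (x : P) (h : Φ j ≤ x) :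
    ∃ Ψ : Fin (n + 2) ↪o P, (∀ i, i ≤ j → Ψ i = Φ i) ∧ ∀ i : Fin (n + 2), i.val = rk hP x → Ψ i = x := by
  classical
  obtain ⟨c, c1, c2, c3, c4⟩ := exists_chain hP h
  obtain ⟨d, d1, d2, d3, d4⟩ := exists_chain hP (le_top : x ≤ ⊤)
  rw [rk_flag hP] at c1 c3 c4
  rw [rk_top] at d2 d3 d4
  have hjx : j.val ≤ rk hP x := by
    have := rk_le hP h
    rwa [rk_flag hP] at this
  have hx := rk_le_top hP x
  -- the value of `Φ` as a function on the natural numbers
  let φ : ℕ → P := fun i => if hi : i < n + 2 then Φ ⟨i, hi⟩ else ⊤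
  have φ1 : ∀ i (hi : i < n + 2), φ i = Φ ⟨i, hi⟩ := fun i hi => by simp only [φ, dif_pos hi]
  let e : ℕ → P := fun i => if i ≤ j.val then φ i else if i ≤ rk hP x then c i else d i
  have e1 : ∀ i, i ≤ j.val → e i = φ i := fun i hi => by simp only [e, if_pos hi]
  have e2 : ∀ i, j.val ≤ i → i ≤ rk hP x → e i = c i := by
    intro i hi hi'
    rcases eq_or_lt_of_le hi with hi'' | hi''
    · subst hi''
      rw [e1 _ le_rfl, φ1 _ j.2, c1]
    · simp only [e]
      rw [if_neg (by omega), if_pos hi']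
  have e3 : ∀ i, rk hP x ≤ i → e i = d i := by
    intro i hi
    rcases eq_or_lt_of_le hi with hi'' | hi''
    · rw [← hi'', e2 _ hjx le_rfl, c2, d1]
    · simp only [e]
      rw [if_neg (by omega), if_neg (by omega)]
  have m1 : ∀ i k, i ≤ k → k ≤ j.val → e i ≤ e k := by
    intro i k hik hk
    rw [e1 i (by omega), e1 k hk, φ1 i (by omega), φ1 k (by omega)]
    exact Φ.monotone (by rw [Fin.le_def]; exact hik)
  have m2 : ∀ i k, j.val ≤ i → i ≤ k → k ≤ rk hP x → e i ≤ e k := by
    intro i k hi hik hk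
    rw [e2 i hi (by omega), e2 k (by omega) hk]
    exact c4 i k hi hik hk
  have m3 : ∀ i k, rk hP x ≤ i → i ≤ k → k ≤ n + 1 → e i ≤ e k := by
    intro i k hi hik hk
    rw [e3 i hi, e3 k (by omega)]
    exact d4 i k hi hik hk
  obtain ⟨Ψ, hΨ⟩ := exists_flag hP e (by
    intro i hi
    by_cases h1 : i ≤ j.val
    · rw [e1 i h1, φ1 i (by omega), rk_flag]
    · by_cases h2 : i ≤ rk hP x
      · rw [e2 i (by omega) h2]
        exact c3 i (by omega) h2
      · rw [e3 i (by omega)]
        exact d3 i (by omega) hi) (by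
    intro i k hik hk
    by_cases h1 : k ≤ j.val
    · exact m1 i k hik h1
    · by_cases h2 : k ≤ rk hP x
      · by_cases h3 : j.val ≤ i
        · exact m2 i k h3 hik h2
        · exact (m1 i j.val (by omega) le_rfl).trans (m2 _ k le_rfl (by omega) h2)
      · by_cases h3 : rk hP x ≤ i
        · exact m3 i k h3 hik hk
        · refine le_trans ?_ (m3 (rk hP x) k le_rfl (by omega) hk)
          by_cases h4 : j.val ≤ i
          · exact m2 i _ h4 (by omega) le_rfl
          · exact (m1 i j.val (by omega) le_rfl).trans (m2 _ _ le_rfl hjx le_rfl))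
  refine ⟨Ψ, ?_, ?_⟩
  · intro i hi
    rw [hΨ, e1 i.val hi, φ1 i.val i.2]
  · intro i hi
    rw [hΨ, e3 i.val (by omega), hi, d1]

/-- there is a flag through any two incident faces -/
lemma exists_flag_through {x y : P} (h : x ≤ y) : ∃ Φ : Fin (n + 2) ↪o P,
    (∀ i : Fin (n + 2), i.val = rk hP x → Φ i = x) ∧
    ∀ i : Fin (n + 2), i.val = rk hP y → Φ i = y := by
  obtain ⟨Φ, -⟩ := exists_flag_any hP
  have hx := rk_le_top hP x
  obtain ⟨Ψ, -, hΨ⟩ := splice_up hP Φ ⟨0, by omega⟩ x (by
    have : Φ ⟨0, by omega⟩ = ⊥ := eq_bot_of_rk hP (rk_flag hP _ _)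
    rw [this]
    exact bot_le)
  have hj := hΨ ⟨rk hP x, by omega⟩ rfl
  obtain ⟨Θ, h1, h2⟩ := splice_up hP Ψ ⟨rk hP x, by omega⟩ y (by rw [hj]; exact h)
  refine ⟨Θ, ?_, h2⟩
  intro i hi
  have hix : i = ⟨rk hP x, by omega⟩ := Fin.ext hi
  rw [hix, h1 _ le_rfl, hj]

end Rank

section Flip

variable {P : Type u} [PartialOrder P] [BoundedOrder P] {n : ℕ}

/-- `A` and `B` are `i`-adjacent -/
def AdjAt (i : Fin (n + 2)) (A B : Fin (n + 2) ↪o P) : Prop := A i ≠ B i ∧ ∀ j, j ≠ i → A j = B j

lemma AdjAt.symm {i : Fin (n + 2)} {A B : Fin (n + 2) ↪o P} (h : AdjAt i A B) : AdjAt i B A :=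
  ⟨h.1.symm, fun j hj => (h.2 j hj).symm⟩

lemma AdjAt.pos (hP : IsPolytope n P) {i : Fin (n + 2)} {A B : Fin (n + 2) ↪o P}
    (h : AdjAt i A B) : 0 < i.val ∧ i.val < n + 1 := by
  constructor
  · by_contra hcon
    have h0 : i.val = 0 := by omega
    apply h.1
    have a := rk_flag hP A i
    have b := rk_flag hP B i
    rw [h0] at a b
    rw [eq_bot_of_rk hP a, eq_bot_of_rk hP b]
  · by_contra hcon
    have h0 : i.val = n + 1 := by omega
    apply h.1
    have a := rk_flag hP A i
    have b := rk_flag hP B i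
    rw [h0] at a b
    rw [eq_top_of_rk hP a, eq_top_of_rk hP b]

lemma flag_cov (hP : IsPolytope n P) (Φ : Fin (n + 2) ↪o P) {i j : Fin (n + 2)}
    (h : i.val + 1 = j.val) : Φ i ⋖ Φ j := by
  refine cov_of_rk hP (Φ.strictMono (by rw [Fin.lt_def]; omega)) ?_
  rw [rk_flag, rk_flag]; omega

lemma AdjAt.unique (hP : IsPolytope n P) {i : Fin (n + 2)} {A B C : Fin (n + 2) ↪o P}
    (h : AdjAt i A B) (h' : AdjAt i A C) : B = C := by
  obtain ⟨h0, h1⟩ := h.pos hP
  obtain ⟨w, -, hw⟩ := hP.diamond _ _ _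
    (flag_cov hP A (i := ⟨i.val - 1, by omega⟩) (j := i) (by simp only; omega))
    (flag_cov hP A (i := i) (j := ⟨i.val + 1, by omega⟩) (by simp only))
  have key : ∀ D : Fin (n + 2) ↪o P, AdjAt i A D → D i = w := by
    intro D hD
    apply hw
    refine ⟨hD.1.symm, ?_, ?_⟩
    · rw [hD.2 ⟨i.val - 1, by omega⟩ (by intro h; rw [Fin.ext_iff] at h; simp only at h; omega)]
      exact D.strictMono (by rw [Fin.lt_def]; simp only; omega)
    · rw [hD.2 ⟨i.val + 1, by omega⟩ (by intro h; rw [Fin.ext_iff] at h; simp only at h; omega)]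
      exact D.strictMono (by rw [Fin.lt_def]; simp only; omega)
  apply flag_ext
  intro j
  by_cases hj : j = i
  · subst hj
    rw [key B h, key C h']
  · rw [← h.2 j hj, ← h'.2 j hj]

lemma AdjAt.exists (hP : IsPolytope n P) (i : Fin (n + 2)) (A : Fin (n + 2) ↪o P)
    (h0 : 0 < i.val) (h1 : i.val < n + 1) : ∃ B, AdjAt i A B := by
  classical
  obtain ⟨w, ⟨hw1, hw2, hw3⟩, -⟩ := hP.diamond _ _ _
    (flag_cov hP A (i := ⟨i.val - 1, by omega⟩) (j := i) (by simp only; omega))
    (flag_cov hP A (i := i) (j := ⟨i.val + 1, by omega⟩) (by simp only))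
  refine ⟨OrderEmbedding.ofStrictMono (fun j => if j = i then w else A j) ?_, ?_, ?_⟩
  · intro a b hab
    have hab' : a.val < b.val := hab
    by_cases ha : a = i
    · by_cases hb : b = i
      · subst ha; subst hb; exact absurd hab (lt_irrefl _)
      · simp only [if_pos ha, if_neg hb]
        refine hw3.trans_le (A.monotone ?_)
        rw [ha] at hab'
        exact Fin.mk_le_of_le_val hab'
    · by_cases hb : b = i
      · simp only [if_neg ha, if_pos hb]
        refine lt_of_le_of_lt (A.monotone ?_) hw2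
        rw [hb] at hab'
        rw [Fin.le_def]
        show a.val ≤ i.val - 1
        omega
      · simp only [if_neg ha, if_neg hb]
        exact A.strictMono hab
  · show A i ≠ (if i = i then w else A i)
    rw [if_pos rfl]
    exact hw1.symm
  · intro j hj
    show A j = (if j = i then w else A j)
    rw [if_neg hj]

open Classical in
/-- the `i`-adjacent flag (or `A` itself if there is none) -/
noncomputable def flip (A : Fin (n + 2) ↪o P) (i : Fin (n + 2)) : Fin (n + 2) ↪o P :=
  if h : ∃ B, AdjAt i A B then h.choose else A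

lemma flip_of_adj (hP : IsPolytope n P) {i : Fin (n + 2)} {A B : Fin (n + 2) ↪o P}
    (h : AdjAt i A B) : flip A i = B := by
  have hex : ∃ B, AdjAt i A B := ⟨B, h⟩
  unfold flip
  rw [dif_pos hex]
  exact AdjAt.unique hP hex.choose_spec h

lemma flip_of_not {i : Fin (n + 2)} {A : Fin (n + 2) ↪o P}
    (h : ¬ ∃ B, AdjAt i A B) : flip A i = A := by
  unfold flip
  rw [dif_neg h]

lemma flip_adj (hP : IsPolytope n P) {i : Fin (n + 2)} (A : Fin (n + 2) ↪o P)
    (h0 : 0 < i.val) (h1 : i.val < n + 1) : AdjAt i A (flip A i) := by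
  obtain ⟨B, hB⟩ := AdjAt.exists hP i A h0 h1
  rwa [flip_of_adj hP hB]

lemma flip_apply_ne (i j : Fin (n + 2)) (A : Fin (n + 2) ↪o P) (hj : j ≠ i) :
    flip A i j = A j := by
  by_cases h : ∃ B, AdjAt i A B
  · unfold flip
    rw [dif_pos h]
    exact (h.choose_spec.2 j hj).symm
  · rw [flip_of_not h]

lemma flip_flip (hP : IsPolytope n P) (A : Fin (n + 2) ↪o P) (i : Fin (n + 2)) :
    flip (flip A i) i = A := by
  by_cases h : ∃ B, AdjAt i A B
  · obtain ⟨B, hB⟩ := h
    rw [flip_of_adj hP hB, flip_of_adj hP hB.symm]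
  · rw [flip_of_not h, flip_of_not h]

/-- flag connectedness, keeping the faces with index in `J` -/
lemma connected_flips (hP : IsPolytope n P) (J : Set (Fin (n + 2))) (Φ Ψ : Fin (n + 2) ↪o P)
    (hJ : ∀ j ∈ J, Φ j = Ψ j) :
    ReflTransGen (fun A B : Fin (n + 2) ↪o P => ∃ i, i ∉ J ∧ B = flip A i) Φ Ψ := by
  have := hP.connected Φ Ψ
  refine ReflTransGen.trans_induction_on
    (r := (fun A B : Fin (n + 2) ↪o P =>
      (∃ i, ∀ j, j ≠ i → A j = B j) ∧ ∀ j, Φ j = Ψ j → A j = Φ j ∧ B j = Φ j))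
    (motive := fun {a b} _ =>
      ReflTransGen (fun A B : Fin (n + 2) ↪o P => ∃ i, i ∉ J ∧ B = flip A i) a b) this ?_ ?_ ?_
  · intro a
    exact ReflTransGen.refl
  · rintro a b ⟨⟨i, hi⟩, hab⟩
    by_cases hai : a i = b i
    · have : a = b := by
        apply flag_ext
        intro j
        by_cases hj : j = i
        · rw [hj, hai]
        · exact hi j hj
      rw [this]
    · apply ReflTransGen.single
      refine ⟨i, ?_, (flip_of_adj hP ⟨hai, hi⟩).symm⟩
      intro hiJ
      apply hai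
      have := hab i (hJ i hiJ)
      rw [this.1, this.2]
  · intro a b c _ _ h1 h2
    exact h1.trans h2

lemma flag_induction (hP : IsPolytope n P) (p : (Fin (n + 2) ↪o P) → Prop)
    (Φ : Fin (n + 2) ↪o P) (h0 : p Φ) (hs : ∀ A i, p A → p (flip A i)) : ∀ Ψ, p Ψ := by
  intro Ψ
  have := connected_flips hP ∅ Φ Ψ (by simp)
  induction this with
  | refl => exact h0
  | tail _ h ih =>
    obtain ⟨i, -, rfl⟩ := h
    exact hs _ _ ih

end Flip

section Pre

variable {P : Type u} [PartialOrder P] [BoundedOrder P]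
  {Q : Type v} [PartialOrder Q] [BoundedOrder Q] {n : ℕ}

/-- strictly monotone maps preserving adjacency of flags -/
structure IsPre (n : ℕ) (f : P → Q) : Prop where
  strictMono : StrictMono f
  adjacent : ∀ (i : Fin (n + 2)) (A B : Fin (n + 2) ↪o P), AdjAt i A B → f (A i) ≠ f (B i)

/-- the image of a flag -/
def mapFlag {f : P → Q} (hf : StrictMono f) (A : Fin (n + 2) ↪o P) : Fin (n + 2) ↪o Q :=
  OrderEmbedding.ofStrictMono (fun i => f (A i)) (fun _ _ hij => hf (A.strictMono hij))

@[simp] lemma mapFlag_apply {f : P → Q} (hf : StrictMono f) (A : Fin (n + 2) ↪o P)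
    (i : Fin (n + 2)) : mapFlag hf A i = f (A i) := rfl

lemma IsPre.adj {f : P → Q} (hf : IsPre n f) {i : Fin (n + 2)} {A B : Fin (n + 2) ↪o P}
    (h : AdjAt i A B) : AdjAt i (mapFlag hf.strictMono A) (mapFlag hf.strictMono B) :=
  ⟨hf.adjacent i A B h, fun j hj => by rw [mapFlag_apply, mapFlag_apply, h.2 j hj]⟩

lemma IsPre.rk {f : P → Q} (hf : IsPre n f) (hP : IsPolytope n P) (hQ : IsPolytope n Q) (x : P) :
    rk hQ (f x) = rk hP x := by
  obtain ⟨Φ, h1, -⟩ := exists_flag_through hP (le_refl x)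
  have hx := rk_le_top hP x
  have h2 := h1 ⟨Poly.rk hP x, by omega⟩ rfl
  have h3 := rk_flag hQ (mapFlag hf.strictMono Φ) ⟨Poly.rk hP x, by omega⟩
  rw [mapFlag_apply, h2] at h3
  exact h3

lemma IsPre.map_flip {f : P → Q} (hf : IsPre n f) (hP : IsPolytope n P) (hQ : IsPolytope n Q)
    (A : Fin (n + 2) ↪o P) (i : Fin (n + 2)) :
    mapFlag hf.strictMono (flip A i) = flip (mapFlag hf.strictMono A) i := by
  by_cases h : ∃ B, AdjAt i A B
  · obtain ⟨B, hB⟩ := h
    rw [flip_of_adj hP hB, flip_of_adj hQ (hf.adj hB)]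
  · rw [flip_of_not h, flip_of_not]
    rintro ⟨B, hB⟩
    obtain ⟨h0, h1⟩ := hB.pos hQ
    exact h (AdjAt.exists hP i A h0 h1)

lemma IsPre.ext {f g : P → Q} (hf : IsPre n f) (hg : IsPre n g) (hP : IsPolytope n P)
    (hQ : IsPolytope n Q) (Φ : Fin (n + 2) ↪o P) (h : ∀ i, f (Φ i) = g (Φ i)) : f = g := by
  have key : ∀ Ψ : Fin (n + 2) ↪o P, mapFlag hf.strictMono Ψ = mapFlag hg.strictMono Ψ := by
    apply flag_induction hP
      (fun Ψ => mapFlag hf.strictMono Ψ = mapFlag hg.strictMono Ψ) Φ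
    · apply flag_ext
      intro i
      exact h i
    · intro A i hA
      rw [hf.map_flip hP hQ, hg.map_flip hP hQ, hA]
  funext x
  obtain ⟨Ψ, h1, -⟩ := exists_flag_through hP (le_refl x)
  have hx := rk_le_top hP x
  have h2 := h1 ⟨Poly.rk hP x, by omega⟩ rfl
  have h3 := congrArg (fun A : Fin (n + 2) ↪o Q => A ⟨Poly.rk hP x, by omega⟩) (key Ψ)
  simp only [mapFlag_apply, h2] at h3
  exact h3

lemma IsPre.surj_flags {f : P → Q} (hf : IsPre n f) (hP : IsPolytope n P) (hQ : IsPolytope n Q)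
    (Ψ : Fin (n + 2) ↪o Q) : ∃ Φ : Fin (n + 2) ↪o P, mapFlag hf.strictMono Φ = Ψ := by
  obtain ⟨Φ, -⟩ := exists_flag_any hP
  refine flag_induction hQ (fun Ψ => ∃ Φ : Fin (n + 2) ↪o P, mapFlag hf.strictMono Φ = Ψ)
    (mapFlag hf.strictMono Φ) ⟨Φ, rfl⟩ ?_ Ψ
  rintro A i ⟨Φ, rfl⟩
  exact ⟨flip Φ i, hf.map_flip hP hQ _ _⟩

lemma IsPre.surjective {f : P → Q} (hf : IsPre n f) (hP : IsPolytope n P)
    (hQ : IsPolytope n Q) : Function.Surjective f := by
  intro y
  obtain ⟨Ψ, h1, -⟩ := exists_flag_through hQ (le_refl y)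
  have hy := rk_le_top hQ y
  have h2 := h1 ⟨Poly.rk hQ y, by omega⟩ rfl
  obtain ⟨Φ, hΦ⟩ := hf.surj_flags hP hQ Ψ
  refine ⟨Φ ⟨Poly.rk hQ y, by omega⟩, ?_⟩
  rw [← mapFlag_apply hf.strictMono, hΦ, h2]

lemma isPre_embedding (f : P ↪o Q) : IsPre n f :=
  ⟨f.strictMono, fun _ _ _ h he => h.1 (f.injective he)⟩

lemma isPre_iso (f : P ≃o Q) : IsPre n f :=
  ⟨f.strictMono, fun _ _ _ h he => h.1 (f.injective he)⟩

lemma IsPre.comp {R : Type w} [PartialOrder R] [BoundedOrder R] {f : P → Q} {g : Q → R}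
    (hg : IsPre n g) (hf : IsPre n f) : IsPre n (fun x => g (f x)) :=
  ⟨fun _ _ h => hg.strictMono (hf.strictMono h), fun i A B h =>
    hg.adjacent i (mapFlag hf.strictMono A) (mapFlag hf.strictMono B) (hf.adj h)⟩

lemma iso_ext (hP : IsPolytope n P) (hQ : IsPolytope n Q) {f g : P ≃o Q} (Φ : Fin (n + 2) ↪o P)
    (h : ∀ i, f (Φ i) = g (Φ i)) : f = g := by
  have := IsPre.ext (isPre_iso (n := n) f) (isPre_iso g) hP hQ Φ h
  ext x
  exact congrFun this x

end Pre

section Words

variable {P : Type u} [PartialOrder P] [BoundedOrder P]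
  {Q : Type v} [PartialOrder Q] [BoundedOrder Q] {n : ℕ}

/-- words in the indices act on flags -/
noncomputable def act (A : Fin (n + 2) ↪o P) (w : List (Fin (n + 2))) : Fin (n + 2) ↪o P :=
  w.foldl flip A

lemma act_append (A : Fin (n + 2) ↪o P) (w w' : List (Fin (n + 2))) :
    act A (w ++ w') = act (act A w) w' := by
  simp [act, List.foldl_append]

lemma act_reverse (hP : IsPolytope n P) (A : Fin (n + 2) ↪o P) (w : List (Fin (n + 2))) :
    act (act A w) w.reverse = A := by
  induction w generalizing A with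
  | nil => rfl
  | cons i w ih =>
    have h1 : act A (i :: w) = act (flip A i) w := rfl
    rw [h1, List.reverse_cons, act_append, ih]
    exact flip_flip hP A i

lemma act_reverse' (hP : IsPolytope n P) (A : Fin (n + 2) ↪o P) (w : List (Fin (n + 2))) :
    act (act A w.reverse) w = A := by
  have := act_reverse hP A w.reverse
  rwa [List.reverse_reverse] at this

lemma IsPre.map_act {f : P → Q} (hf : IsPre n f) (hP : IsPolytope n P) (hQ : IsPolytope n Q)
    (A : Fin (n + 2) ↪o P) (w : List (Fin (n + 2))) :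
    mapFlag hf.strictMono (act A w) = act (mapFlag hf.strictMono A) w := by
  induction w generalizing A with
  | nil => rfl
  | cons i w ih =>
    have h1 : act A (i :: w) = act (flip A i) w := rfl
    have h2 : act (mapFlag hf.strictMono A) (i :: w) = act (flip (mapFlag hf.strictMono A) i) w :=
      rfl
    rw [h1, h2, ih, hf.map_flip hP hQ]

lemma exists_act (hP : IsPolytope n P) (A B : Fin (n + 2) ↪o P) : ∃ w, act A w = B := by
  refine flag_induction hP (fun B => ∃ w, act A w = B) A ⟨[], rfl⟩ ?_ B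
  rintro C i ⟨w, rfl⟩
  exact ⟨w ++ [i], by rw [act_append]; rfl⟩

/-- every relation satisfied at `A` is satisfied at `B` -/
def Below (A B : Fin (n + 2) ↪o P) : Prop := ∀ w w', act A w = act A w' → act B w = act B w'

lemma Below.trans {A B C : Fin (n + 2) ↪o P} (h : Below A B) (h' : Below B C) : Below A C :=
  fun w w' e => h' w w' (h w w' e)

lemma Below.act {A B : Fin (n + 2) ↪o P} (h : Below A B) (u : List (Fin (n + 2))) :
    Below (act A u) (act B u) := by
  intro w w' e
  rw [← act_append, ← act_append] at e ⊢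
  exact h _ _ e

lemma below_of_iso (hP : IsPolytope n P) (g : P ≃o P) {A B : Fin (n + 2) ↪o P}
    (h : ∀ i, g (A i) = B i) : Below A B := by
  intro w w' e
  have hg : IsPre n g := isPre_iso g
  have hB : mapFlag hg.strictMono A = B := flag_ext h
  rw [← hB, ← hg.map_act hP hP, ← hg.map_act hP hP, e]

/-- A strictly monotone adjacency-preserving self-map of a polytope with finitely many flag orbits
is an automorphism. -/
theorem self_map_iso (hP : IsPolytope n P) (hfin : Finite (Quotient (flagSetoid n P)))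
    {f : P → P} (hf : IsPre n f) : ∃ e : P ≃o P, ∀ x, e x = f x := by
  obtain ⟨Φ, -⟩ := exists_flag_any hP
  obtain ⟨w, hw⟩ := exists_act hP Φ (mapFlag hf.strictMono Φ)
  -- the iterates
  obtain ⟨it, it0, its⟩ : ∃ it : ℕ → (Fin (n + 2) ↪o P), it 0 = Φ ∧
      ∀ k, it (k + 1) = act (it k) w :=
    ⟨fun k => (fun A => act A w)^[k] Φ, rfl, fun k => Function.iterate_succ_apply' _ _ _⟩
  have it1 : it 1 = act (it 0) w := its 0
  have b01 : Below (it 0) (it 1) := by
    rw [it1, it0, hw]
    intro u u' e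
    rw [← hf.map_act hP hP, ← hf.map_act hP hP, e]
  have bs : ∀ k, Below (it k) (it (k + 1)) := by
    intro k
    induction k with
    | zero => exact b01
    | succ k ih =>
      have := ih.act w
      rw [← its k, ← its (k + 1)] at this
      exact this
  have bmono : ∀ k l, k ≤ l → Below (it k) (it l) := by
    intro k l hkl
    induction l, hkl using Nat.le_induction with
    | base => exact fun _ _ e => e
    | succ l _ ih => exact ih.trans (bs l)
  obtain ⟨a, b, hab, hq⟩ := Finite.exists_ne_map_eq_of_infinite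
    (fun k : ℕ => (Quotient.mk (flagSetoid n P) (it k)))
  have hback : ∃ a b, a < b ∧ Below (it b) (it a) := by
    rcases lt_or_gt_of_ne hab with h | h
    · obtain ⟨g, hg⟩ := Quotient.exact hq.symm
      exact ⟨a, b, h, below_of_iso hP g hg⟩
    · obtain ⟨g, hg⟩ := Quotient.exact hq
      exact ⟨b, a, h, below_of_iso hP g hg⟩
  obtain ⟨a, b, hlt, hba⟩ := hback
  have h1 : Below (it (a + 1)) (it a) := (bmono (a + 1) b hlt).trans hba
  have h2 : ∀ k, Below (it (k + 1)) (it k) → Below (it 1) (it 0) := by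
    intro k
    induction k with
    | zero => exact id
    | succ k ih =>
      intro h
      apply ih
      have := h.act w.reverse
      rw [its (k + 1), act_reverse hP, its k, act_reverse hP] at this
      rw [its k]
      exact this
  have h3 := h2 a h1
  rw [it1, it0, hw] at h3
  -- injectivity on flags
  have hinj : ∀ A B : Fin (n + 2) ↪o P,
      mapFlag hf.strictMono A = mapFlag hf.strictMono B → A = B := by
    intro A B hAB
    obtain ⟨u, rfl⟩ := exists_act hP Φ A
    obtain ⟨u', rfl⟩ := exists_act hP Φ B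
    rw [hf.map_act hP hP, hf.map_act hP hP] at hAB
    exact h3 _ _ hAB
  -- injectivity on faces
  have hinj2 : ∀ x x' : P, f x = f x' → x = x' := by
    intro x x' hxx
    have hr : rk hP x = rk hP x' := by
      rw [← hf.rk hP hP, hxx, hf.rk hP hP]
    have hx := rk_le_top hP x
    obtain ⟨A, hA, -⟩ := exists_flag_through hP (le_refl x)
    obtain ⟨A', hA', -⟩ := exists_flag_through hP (le_refl x')
    set r : Fin (n + 2) := ⟨rk hP x, by omega⟩ with hrdef
    have hAr : A r = x := hA r rfl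
    have hAr' : A' r = x' := hA' r (by rw [hrdef, ← hr])
    have hc := connected_flips hP {r} (mapFlag hf.strictMono A) (mapFlag hf.strictMono A') (by
      intro j hj
      rw [Set.mem_singleton_iff] at hj
      rw [hj, mapFlag_apply, mapFlag_apply, hAr, hAr', hxx])
    have hlift : ∃ A'', mapFlag hf.strictMono A'' = mapFlag hf.strictMono A' ∧ A'' r = x := by
      generalize mapFlag hf.strictMono A' = A₁ at hc ⊢
      induction hc with
      | refl => exact ⟨A, rfl, hAr⟩
      | tail _ h ih =>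
        obtain ⟨A'', h1, h2⟩ := ih
        obtain ⟨i, hi, rfl⟩ := h
        refine ⟨flip A'' i, ?_, ?_⟩
        · rw [hf.map_flip hP hP, h1]
        · rw [flip_apply_ne _ _ _ (by
            intro h
            apply hi
            rw [h]
            exact Set.mem_singleton _), h2]
    obtain ⟨A'', h1, h2⟩ := hlift
    rw [← h2, hinj _ _ h1, hAr']
  -- order reflecting
  have hrefl : ∀ x y : P, f x ≤ f y → x ≤ y := by
    intro x y hxy
    obtain ⟨Ψ, h1, h2⟩ := exists_flag_through hP hxy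
    obtain ⟨Θ, rfl⟩ := hf.surj_flags hP hP Ψ
    have hx := rk_le_top hP x
    have hy := rk_le_top hP y
    have e1 := h1 ⟨rk hP x, by omega⟩ (by rw [hf.rk hP hP])
    have e2 := h2 ⟨rk hP y, by omega⟩ (by rw [hf.rk hP hP])
    rw [mapFlag_apply] at e1 e2
    rw [← hinj2 _ _ e1, ← hinj2 _ _ e2]
    apply Θ.monotone
    rw [Fin.le_def]
    simp only
    rw [← hf.rk hP hP x, ← hf.rk hP hP y]
    exact rk_le hP hxy
  have hsurj := hf.surjective hP hP
  refine ⟨⟨Equiv.ofBijective f ⟨fun x x' => hinj2 x x', hsurj⟩, ?_⟩, fun x => rfl⟩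
  intro x y
  exact ⟨fun h => hrefl x y h, fun h => hf.strictMono.monotone h⟩

end Words

end Pool.Agent.H39.Poly
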