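import Mathlib
import Pool.Agent.H39.PolyBasic

set_option autoImplicit false
set_option linter.unusedSectionVars false

universe u v w

namespace Pool.Agent.H39.Poly

open Relation

/-- an isomorphism from `P` onto a facet of `R`, as an order embedding `P ↪o R` -/
structure Frame (P : Type u) (R : Type v) [PartialOrder P] [BoundedOrder P] [PartialOrder R]
    [BoundedOrder R] where
  emb : P ↪o R
  coatom : IsCoatom (emb ⊤)
  lower : ∀ y, y ≤ emb ⊤ → ∃ x, emb x = y

namespace Frame

variable {P : Type u} [PartialOrder P] [BoundedOrder P]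
  {R : Type v} [PartialOrder R] [BoundedOrder R] {n : ℕ}

lemma ext' {φ ψ : Frame P R} (h : ∀ x, φ.emb x = ψ.emb x) : φ = ψ := by
  cases φ
  cases ψ
  congr
  ext x
  exact h x

lemma le_top' (φ : Frame P R) (x : P) : φ.emb x ≤ φ.emb ⊤ := φ.emb.monotone le_top

lemma emb_bot (φ : Frame P R) : φ.emb ⊥ = ⊥ := by
  obtain ⟨x, hx⟩ := φ.lower ⊥ bot_le
  apply le_antisymm _ bot_le
  rw [← hx]
  exact φ.emb.monotone bot_le

/-- the inverse of a frame -/
noncomputable def inv (φ : Frame P R) (y : R) (hy : y ≤ φ.emb ⊤) : P := (φ.lower y hy).choose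

lemma emb_inv (φ : Frame P R) (y : R) (hy : y ≤ φ.emb ⊤) : φ.emb (φ.inv y hy) = y :=
  (φ.lower y hy).choose_spec

lemma inv_emb (φ : Frame P R) (x : P) : φ.inv (φ.emb x) (φ.le_top' x) = x :=
  φ.emb.injective (φ.emb_inv _ _)

lemma inv_unique (φ : Frame P R) {y : R} (hy : y ≤ φ.emb ⊤) {x : P} (h : φ.emb x = y) :
    φ.inv y hy = x := φ.emb.injective (by rw [φ.emb_inv, h])

/-- precomposition with an automorphism -/
def precomp (φ : Frame P R) (h : P ≃o P) : Frame P R where
  emb := h.toOrderEmbedding.trans φ.emb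
  coatom := by
    have : (h.toOrderEmbedding.trans φ.emb) ⊤ = φ.emb ⊤ := by simp
    rw [this]
    exact φ.coatom
  lower := by
    intro y hy
    have : (h.toOrderEmbedding.trans φ.emb) ⊤ = φ.emb ⊤ := by simp
    rw [this] at hy
    obtain ⟨x, hx⟩ := φ.lower y hy
    exact ⟨h.symm x, by simp [hx]⟩

@[simp] lemma precomp_apply (φ : Frame P R) (h : P ≃o P) (x : P) :
    (φ.precomp h).emb x = φ.emb (h x) := rfl

/-- postcomposition with an isomorphism -/
def postcomp {S : Type w} [PartialOrder S] [BoundedOrder S] (φ : Frame P R) (g : R ≃o S) :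
    Frame P S where
  emb := φ.emb.trans g.toOrderEmbedding
  coatom := by
    have : (φ.emb.trans g.toOrderEmbedding) ⊤ = g (φ.emb ⊤) := rfl
    rw [this, OrderIso.isCoatom_iff]
    exact φ.coatom
  lower := by
    intro y hy
    have : (φ.emb.trans g.toOrderEmbedding) ⊤ = g (φ.emb ⊤) := rfl
    rw [this] at hy
    obtain ⟨x, hx⟩ := φ.lower (g.symm y) (by rwa [OrderIso.symm_apply_le])
    exact ⟨x, by simp [hx]⟩

@[simp] lemma postcomp_apply {S : Type w} [PartialOrder S] [BoundedOrder S] (φ : Frame P R)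
    (g : R ≃o S) (x : P) : (φ.postcomp g).emb x = g (φ.emb x) := rfl

/-- the frame given by an isomorphism of a facet with `P` -/
def ofIso {F : R} (hF : IsCoatom F) (e : Set.Iic F ≃o P) : Frame P R where
  emb := e.symm.toOrderEmbedding.trans (OrderEmbedding.subtype (· ≤ F))
  coatom := by
    have : (e.symm.toOrderEmbedding.trans (OrderEmbedding.subtype (· ≤ F))) ⊤ = F := by
      show ((e.symm ⊤ : Set.Iic F) : R) = F
      rw [map_top]
      rfl
    rw [this]
    exact hF
  lower := by
    have : (e.symm.toOrderEmbedding.trans (OrderEmbedding.subtype (· ≤ F))) ⊤ = F := by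
      show ((e.symm ⊤ : Set.Iic F) : R) = F
      rw [map_top]
      rfl
    intro y hy
    rw [this] at hy
    refine ⟨e ⟨y, hy⟩, ?_⟩
    show ((e.symm (e ⟨y, hy⟩) : Set.Iic F) : R) = y
    rw [OrderIso.symm_apply_apply]

lemma ofIso_top {F : R} (hF : IsCoatom F) (e : Set.Iic F ≃o P) : (ofIso hF e).emb ⊤ = F := by
  show ((e.symm ⊤ : Set.Iic F) : R) = F
  rw [map_top]
  rfl

/-- two frames onto the same facet differ by an automorphism of `P` -/
lemma exists_precomp (φ ψ : Frame P R) (h : φ.emb ⊤ = ψ.emb ⊤) :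
    ∃ g : P ≃o P, ∀ x, ψ.emb (g x) = φ.emb x := by
  have h1 : ∀ x, φ.emb x ≤ ψ.emb ⊤ := fun x => h ▸ φ.le_top' x
  have h2 : ∀ x, ψ.emb x ≤ φ.emb ⊤ := fun x => h ▸ ψ.le_top' x
  refine ⟨{ toFun := fun x => ψ.inv (φ.emb x) (h1 x)
            invFun := fun x => φ.inv (ψ.emb x) (h2 x)
            left_inv := ?_
            right_inv := ?_
            map_rel_iff' := ?_ }, ?_⟩
  · intro x
    exact φ.inv_unique _ (by rw [ψ.emb_inv])
  · intro x
    exact ψ.inv_unique _ (by rw [φ.emb_inv])
  · intro x y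
    simp only [Equiv.coe_fn_mk]
    rw [← ψ.emb.le_iff_le, ψ.emb_inv, ψ.emb_inv, φ.emb.le_iff_le]
  · intro x
    exact ψ.emb_inv (φ.emb x) (h1 x)

/-- the flag of `R` through the facet of `φ` given by a flag of `P` -/
def up (φ : Frame P R) (A : Fin (n + 2) ↪o P) : Fin (n + 1 + 2) ↪o R :=
  OrderEmbedding.ofStrictMono
    (fun i => if h : i.val < n + 2 then φ.emb (A ⟨i.val, h⟩) else ⊤) (by
      intro i j hij
      have hij' : i.val < j.val := hij
      by_cases hj : j.val < n + 2
      · simp only [dif_pos hj, dif_pos (hij'.trans hj)]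
        exact φ.emb.strictMono (A.strictMono hij')
      · have hi : i.val < n + 2 := by omega
        simp only [dif_pos hi, dif_neg hj]
        exact (φ.le_top' _).trans_lt φ.coatom.lt_top)

lemma up_apply (φ : Frame P R) (A : Fin (n + 2) ↪o P) (i : Fin (n + 1 + 2)) (h : i.val < n + 2) :
    φ.up A i = φ.emb (A ⟨i.val, h⟩) := by
  show (if h : i.val < n + 2 then φ.emb (A ⟨i.val, h⟩) else ⊤) = _
  rw [dif_pos h]

lemma up_last (φ : Frame P R) (A : Fin (n + 2) ↪o P) (i : Fin (n + 1 + 2)) (h : ¬ i.val < n + 2) :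
    φ.up A i = ⊤ := by
  show (if h : i.val < n + 2 then φ.emb (A ⟨i.val, h⟩) else ⊤) = _
  rw [dif_neg h]

lemma up_facet (hP : IsPolytope n P) (φ : Frame P R) (A : Fin (n + 2) ↪o P)
    (i : Fin (n + 1 + 2)) (h : i.val = n + 1) : φ.up A i = φ.emb ⊤ := by
  rw [up_apply φ A i (by omega)]
  congr 1
  apply eq_top_of_rk hP
  rw [rk_flag]
  exact h

/-- a flag of `R` through the facet of `φ` comes from a flag of `P` -/
lemma exists_down (hR : IsPolytope (n + 1) R) (φ : Frame P R) (B : Fin (n + 1 + 2) ↪o R)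
    (h : B ⟨n + 1, by omega⟩ = φ.emb ⊤) : ∃ A : Fin (n + 2) ↪o P, φ.up A = B := by
  have h1 : ∀ i : Fin (n + 2), B ⟨i.val, by omega⟩ ≤ φ.emb ⊤ := by
    intro i
    rw [← h]
    apply B.monotone
    rw [Fin.le_def]
    show i.val ≤ n + 1
    omega
  refine ⟨OrderEmbedding.ofStrictMono (fun i => φ.inv (B ⟨i.val, by omega⟩) (h1 i)) ?_, ?_⟩
  · intro i j hij
    rw [← φ.emb.lt_iff_lt, φ.emb_inv, φ.emb_inv]
    apply B.strictMono
    exact hij
  · apply flag_ext
    intro i
    by_cases hi : i.val < n + 2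
    · rw [up_apply _ _ _ hi]
      show φ.emb (φ.inv (B ⟨i.val, by omega⟩) (h1 ⟨i.val, hi⟩)) = B i
      rw [φ.emb_inv]
    · rw [up_last _ _ _ hi]
      symm
      apply eq_top_of_rk hR
      rw [rk_flag]
      omega

lemma up_injective (φ : Frame P R) {A B : Fin (n + 2) ↪o P} (h : φ.up A = φ.up B) : A = B := by
  apply flag_ext
  intro i
  apply φ.emb.injective
  rw [← φ.up_apply A ⟨i.val, by omega⟩ i.2, ← φ.up_apply B ⟨i.val, by omega⟩ i.2, h]

lemma rk_emb (hP : IsPolytope n P) (hR : IsPolytope (n + 1) R) (φ : Frame P R) (x : P) :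
    rk hR (φ.emb x) = rk hP x := by
  obtain ⟨A, h1, -⟩ := exists_flag_through hP (le_refl x)
  have hx := rk_le_top hP x
  have h2 := h1 ⟨Poly.rk hP x, by omega⟩ rfl
  have h3 := rk_flag hR (φ.up A) ⟨Poly.rk hP x, by omega⟩
  rw [up_apply _ _ _ (by show Poly.rk hP x < n + 2; omega)] at h3
  rw [h2] at h3
  exact h3

/-- frames onto the same facet agreeing on a flag are equal -/
lemma ext_flag (hP : IsPolytope n P) {φ ψ : Frame P R} (h : φ.emb ⊤ = ψ.emb ⊤)
    (A : Fin (n + 2) ↪o P) (hA : ∀ i, φ.emb (A i) = ψ.emb (A i)) : φ = ψ := by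
  obtain ⟨g, hg⟩ := φ.exists_precomp ψ h
  have : g = OrderIso.refl P := by
    apply iso_ext hP hP A
    intro i
    apply ψ.emb.injective
    rw [hg, hA, OrderIso.refl_apply]
  apply ext'
  intro x
  rw [← hg x, this, OrderIso.refl_apply]

end Frame

section Transitive

variable {P : Type u} [PartialOrder P] [BoundedOrder P]
  {R : Type u} [PartialOrder R] [BoundedOrder R] {n : ℕ}

/-- the automorphism group of `R` acts transitively on the frames of `R` -/
def FrameTransitive (P : Type u) [PartialOrder P] [BoundedOrder P]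
    (R : Type u) [PartialOrder R] [BoundedOrder R] : Prop :=
  ∀ φ ψ : Frame P R, ∃ g : R ≃o R, ∀ x, g (φ.emb x) = ψ.emb x

lemma exists_frame (hext : IsExtension n P R) {F : R} (hF : IsCoatom F) :
    ∃ φ : Frame P R, φ.emb ⊤ = F := by
  obtain ⟨e⟩ := hext.2 F hF
  exact ⟨Frame.ofIso hF e, Frame.ofIso_top hF e⟩

lemma exists_frame_flag (hext : IsExtension n P R) (B : Fin (n + 1 + 2) ↪o R) :
    ∃ (φ : Frame P R) (A : Fin (n + 2) ↪o P), φ.up A = B := by
  have hF : IsCoatom (B ⟨n + 1, by omega⟩) := by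
    rw [coatom_iff hext.1, rk_flag]
  obtain ⟨φ, hφ⟩ := exists_frame hext hF
  obtain ⟨A, hA⟩ := Frame.exists_down hext.1 φ B hφ.symm
  exact ⟨φ, A, hA⟩

lemma exists_frame_any (hext : IsExtension n P R) : ∃ _φ : Frame P R, True := by
  obtain ⟨B, -⟩ := exists_flag_any hext.1
  obtain ⟨φ, -⟩ := exists_frame_flag hext B
  exact ⟨φ, trivial⟩

/-- the class of a flag of `R` is well defined -/
lemma class_unique (hP : IsPolytope n P) {φ ψ : Frame P R} {A A' : Fin (n + 2) ↪o P}
    (h : φ.up A = ψ.up A') : (flagSetoid n P).r A A' := by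
  have htop : φ.emb ⊤ = ψ.emb ⊤ := by
    rw [← φ.up_facet hP A ⟨n + 1, by omega⟩ rfl, ← ψ.up_facet hP A' ⟨n + 1, by omega⟩ rfl, h]
  obtain ⟨g, hg⟩ := φ.exists_precomp ψ htop
  refine ⟨g, fun i => ?_⟩
  apply ψ.emb.injective
  rw [hg, ← φ.up_apply A ⟨i.val, by omega⟩ i.2, ← ψ.up_apply A' ⟨i.val, by omega⟩ i.2, h]

/-- the orbit of flags of `P` belonging to a flag of `R` -/
noncomputable def cls (hext : IsExtension n P R) (B : Fin (n + 1 + 2) ↪o R) :
    Quotient (flagSetoid n P) :=
  Quotient.mk _ (exists_frame_flag hext B).choose_spec.choose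

lemma cls_up (hP : IsPolytope n P) (hext : IsExtension n P R) (φ : Frame P R)
    (A : Fin (n + 2) ↪o P) : cls hext (φ.up A) = Quotient.mk _ A := by
  apply Quotient.sound
  have := (exists_frame_flag hext (φ.up A)).choose_spec.choose_spec
  exact class_unique hP this

lemma cls_respects (hP : IsPolytope n P) (hext : IsExtension n P R)
    (B B' : Fin (n + 1 + 2) ↪o R) (h : (flagSetoid (n + 1) R).r B B') :
    cls hext B = cls hext B' := by
  obtain ⟨g, hg⟩ := h
  obtain ⟨φ, A, rfl⟩ := exists_frame_flag hext B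
  have : (φ.postcomp g).up A = B' := by
    apply flag_ext
    intro i
    rw [← hg i]
    by_cases hi : i.val < n + 2
    · rw [Frame.up_apply _ _ _ hi, Frame.up_apply _ _ _ hi, Frame.postcomp_apply]
    · rw [Frame.up_last _ _ _ hi, Frame.up_last _ _ _ hi, map_top]
  rw [← this, cls_up hP, cls_up hP]

/-- the induced map from flag orbits of `R` to flag orbits of `P` -/
noncomputable def clsBar (hP : IsPolytope n P) (hext : IsExtension n P R) :
    Quotient (flagSetoid (n + 1) R) → Quotient (flagSetoid n P) :=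
  Quotient.lift (cls hext) (cls_respects hP hext)

lemma clsBar_surjective (hP : IsPolytope n P) (hext : IsExtension n P R) :
    Function.Surjective (clsBar hP hext) := by
  intro q
  induction q using Quotient.inductionOn with
  | _ A =>
    obtain ⟨φ, -⟩ := exists_frame_any hext
    exact ⟨Quotient.mk _ (φ.up A), cls_up hP hext φ A⟩

lemma frameTransitive_iff (hP : IsPolytope n P) (hext : IsExtension n P R) :
    FrameTransitive P R ↔ Function.Injective (clsBar hP hext) := by
  constructor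
  · intro ht q q' h
    induction q using Quotient.inductionOn with
    | _ B =>
    induction q' using Quotient.inductionOn with
    | _ B' =>
      obtain ⟨φ, A, rfl⟩ := exists_frame_flag hext B
      obtain ⟨φ', A', rfl⟩ := exists_frame_flag hext B'
      have h' : cls hext (φ.up A) = cls hext (φ'.up A') := h
      rw [cls_up hP, cls_up hP] at h'
      obtain ⟨a, ha⟩ := Quotient.exact h'
      obtain ⟨g, hg⟩ := ht φ (φ'.precomp a)
      apply Quotient.sound
      refine ⟨g, fun i => ?_⟩
      by_cases hi : i.val < n + 2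
      · rw [Frame.up_apply _ _ _ hi, Frame.up_apply _ _ _ hi, hg, Frame.precomp_apply, ha]
      · rw [Frame.up_last _ _ _ hi, Frame.up_last _ _ _ hi, map_top]
  · intro hi φ ψ
    obtain ⟨A, -⟩ := exists_flag_any hP
    have h1 : clsBar hP hext (Quotient.mk _ (φ.up A)) = clsBar hP hext (Quotient.mk _ (ψ.up A)) := by
      show cls hext (φ.up A) = cls hext (ψ.up A)
      rw [cls_up hP, cls_up hP]
    obtain ⟨g, hg⟩ := Quotient.exact (hi h1)
    refine ⟨g, fun x => ?_⟩
    have h2 : φ.postcomp g = ψ := by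
      apply Frame.ext_flag hP _ A
      · intro i
        have := hg ⟨i.val, by omega⟩
        rw [Frame.up_apply _ _ _ i.2, Frame.up_apply _ _ _ i.2] at this
        exact this
      · have := hg ⟨n + 1, by omega⟩
        rw [Frame.up_facet hP _ _ _ rfl, Frame.up_facet hP _ _ _ rfl] at this
        exact this
    rw [← h2]
    rfl

lemma frameTransitive_of_kOrbit {k : ℕ} (hP : IsKOrbit k n P) (hext : IsExtension n P R)
    (hR : IsKOrbit k (n + 1) R) : FrameTransitive P R := by
  rw [frameTransitive_iff hP.1 hext]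
  have hk : 0 < k := hP.2.1
  have f1 : Finite (Quotient (flagSetoid n P)) := Nat.finite_of_card_ne_zero (by rw [hP.2.2]; omega)
  have f2 : Finite (Quotient (flagSetoid (n + 1) R)) :=
    Nat.finite_of_card_ne_zero (by rw [hR.2.2]; omega)
  exact (clsBar_surjective hP.1 hext).bijective_of_nat_card_le
    (by rw [hP.2.2, hR.2.2]) |>.1

lemma kOrbit_of_frameTransitive {k : ℕ} (hP : IsKOrbit k n P) (hext : IsExtension n P R)
    (ht : FrameTransitive P R) : IsKOrbit k (n + 1) R := by
  refine ⟨hext.1, hP.2.1, ?_⟩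
  rw [← hP.2.2]
  exact Nat.card_congr (Equiv.ofBijective _ ⟨(frameTransitive_iff hP.1 hext).mp ht,
    clsBar_surjective hP.1 hext⟩)

end Transitive

end Pool.Agent.H39.Poly
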