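import Mathlib
import Pool.Agent.H39.PolyExt

set_option autoImplicit false
set_option linter.unusedSectionVars false

universe u v w

namespace Pool.Agent.H39.Poly

open Relation

namespace Frame

variable {P : Type u} [PartialOrder P] [BoundedOrder P]
  {R : Type v} [PartialOrder R] [BoundedOrder R] {n : ℕ}

/-- the isomorphism between faces of `P` with the same image -/
noncomputable def glue (φ ψ : Frame P R) {F G : P} (h : φ.emb F = ψ.emb G) :
    Set.Iic F ≃o Set.Iic G where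
  toFun x := ⟨ψ.inv (φ.emb x) (by
      have : φ.emb x.1 ≤ φ.emb F := φ.emb.monotone x.2
      rw [h] at this
      exact this.trans (ψ.le_top' G)), by
    rw [Set.mem_Iic, ← ψ.emb.le_iff_le, ψ.emb_inv, ← h]
    exact φ.emb.monotone x.2⟩
  invFun y := ⟨φ.inv (ψ.emb y) (by
      have : ψ.emb y.1 ≤ ψ.emb G := ψ.emb.monotone y.2
      rw [← h] at this
      exact this.trans (φ.le_top' F)), by
    rw [Set.mem_Iic, ← φ.emb.le_iff_le, φ.emb_inv, h]
    exact ψ.emb.monotone y.2⟩
  left_inv := by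
    intro x
    apply Subtype.ext
    apply φ.emb.injective
    simp only [Frame.emb_inv]
  right_inv := by
    intro y
    apply Subtype.ext
    apply ψ.emb.injective
    simp only [Frame.emb_inv]
  map_rel_iff' := by
    intro x y
    show (⟨ψ.inv (φ.emb x) _, _⟩ : Set.Iic G) ≤ ⟨ψ.inv (φ.emb y) _, _⟩ ↔ x ≤ y
    rw [Subtype.mk_le_mk, ← ψ.emb.le_iff_le, ψ.emb_inv, ψ.emb_inv, φ.emb.le_iff_le]
    exact Iff.rfl

lemma glue_apply (φ ψ : Frame P R) {F G : P} (h : φ.emb F = ψ.emb G) (x : Set.Iic F) :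
    ψ.emb (φ.glue ψ h x) = φ.emb x := by
  have hle : φ.emb x.1 ≤ ψ.emb ⊤ := by
    have : φ.emb x.1 ≤ φ.emb F := φ.emb.monotone x.2
    rw [h] at this
    exact this.trans (ψ.le_top' G)
  exact ψ.emb_inv (φ.emb x.1) hle

lemma ridge_cov (hP : IsPolytope n P) (hR : IsPolytope (n + 1) R) (φ : Frame P R) {F : P}
    (hF : IsCoatom F) : φ.emb F ⋖ φ.emb ⊤ := by
  refine cov_of_rk hR (φ.emb.strictMono hF.lt_top) ?_
  rw [φ.rk_emb hP hR, φ.rk_emb hP hR, rk_top, (coatom_iff hP).mp hF]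

/-- there are only two facets through a ridge -/
lemma facet_unique (hP : IsPolytope n P) (hR : IsPolytope (n + 1) R) (φ : Frame P R) {F : P}
    (hF : IsCoatom F) {A B : R} (hA : IsCoatom A) (hB : IsCoatom B) (hA1 : φ.emb F ≤ A)
    (hB1 : φ.emb F ≤ B) (hA2 : A ≠ φ.emb ⊤) (hB2 : B ≠ φ.emb ⊤) : A = B := by
  obtain ⟨w, -, hw⟩ := hR.diamond _ _ _ (φ.ridge_cov hP hR hF) φ.coatom.covBy_top
  have key : ∀ C : R, IsCoatom C → φ.emb F ≤ C → φ.emb F < C := by
    intro C hC hC1
    refine lt_of_le_of_ne hC1 ?_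
    intro h
    have h1 := φ.rk_emb hP hR F
    rw [(coatom_iff hP).mp hF, h, (coatom_iff hR).mp hC] at h1
    omega
  rw [hw A ⟨hA2, key A hA hA1, hA.lt_top⟩, hw B ⟨hB2, key B hB hB1, hB.lt_top⟩]

/-- frames onto the same facet agreeing on a facet of `P` are equal -/
lemma ext_facet (hP : IsPolytope n P) {φ ψ : Frame P R} (h : φ.emb ⊤ = ψ.emb ⊤) {F : P}
    (hF : IsCoatom F) (hA : ∀ x, x ≤ F → φ.emb x = ψ.emb x) : φ = ψ := by
  obtain ⟨A, h1, -⟩ := exists_flag_through hP (le_refl F)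
  have hrF := (coatom_iff hP).mp hF
  rw [hrF] at h1
  apply ext_flag hP h A
  intro i
  by_cases hi : i.val ≤ n
  · apply hA
    rw [← h1 ⟨n, by omega⟩ rfl]
    exact A.monotone hi
  · have : A i = ⊤ := by
      apply eq_top_of_rk hP
      rw [rk_flag]
      omega
    rw [this, h]

end Frame

section Adj

variable {P : Type u} [PartialOrder P] [BoundedOrder P]
  {R : Type u} [PartialOrder R] [BoundedOrder R] {n : ℕ}

/-- `ψ` is a frame onto another facet, glued to `φ` along `γ` -/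
def GluedBy (φ ψ : Frame P R) {F G : P} (γ : Set.Iic F ≃o Set.Iic G) : Prop :=
  ψ.emb ⊤ ≠ φ.emb ⊤ ∧ ∀ x : Set.Iic F, ψ.emb (γ x) = φ.emb x

lemma iso_top {F G : P} (γ : Set.Iic F ≃o Set.Iic G) :
    ((γ ⟨F, Set.mem_Iic.mpr le_rfl⟩ : Set.Iic G) : P) = G := by
  have : (⟨F, Set.mem_Iic.mpr le_rfl⟩ : Set.Iic F) = ⊤ := rfl
  rw [this, map_top]
  rfl

lemma GluedBy.ridge {φ ψ : Frame P R} {F G : P} {γ : Set.Iic F ≃o Set.Iic G}
    (h : GluedBy φ ψ γ) : ψ.emb G = φ.emb F := by
  have := h.2 ⟨F, Set.mem_Iic.mpr le_rfl⟩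
  rwa [iso_top] at this

lemma GluedBy.symm {φ ψ : Frame P R} {F G : P} {γ : Set.Iic F ≃o Set.Iic G}
    (h : GluedBy φ ψ γ) : GluedBy ψ φ γ.symm := by
  refine ⟨h.1.symm, fun y => ?_⟩
  rw [← h.2, OrderIso.apply_symm_apply]

lemma exists_glued (hP : IsPolytope n P) (hext : IsExtension n P R) (φ : Frame P R) {F : P}
    (hF : IsCoatom F) : ∃ (ψ : Frame P R) (G : P) (_ : IsCoatom G)
      (γ : Set.Iic F ≃o Set.Iic G), GluedBy φ ψ γ := by
  have hR := hext.1
  obtain ⟨w, ⟨hw1, hw2, hw3⟩, -⟩ := hR.diamond _ _ _ (φ.ridge_cov hP hR hF) φ.coatom.covBy_top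
  have hrk : rk hR w = n + 1 := by
    have h1 := rk_lt hR hw2
    have h2 := rk_lt hR hw3
    rw [φ.rk_emb hP hR, (coatom_iff hP).mp hF] at h1
    rw [rk_top] at h2
    omega
  have hwc : IsCoatom w := (coatom_iff hR).mpr hrk
  obtain ⟨ψ, hψ⟩ := exists_frame hext hwc
  have hle : φ.emb F ≤ ψ.emb ⊤ := by rw [hψ]; exact hw2.le
  have hG : φ.emb F = ψ.emb (ψ.inv (φ.emb F) hle) := (ψ.emb_inv _ _).symm
  refine ⟨ψ, ψ.inv (φ.emb F) hle, ?_, φ.glue ψ hG, ?_, ?_⟩
  · rw [coatom_iff hP, ← ψ.rk_emb hP hR, ← hG, φ.rk_emb hP hR, (coatom_iff hP).mp hF]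
  · rw [hψ]; exact hw1
  · intro x
    exact φ.glue_apply ψ hG x

/-- in a frame-transitive extension the gluing is determined up to automorphisms of `P` -/
lemma glue_determined (hP : IsPolytope n P) (hext : IsExtension n P R)
    (ht : FrameTransitive P R) {F G G' : P} (hF : IsCoatom F) {γ : Set.Iic F ≃o Set.Iic G}
    {γ' : Set.Iic F ≃o Set.Iic G'} {φ ψ φ' ψ' : Frame P R} (h : GluedBy φ ψ γ)
    (h' : GluedBy φ' ψ' γ') : ∃ k : P ≃o P, ∀ x : Set.Iic F, k (γ x) = γ' x := by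
  obtain ⟨g, hg⟩ := ht φ φ'
  have htop : (ψ.postcomp g).emb ⊤ = ψ'.emb ⊤ := by
    apply Frame.facet_unique hP hext.1 φ' hF (ψ.postcomp g).coatom ψ'.coatom
    · rw [Frame.postcomp_apply, ← hg, OrderIso.le_iff_le, ← h.ridge]
      exact ψ.le_top' _
    · rw [← h'.ridge]
      exact ψ'.le_top' _
    · rw [Frame.postcomp_apply, ← hg]
      intro he
      exact h.1 (g.injective he)
    · exact h'.1
  obtain ⟨k, hk⟩ := (ψ.postcomp g).exists_precomp ψ' htop
  refine ⟨k, fun x => ?_⟩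
  apply ψ'.emb.injective
  rw [hk, h'.2, Frame.postcomp_apply, h.2, hg]

/-- coverings of extensions are injective on facets: they map frames to frames -/
lemma covering_frame {U : Type u} [PartialOrder U] [BoundedOrder U] (hP : IsPolytope n P)
    (hfin : Finite (Quotient (flagSetoid n P)))
    (hU : IsExtension n P U) (hR : IsExtension n P R) {f : U → R} (hf : IsCovering (n + 1) f)
    (φ : Frame P U) : ∃ ψ : Frame P R, ∀ x, ψ.emb x = f (φ.emb x) := by
  have hpre : IsPre (n + 1) f := ⟨hf.strictMono, fun i A B h => hf.adjacent i A B h.1 h.2⟩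
  have hco : IsCoatom (f (φ.emb ⊤)) := by
    rw [coatom_iff hR.1, hpre.rk hU.1 hR.1]
    exact (coatom_iff hU.1).mp φ.coatom
  obtain ⟨ψ, hψ⟩ := exists_frame hR hco
  have hle : ∀ x, f (φ.emb x) ≤ ψ.emb ⊤ := by
    intro x
    rw [hψ]
    exact hf.strictMono.monotone (φ.le_top' x)
  have hh : IsPre n (fun x => ψ.inv (f (φ.emb x)) (hle x)) := by
    refine ⟨fun x y hxy => ?_, fun i A B hAB => ?_⟩
    · rw [← ψ.emb.lt_iff_lt, ψ.emb_inv, ψ.emb_inv]
      exact hf.strictMono (φ.emb.strictMono hxy)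
    · intro he
      have he' : f (φ.emb (A i)) = f (φ.emb (B i)) := by
        rw [← ψ.emb_inv _ (hle (A i)), ← ψ.emb_inv _ (hle (B i))]
        exact congrArg ψ.emb he
      have hadj : AdjAt (⟨i.val, by omega⟩ : Fin (n + 1 + 2)) (φ.up A) (φ.up B) := by
        refine ⟨?_, ?_⟩
        · rw [φ.up_apply _ _ i.2, φ.up_apply _ _ i.2]
          intro h
          exact hAB.1 (φ.emb.injective h)
        · intro j hj
          by_cases hj2 : j.val < n + 2
          · rw [φ.up_apply _ _ hj2, φ.up_apply _ _ hj2]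
            rw [hAB.2 ⟨j.val, hj2⟩]
            intro h
            apply hj
            rw [Fin.ext_iff] at h ⊢
            exact h
          · rw [φ.up_last _ _ hj2, φ.up_last _ _ hj2]
      have := hpre.adjacent _ _ _ hadj
      rw [φ.up_apply _ _ i.2, φ.up_apply _ _ i.2] at this
      exact this he'
  obtain ⟨e, he⟩ := self_map_iso hP hfin hh
  refine ⟨ψ.precomp e, fun x => ?_⟩
  rw [Frame.precomp_apply, he, ψ.emb_inv]

/-- coverings preserve gluing -/
lemma covering_glued {U : Type u} [PartialOrder U] [BoundedOrder U] (hP : IsPolytope n P)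
    (hU : IsExtension n P U) {f : U → R} (hf : IsCovering (n + 1) f)
    {φ ψ : Frame P U} {φ' ψ' : Frame P R} (h1 : ∀ x, φ'.emb x = f (φ.emb x))
    (h2 : ∀ x, ψ'.emb x = f (ψ.emb x)) {F G : P} (hF : IsCoatom F) {γ : Set.Iic F ≃o Set.Iic G}
    (h : GluedBy φ ψ γ) : GluedBy φ' ψ' γ := by
  have hpre : IsPre (n + 1) f := ⟨hf.strictMono, fun i A B h => hf.adjacent i A B h.1 h.2⟩
  refine ⟨?_, fun x => ?_⟩
  · rw [h1, h2]
    -- two adjacent flags through the common ridge
    obtain ⟨A, hA, -⟩ := exists_flag_through hP (le_refl F)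
    rw [(coatom_iff hP).mp hF] at hA
    have hAn := hA ⟨n, by omega⟩ rfl
    have hB := flip_adj hU.1 (i := ⟨n + 1, by omega⟩) (φ.up A) (by simp) (by simp)
    set B := flip (φ.up A) ⟨n + 1, by omega⟩ with hBdef
    have hBtop : B ⟨n + 1, by omega⟩ = ψ.emb ⊤ := by
      apply Frame.facet_unique hP hU.1 φ hF _ ψ.coatom
      · have e1 : B ⟨n, by omega⟩ = φ.emb F := by
          rw [← hB.2 ⟨n, by omega⟩ (by
            intro he
            rw [Fin.ext_iff] at he
            simp only at he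
            omega), φ.up_apply _ _ (by show n < n + 2; omega)]
          rw [hAn]
        rw [← e1]
        apply B.monotone
        rw [Fin.le_def]
        show n ≤ n + 1
        omega
      · rw [← h.ridge]
        exact ψ.le_top' _
      · intro he
        apply hB.1
        rw [he, φ.up_facet hP _ _ rfl]
      · exact h.1
      · rw [coatom_iff hU.1, rk_flag]
    have := hpre.adjacent _ _ _ hB
    rw [hBtop, φ.up_facet hP _ _ rfl] at this
    exact this.symm
  · rw [h1, h2, h.2]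

end Adj

end Pool.Agent.H39.Poly
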