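import Mathlib
import Pool.Agent.H39.PolyAdj

set_option autoImplicit false
set_option linter.unusedSectionVars false

universe u v w

namespace Pool.Agent.H39.Poly

open Relation

/-- rule for gluing copies of `P` along facets -/
structure Gluing (P : Type u) [PartialOrder P] [BoundedOrder P] where
  plus : {F : P // IsCoatom F} → {F : P // IsCoatom F}
  γ : ∀ F : {F : P // IsCoatom F}, Set.Iic F.1 ≃o Set.Iic (plus F).1
  comp : ∀ (F F' : {F : P // IsCoatom F}) (h : P ≃o P) (hF : h F.1 = F'.1),
    ∃ k : P ≃o P, ∀ (x : P) (hx : x ≤ F.1),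
      k (γ F ⟨x, hx⟩) = γ F' ⟨h x, hF ▸ h.monotone hx⟩
  inv : ∀ F : {F : P // IsCoatom F}, ∃ k : P ≃o P, ∀ x : Set.Iic F.1,
    k x = γ (plus F) (γ F x)

namespace Gluing

variable {P : Type u} [PartialOrder P] [BoundedOrder P] (g : Gluing P)

/-- going down -/
def dn (G : {F : P // IsCoatom F}) (x : P) (h : x ≤ (g.plus G).1) : P := ((g.γ G).symm ⟨x, h⟩).1

lemma dn_le (G : {F : P // IsCoatom F}) (x : P) (h : x ≤ (g.plus G).1) : g.dn G x h ≤ G.1 :=
  ((g.γ G).symm ⟨x, h⟩).2

lemma dn_le_dn (G : {F : P // IsCoatom F}) {x y : P} (h : x ≤ (g.plus G).1)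
    (h' : y ≤ (g.plus G).1) : g.dn G x h ≤ g.dn G y h' ↔ x ≤ y := by
  show (g.γ G).symm ⟨x, h⟩ ≤ (g.γ G).symm ⟨y, h'⟩ ↔ x ≤ y
  rw [OrderIso.le_iff_le]
  exact Iff.rfl

lemma dn_γ (G : {F : P // IsCoatom F}) (x : Set.Iic G.1) :
    g.dn G (g.γ G x).1 (g.γ G x).2 = x.1 := by
  unfold dn
  simp

lemma dn_inj (G : {F : P // IsCoatom F}) {x y : P} (h : x ≤ (g.plus G).1)
    (h' : y ≤ (g.plus G).1) (he : g.dn G x h = g.dn G y h') : x = y :=
  le_antisymm ((g.dn_le_dn G h h').mp he.le) ((g.dn_le_dn G h' h).mp he.ge)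

lemma dn_bot (G : {F : P // IsCoatom F}) : g.dn G ⊥ bot_le = ⊥ := by
  apply le_antisymm _ bot_le
  have : g.dn G (g.γ G ⟨⊥, bot_le⟩).1 (g.γ G ⟨⊥, bot_le⟩).2 = ⊥ := g.dn_γ G ⟨⊥, bot_le⟩
  exact ((g.dn_le_dn G bot_le (g.γ G ⟨⊥, bot_le⟩).2).mpr bot_le).trans this.le

lemma dn_top (G : {F : P // IsCoatom F}) : g.dn G (g.plus G).1 le_rfl = G.1 := by
  apply le_antisymm (g.dn_le _ _ _)
  have : g.dn G (g.γ G ⟨G.1, le_rfl⟩).1 (g.γ G ⟨G.1, le_rfl⟩).2 = G.1 := g.dn_γ G ⟨G.1, le_rfl⟩
  exact this.ge.trans ((g.dn_le_dn G (g.γ G ⟨G.1, le_rfl⟩).2 le_rfl).mpr (g.γ G ⟨G.1, le_rfl⟩).2)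

open Classical in
/-- the canonical form of the face `x` of the copy `l` -/
noncomputable def can : List {F : P // IsCoatom F} → P → List {F : P // IsCoatom F} × P
  | [], x => ([], x)
  | G :: l, x => if h : x ≤ (g.plus G).1 then can l (g.dn G x h) else (G :: l, x)

/-- may the facet `G` of the copy `l` be used to attach a new copy? -/
def Free (G : {F : P // IsCoatom F}) : List {F : P // IsCoatom F} → Prop
  | [] => True
  | G' :: _ => G ≠ g.plus G'

/-- reduced words -/
def Red : List {F : P // IsCoatom F} → Prop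
  | [] => True
  | G :: l => g.Free G l ∧ Red l

/-- is `(l, x)` canonical? -/
def IsCan : List {F : P // IsCoatom F} → P → Prop
  | [], _ => True
  | G :: _, x => ¬ x ≤ (g.plus G).1

@[simp] lemma can_nil (x : P) : g.can [] x = ([], x) := rfl

lemma can_cons_pos {G : {F : P // IsCoatom F}} {l : List {F : P // IsCoatom F}} {x : P}
    (h : x ≤ (g.plus G).1) : g.can (G :: l) x = g.can l (g.dn G x h) := by
  rw [can, dif_pos h]

lemma can_cons_neg {G : {F : P // IsCoatom F}} {l : List {F : P // IsCoatom F}} {x : P}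
    (h : ¬ x ≤ (g.plus G).1) : g.can (G :: l) x = (G :: l, x) := by
  rw [can, dif_neg h]

lemma can_of_isCan {l : List {F : P // IsCoatom F}} {x : P} (h : g.IsCan l x) :
    g.can l x = (l, x) := by
  cases l with
  | nil => rfl
  | cons G l => exact g.can_cons_neg h

lemma can_spec (l : List {F : P // IsCoatom F}) (x : P) (hl : g.Red l) :
    g.Red (g.can l x).1 ∧ g.IsCan (g.can l x).1 (g.can l x).2 := by
  induction l generalizing x with
  | nil => exact ⟨trivial, trivial⟩
  | cons G l ih =>
    by_cases h : x ≤ (g.plus G).1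
    · rw [g.can_cons_pos h]
      exact ih _ hl.2
    · rw [g.can_cons_neg h]
      exact ⟨hl, h⟩

lemma can_length (l : List {F : P // IsCoatom F}) (x : P) :
    (g.can l x).1.length ≤ l.length := by
  induction l generalizing x with
  | nil => exact le_rfl
  | cons G l ih =>
    by_cases h : x ≤ (g.plus G).1
    · rw [g.can_cons_pos h, List.length_cons]
      exact (ih _).trans (Nat.le_succ _)
    · rw [g.can_cons_neg h]

lemma can_injective (l : List {F : P // IsCoatom F}) : Function.Injective (g.can l) := by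
  induction l with
  | nil =>
    intro x y h
    rw [can_nil, can_nil] at h
    exact (Prod.mk.inj h).2
  | cons G l ih =>
    intro x y h
    by_cases hx : x ≤ (g.plus G).1
    · by_cases hy : y ≤ (g.plus G).1
      · rw [g.can_cons_pos hx, g.can_cons_pos hy] at h
        exact g.dn_inj G hx hy (ih h)
      · rw [g.can_cons_pos hx, g.can_cons_neg hy] at h
        have := g.can_length l (g.dn G x hx)
        rw [h] at this
        simp at this
    · by_cases hy : y ≤ (g.plus G).1
      · rw [g.can_cons_neg hx, g.can_cons_pos hy] at h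
        have := g.can_length l (g.dn G y hy)
        rw [← h] at this
        simp at this
      · rw [g.can_cons_neg hx, g.can_cons_neg hy] at h
        exact (Prod.mk.inj h).2

/-- incidence of canonical faces -/
def Below' (p q : List {F : P // IsCoatom F} × P) : Prop := ∃ y, y ≤ q.2 ∧ g.can q.1 y = p

lemma below_can_iff (l : List {F : P // IsCoatom F}) (x y : P) :
    g.Below' (g.can l x) (g.can l y) ↔ x ≤ y := by
  induction l generalizing x y with
  | nil =>
    constructor
    · rintro ⟨z, hz, he⟩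
      rw [can_nil, can_nil] at he
      rw [can_nil] at hz
      rw [← (Prod.mk.inj he).2]
      exact hz
    · intro h
      exact ⟨x, h, rfl⟩
  | cons G l ih =>
    by_cases hy : y ≤ (g.plus G).1
    · rw [g.can_cons_pos hy]
      constructor
      · rintro ⟨z, hz, he⟩
        by_cases hx : x ≤ (g.plus G).1
        · rw [g.can_cons_pos hx] at he
          rw [← g.dn_le_dn G hx hy, ← ih]
          exact ⟨z, hz, he⟩
        · exfalso
          rw [g.can_cons_neg hx] at he
          have h1 := g.can_length (g.can l (g.dn G y hy)).1 z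
          have h2 := g.can_length l (g.dn G y hy)
          rw [he] at h1
          simp only [List.length_cons] at h1
          omega
      · intro h
        have hx := h.trans hy
        rw [g.can_cons_pos hx, ih, g.dn_le_dn]
        exact h
    · rw [g.can_cons_neg hy]
      constructor
      · rintro ⟨z, hz, he⟩
        have := g.can_injective (G :: l) he
        rw [← this]
        exact hz
      · intro h
        exact ⟨x, h, rfl⟩

lemma below_can (l : List {F : P // IsCoatom F}) (x : P)
    (p : List {F : P // IsCoatom F} × P) (h : g.Below' p (g.can l x)) :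
    ∃ y, y ≤ x ∧ g.can l y = p := by
  induction l generalizing x with
  | nil => exact h
  | cons G l ih =>
    by_cases hx : x ≤ (g.plus G).1
    · rw [g.can_cons_pos hx] at h
      obtain ⟨y, hy, he⟩ := ih _ h
      have hyG : y ≤ G.1 := hy.trans (g.dn_le _ _ _)
      have e1 := g.dn_γ G ⟨y, hyG⟩
      refine ⟨(g.γ G ⟨y, hyG⟩).1, ?_, ?_⟩
      · rw [← g.dn_le_dn G (g.γ G ⟨y, hyG⟩).2 hx, e1]
        exact hy
      · rw [g.can_cons_pos (g.γ G ⟨y, hyG⟩).2, e1]
        exact he
    · rw [g.can_cons_neg hx] at h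
      exact h

/-- the proper faces of the glued polytope -/
def Face : Type u :=
  {p : List {F : P // IsCoatom F} × P // g.Red p.1 ∧ g.IsCan p.1 p.2}

/-- the face `x` of the copy `l` -/
noncomputable def face (l : List {F : P // IsCoatom F}) (hl : g.Red l) (x : P) : g.Face :=
  ⟨g.can l x, g.can_spec l x hl⟩

lemma face_self (f : g.Face) : g.face f.1.1 f.2.1 f.1.2 = f :=
  Subtype.ext (g.can_of_isCan f.2.2)

noncomputable instance : PartialOrder g.Face where
  le f h := g.Below' f.1 h.1
  le_refl f := ⟨f.1.2, le_rfl, g.can_of_isCan f.2.2⟩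
  le_trans a b c hab hbc := by
    obtain ⟨y, hy, he⟩ := hbc
    have : g.Below' a.1 (g.can c.1.1 y) := by rw [he]; exact hab
    obtain ⟨z, hz, he'⟩ := g.below_can _ _ _ this
    exact ⟨z, hz.trans hy, he'⟩
  le_antisymm a b hab hba := by
    obtain ⟨y, hy, he⟩ := hba
    have ha : g.can a.1.1 a.1.2 = a.1 := g.can_of_isCan a.2.2
    have : g.Below' (g.can a.1.1 a.1.2) (g.can a.1.1 y) := by rw [he, ha]; exact hab
    rw [below_can_iff] at this
    have hay : a.1.2 = y := le_antisymm this hy
    apply Subtype.ext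
    rw [← he, ← hay, ha]

lemma face_le_face {l : List {F : P // IsCoatom F}} (hl : g.Red l) {x y : P} :
    g.face l hl x ≤ g.face l hl y ↔ x ≤ y := g.below_can_iff l x y

lemma le_face {l : List {F : P // IsCoatom F}} (hl : g.Red l) {x : P} {f : g.Face}
    (h : f ≤ g.face l hl x) : ∃ y, y ≤ x ∧ g.face l hl y = f := by
  obtain ⟨y, hy, he⟩ := g.below_can l x f.1 h
  exact ⟨y, hy, Subtype.ext he⟩

lemma face_injective {l : List {F : P // IsCoatom F}} (hl : g.Red l) {x y : P}
    (h : g.face l hl x = g.face l hl y) : x = y :=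
  g.can_injective l (congrArg Subtype.val h)

lemma can_bot (l : List {F : P // IsCoatom F}) : g.can l ⊥ = ([], ⊥) := by
  induction l with
  | nil => rfl
  | cons G l ih => rw [g.can_cons_pos bot_le, dn_bot, ih]

noncomputable instance : OrderBot g.Face where
  bot := ⟨([], ⊥), trivial, trivial⟩
  bot_le _ := ⟨⊥, bot_le, g.can_bot _⟩

/-- the glued polytope -/
abbrev Univ : Type u := WithTop g.Face

lemma isCan_top (l : List {F : P // IsCoatom F}) : g.IsCan l ⊤ := by
  cases l with
  | nil => trivial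
  | cons G l =>
    intro h
    exact (g.plus G).2.1 (top_le_iff.mp h)

lemma can_top (l : List {F : P // IsCoatom F}) : g.can l ⊤ = (l, ⊤) :=
  g.can_of_isCan (g.isCan_top l)

/-- passing to a neighbouring copy -/
lemma face_cons {G : {F : P // IsCoatom F}} {l : List {F : P // IsCoatom F}}
    (hl : g.Red (G :: l)) (x : Set.Iic G.1) :
    g.face (G :: l) hl (g.γ G x) = g.face l hl.2 x := by
  apply Subtype.ext
  show g.can (G :: l) (g.γ G x).1 = g.can l x.1
  rw [g.can_cons_pos (g.γ G x).2, g.dn_γ]

lemma face_dn {G : {F : P // IsCoatom F}} {l : List {F : P // IsCoatom F}}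
    (hl : g.Red (G :: l)) (x : P) (hx : x ≤ (g.plus G).1) :
    g.face (G :: l) hl x = g.face l hl.2 (g.dn G x hx) := by
  apply Subtype.ext
  exact g.can_cons_pos hx

end Gluing

section Rank

variable {P : Type u} [PartialOrder P] [BoundedOrder P] {n : ℕ}

lemma exists_lower_cov (hP : IsPolytope n P) {x : P} (hx : x ≠ ⊥) : ∃ y, y ⋖ x := by
  obtain ⟨c, c1, c2, c3, c4⟩ := exists_chain hP (bot_le : (⊥ : P) ≤ x)
  rw [rk_bot] at c1 c3 c4
  have h0 : rk hP x ≠ 0 := fun h => hx (eq_bot_of_rk hP h)
  have h1 := c3 (rk hP x - 1) (by omega) (by omega)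
  have h2 := c4 (rk hP x - 1) (rk hP x) (by omega) (by omega) le_rfl
  rw [c2] at h2
  refine ⟨c (rk hP x - 1), cov_of_rk hP (lt_of_le_of_ne h2 ?_) (by omega)⟩
  intro h
  rw [h] at h1
  omega

/-- isomorphisms between lower intervals preserve rank -/
lemma rk_iso (hP : IsPolytope n P) {F G : P} (γ : Set.Iic F ≃o Set.Iic G) (x : Set.Iic F) :
    rk hP (γ x).1 = rk hP x.1 := by
  obtain ⟨r, hr⟩ : ∃ r, rk hP x.1 = r := ⟨_, rfl⟩
  induction r generalizing x with
  | zero =>
    have hx : x = ⊥ := Subtype.ext (eq_bot_of_rk hP hr)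
    rw [hx, map_bot]
    rfl
  | succ r ih =>
    have hx : x.1 ≠ ⊥ := by
      intro h
      rw [h, rk_bot] at hr
      omega
    obtain ⟨y, hy⟩ := exists_lower_cov hP hx
    have hyF : y ≤ F := hy.1.le.trans x.2
    have h1 := rk_cov hP hy
    have h2 := ih ⟨y, hyF⟩ (by show rk hP y = r; omega)
    have hcov : (γ ⟨y, hyF⟩).1 ⋖ (γ x).1 := by
      constructor
      · have : γ ⟨y, hyF⟩ < γ x := by
          rw [OrderIso.lt_iff_lt]
          exact hy.1
        exact this
      · intro z hz1 hz2
        have hzG : z ≤ G := hz2.le.trans (γ x).2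
        have hz1' : γ ⟨y, hyF⟩ < ⟨z, hzG⟩ := hz1
        have hz2' : (⟨z, hzG⟩ : Set.Iic G) < γ x := hz2
        rw [← OrderIso.lt_symm_apply] at hz1'
        rw [← OrderIso.symm_apply_lt] at hz2'
        exact hy.2 hz1' hz2'
    rw [rk_cov hP hcov, h2, h1]

lemma strictMono_fin_eq {m : ℕ} (f : Fin (m + 1) → ℕ) (hf : StrictMono f)
    (hb : ∀ i, f i ≤ m) (i : Fin (m + 1)) : f i = i.val := by
  have h1 : ∀ k : ℕ, ∀ i : Fin (m + 1), i.val = k → k ≤ f i := by
    intro k
    induction k with
    | zero => intro i _; omega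
    | succ k ih =>
      intro i hi
      have hk : k < m + 1 := by omega
      have := ih ⟨k, hk⟩ rfl
      have hlt : (⟨k, hk⟩ : Fin (m + 1)) < i := by
        rw [Fin.lt_def]; simp only; omega
      have := hf hlt
      omega
  have h2 : ∀ k : ℕ, ∀ i : Fin (m + 1), i.val + k = m → f i + k ≤ m := by
    intro k
    induction k with
    | zero => intro i _; simpa using hb _
    | succ k ih =>
      intro i hi
      have hk : i.val + 1 < m + 1 := by omega
      have := ih ⟨i.val + 1, hk⟩ (by simp only; omega)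
      have hlt : i < (⟨i.val + 1, hk⟩ : Fin (m + 1)) := by
        rw [Fin.lt_def]; simp only; omega
      have := hf hlt
      omega
  have a := h1 i.val i rfl
  have b := h2 (m - i.val) i (by omega)
  omega

end Rank

namespace Gluing

variable {P : Type u} [PartialOrder P] [BoundedOrder P] {n : ℕ} (g : Gluing P)

lemma rk_dn (hP : IsPolytope n P) (G : {F : P // IsCoatom F}) (x : P)
    (h : x ≤ (g.plus G).1) : rk hP (g.dn G x h) = rk hP x :=
  rk_iso hP (g.γ G).symm ⟨x, h⟩

lemma rk_can (hP : IsPolytope n P) (l : List {F : P // IsCoatom F}) (x : P) :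
    rk hP (g.can l x).2 = rk hP x := by
  induction l generalizing x with
  | nil => rfl
  | cons G l ih =>
    by_cases hx : x ≤ (g.plus G).1
    · rw [g.can_cons_pos hx, ih, rk_dn]
    · rw [g.can_cons_neg hx]

/-- the rank of a face -/
noncomputable def rkF (hP : IsPolytope n P) (f : g.Face) : ℕ := rk hP f.1.2

lemma rkF_face (hP : IsPolytope n P) {l : List {F : P // IsCoatom F}} (hl : g.Red l) (x : P) :
    g.rkF hP (g.face l hl x) = rk hP x := g.rk_can hP l x

/-- the rank function of the glued polytope -/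
noncomputable def rkU (hP : IsPolytope n P) : g.Univ → ℕ
  | ⊤ => n + 2
  | (f : g.Face) => g.rkF hP f

lemma rkF_lt (hP : IsPolytope n P) {a b : g.Face} (h : a < b) : g.rkF hP a < g.rkF hP b := by
  have hb := g.face_self b
  have hle : a ≤ g.face b.1.1 b.2.1 b.1.2 := by rw [hb]; exact h.le
  obtain ⟨y, hy, he⟩ := g.le_face b.2.1 hle
  rw [← he, ← hb, rkF_face, rkF_face]
  apply rk_lt
  refine lt_of_le_of_ne hy ?_
  intro hyb
  rw [hyb, hb] at he
  exact h.ne he.symm

lemma rkF_le (hP : IsPolytope n P) (a : g.Face) : g.rkF hP a ≤ n + 1 := rk_le_top hP _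

lemma rkU_lt (hP : IsPolytope n P) {a b : g.Univ} (h : a < b) : g.rkU hP a < g.rkU hP b := by
  induction a using WithTop.recTopCoe with
  | top => exact absurd h not_top_lt
  | coe a =>
    induction b using WithTop.recTopCoe with
    | top => exact lt_of_le_of_lt (g.rkF_le hP a) (Nat.lt_succ_self _)
    | coe b => exact g.rkF_lt hP (WithTop.coe_lt_coe.mp h)

lemma rkF_cov (hP : IsPolytope n P) {a b : g.Face} (h : a ⋖ b) :
    g.rkF hP b = g.rkF hP a + 1 := by
  have hb := g.face_self b
  have hle : a ≤ g.face b.1.1 b.2.1 b.1.2 := by rw [hb]; exact h.1.le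
  obtain ⟨y, hy, he⟩ := g.le_face b.2.1 hle
  have hcov : y ⋖ b.1.2 := by
    constructor
    · refine lt_of_le_of_ne hy ?_
      intro hyb
      rw [hyb, hb] at he
      exact h.1.ne he.symm
    · intro z hz1 hz2
      apply h.2 (c := g.face b.1.1 b.2.1 z)
      · rw [← he, lt_iff_le_not_ge, face_le_face, face_le_face, ← lt_iff_le_not_ge]
        exact hz1
      · conv_rhs => rw [← hb]
        rw [lt_iff_le_not_ge, face_le_face, face_le_face, ← lt_iff_le_not_ge]
        exact hz2
  rw [← he, ← hb, rkF_face, rkF_face]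
  exact rk_cov hP hcov

lemma eq_top_of_isMax {f : g.Face} (h : IsMax f) : f.1.2 = ⊤ := by
  have h1 : f ≤ g.face f.1.1 f.2.1 ⊤ := by
    conv_lhs => rw [← g.face_self f]
    rw [face_le_face]
    exact le_top
  have h2 := h h1
  conv_rhs at h2 => rw [← g.face_self f]
  rw [face_le_face] at h2
  exact top_le_iff.mp h2

lemma isMax_of_rkF (hP : IsPolytope n P) {f : g.Face} (h : g.rkF hP f = n + 1) : IsMax f := by
  intro b hb
  by_contra hcon
  have := g.rkF_lt hP (lt_of_le_not_ge hb hcon)
  have := g.rkF_le hP b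
  omega

lemma eq_face_top (hP : IsPolytope n P) {f : g.Face} (h : g.rkF hP f = n + 1) :
    f = g.face f.1.1 f.2.1 ⊤ := by
  have := g.eq_top_of_isMax (g.isMax_of_rkF hP h)
  exact (g.face_self f).symm.trans (congrArg (g.face f.1.1 f.2.1) this)

lemma coatom_face_top (hP : IsPolytope n P) {l : List {F : P // IsCoatom F}} (hl : g.Red l) :
    IsCoatom ((g.face l hl ⊤ : g.Face) : g.Univ) := by
  rw [← covBy_top_iff, WithTop.coe_covBy_top]
  apply g.isMax_of_rkF hP
  rw [rkF_face, rk_top]

/-- the copy `l` as a frame -/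
noncomputable def fr (hP : IsPolytope n P) (l : List {F : P // IsCoatom F}) (hl : g.Red l) :
    Frame P g.Univ where
  emb := OrderEmbedding.ofMapLEIff (fun x => ((g.face l hl x : g.Face) : g.Univ)) (by
    intro x y
    rw [WithTop.coe_le_coe, face_le_face])
  coatom := g.coatom_face_top hP hl
  lower := by
    intro y hy
    have hy' : y ≤ ((g.face l hl ⊤ : g.Face) : g.Univ) := hy
    induction y using WithTop.recTopCoe with
    | top =>
      exfalso
      exact (g.coatom_face_top hP hl).1 (top_le_iff.mp hy')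
    | coe y =>
      rw [WithTop.coe_le_coe] at hy'
      obtain ⟨x, -, hx⟩ := g.le_face hl hy'
      exact ⟨x, congrArg _ hx⟩

@[simp] lemma fr_apply (hP : IsPolytope n P) (l : List {F : P // IsCoatom F}) (hl : g.Red l)
    (x : P) : (g.fr hP l hl).emb x = ((g.face l hl x : g.Face) : g.Univ) := rfl

lemma ranked (hP : IsPolytope n P) : ∃ rk : g.Univ → ℕ, rk ⊥ = 0 ∧ rk ⊤ = n + 1 + 1 ∧
    (∀ x y, x < y → rk x < rk y) ∧ ∀ x y, x ⋖ y → rk y = rk x + 1 := by
  refine ⟨g.rkU hP, ?_, rfl, fun x y h => g.rkU_lt hP h, ?_⟩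
  · exact rk_bot hP
  · intro x y h
    induction x using WithTop.recTopCoe with
    | top => exact absurd h.1 not_top_lt
    | coe x =>
      induction y using WithTop.recTopCoe with
      | top =>
        rw [WithTop.coe_covBy_top] at h
        show n + 2 = rk hP x.1.2 + 1
        rw [g.eq_top_of_isMax h, rk_top]
      | coe y => exact g.rkF_cov hP (WithTop.coe_covBy_coe.mp h)

/-- the copies containing a given ridge -/
lemma nodes_above (hP : IsPolytope n P) {l₀ l : List {F : P // IsCoatom F}}
    {F₀ : {F : P // IsCoatom F}} (hl : g.Red l) {y : P} (h : g.can l y = (l₀, F₀.1)) :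
    l = l₀ ∨ l = F₀ :: l₀ := by
  cases l with
  | nil =>
    left
    rw [can_nil] at h
    exact (Prod.mk.inj h).1
  | cons G l =>
    by_cases hy : y ≤ (g.plus G).1
    · right
      have hr := g.rk_can hP (G :: l) y
      rw [h, (coatom_iff hP).mp F₀.2] at hr
      have hyG : y = (g.plus G).1 := by
        apply eq_of_le_of_rk hP hy
        have := (coatom_iff hP).mp (g.plus G).2
        omega
      subst hyG
      rw [g.can_cons_pos hy, g.dn_top] at h
      have hcan : g.IsCan l G.1 := by
        cases l with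
        | nil => trivial
        | cons G' l =>
          intro hle
          apply hl.1
          apply Subtype.ext
          apply eq_of_le_of_rk hP hle
          rw [(coatom_iff hP).mp (g.plus G').2, (coatom_iff hP).mp G.2]
      rw [g.can_of_isCan hcan] at h
      have h1 := (Prod.mk.inj h).1
      have h2 := Subtype.ext (Prod.mk.inj h).2
      rw [h1, h2]
    · left
      rw [g.can_cons_neg hy] at h
      exact (Prod.mk.inj h).1

lemma red_cons_of_isCan {l : List {F : P // IsCoatom F}} {F : {F : P // IsCoatom F}}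
    (hl : g.Red l) (h : g.IsCan l F.1) : g.Red (F :: l) := by
  refine ⟨?_, hl⟩
  cases l with
  | nil => trivial
  | cons G l =>
    intro he
    apply h
    rw [he]

lemma diamond (hP : IsPolytope n P) (x y z : g.Univ) (hxy : x ⋖ y) (hyz : y ⋖ z) :
    ∃! w, w ≠ y ∧ x < w ∧ w < z := by
  induction x using WithTop.recTopCoe with
  | top => exact absurd hxy.1 not_top_lt
  | coe x =>
  induction y using WithTop.recTopCoe with
  | top => exact absurd hyz.1 not_top_lt
  | coe y =>
  rw [WithTop.coe_covBy_coe] at hxy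
  induction z using WithTop.recTopCoe with
  | top =>
    rw [WithTop.coe_covBy_top] at hyz
    have hyt := g.eq_top_of_isMax hyz
    have hry : g.rkF hP y = n + 1 := by
      show rk hP y.1.2 = n + 1
      rw [hyt, rk_top]
    have hrx : g.rkF hP x = n := by
      have := g.rkF_cov hP hxy
      omega
    have hxc : IsCoatom x.1.2 := (coatom_iff hP).mpr hrx
    set F₀ : {F : P // IsCoatom F} := ⟨x.1.2, hxc⟩ with hF₀
    have hred : g.Red (F₀ :: x.1.1) := g.red_cons_of_isCan x.2.1 x.2.2
    -- the two copies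
    have hnode : ∀ w : g.Face, x < w → w = g.face x.1.1 x.2.1 ⊤ ∨ w = g.face (F₀ :: x.1.1) hred ⊤ := by
      intro w hw
      have h1 := g.rkF_lt hP hw
      have h2 := g.rkF_le hP w
      have hw1 : g.rkF hP w = n + 1 := by omega
      have hwt := g.eq_face_top hP hw1
      have hle : x ≤ g.face w.1.1 w.2.1 ⊤ := by rw [← hwt]; exact hw.le
      obtain ⟨v, -, hv⟩ := g.le_face w.2.1 hle
      have hv' : g.can w.1.1 v = (x.1.1, F₀.1) := congrArg Subtype.val hv
      rcases g.nodes_above hP w.2.1 hv' with h | h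
      · left
        rw [hwt]
        apply Subtype.ext
        show g.can w.1.1 ⊤ = g.can x.1.1 ⊤
        rw [h]
      · right
        rw [hwt]
        apply Subtype.ext
        show g.can w.1.1 ⊤ = g.can (F₀ :: x.1.1) ⊤
        rw [h]
    have hne : g.face x.1.1 x.2.1 ⊤ ≠ g.face (F₀ :: x.1.1) hred ⊤ := by
      intro he
      have : g.can x.1.1 ⊤ = g.can (F₀ :: x.1.1) ⊤ := congrArg Subtype.val he
      rw [can_top, can_top] at this
      have := congrArg List.length (Prod.mk.inj this).1
      simp at this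
    have hlt1 : x < g.face x.1.1 x.2.1 ⊤ := by
      conv_lhs => rw [← g.face_self x]
      rw [lt_iff_le_not_ge, face_le_face, face_le_face, ← lt_iff_le_not_ge]
      exact hxc.lt_top
    have hlt2 : x < g.face (F₀ :: x.1.1) hred ⊤ := by
      have e : g.face (F₀ :: x.1.1) hred (g.γ F₀ ⟨F₀.1, le_rfl⟩) = x := by
        rw [face_cons]
        exact g.face_self x
      conv_lhs => rw [← e]
      rw [lt_iff_le_not_ge, face_le_face, face_le_face, ← lt_iff_le_not_ge]
      have h1 : ((g.γ F₀ ⟨F₀.1, le_rfl⟩ : Set.Iic (g.plus F₀).1) : P) ≤ (g.plus F₀).1 :=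
        (g.γ F₀ ⟨F₀.1, le_rfl⟩).2
      exact h1.trans_lt (g.plus F₀).2.lt_top
    rcases hnode y hxy.1 with h | h
    · refine ⟨((g.face (F₀ :: x.1.1) hred ⊤ : g.Face) : g.Univ), ⟨?_, ?_, ?_⟩, ?_⟩
      · rw [h]
        intro he
        exact hne (WithTop.coe_injective he).symm
      · exact WithTop.coe_lt_coe.mpr hlt2
      · exact WithTop.coe_lt_top _
      · rintro w ⟨hw1, hw2, hw3⟩
        induction w using WithTop.recTopCoe with
        | top => exact absurd hw3 (lt_irrefl _)
        | coe w =>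
          rcases hnode w (WithTop.coe_lt_coe.mp hw2) with h' | h'
          · exfalso
            apply hw1
            rw [h', h]
          · rw [h']
    · refine ⟨((g.face x.1.1 x.2.1 ⊤ : g.Face) : g.Univ), ⟨?_, ?_, ?_⟩, ?_⟩
      · rw [h]
        intro he
        exact hne (WithTop.coe_injective he)
      · exact WithTop.coe_lt_coe.mpr hlt1
      · exact WithTop.coe_lt_top _
      · rintro w ⟨hw1, hw2, hw3⟩
        induction w using WithTop.recTopCoe with
        | top => exact absurd hw3 (lt_irrefl _)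
        | coe w =>
          rcases hnode w (WithTop.coe_lt_coe.mp hw2) with h' | h'
          · rw [h']
          · exfalso
            apply hw1
            rw [h', h]
  | coe z =>
    rw [WithTop.coe_covBy_coe] at hyz
    set φ := g.fr hP z.1.1 z.2.1 with hφ
    have hz : φ.emb z.1.2 = (z : g.Univ) := by
      rw [hφ, fr_apply, face_self]
    have hzt : (z : g.Univ) ≤ φ.emb ⊤ := by rw [← hz]; exact φ.le_top' _
    obtain ⟨b, hb⟩ := φ.lower (y : g.Univ) ((WithTop.coe_le_coe.mpr hyz.1.le).trans hzt)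
    obtain ⟨a, ha⟩ := φ.lower (x : g.Univ)
      ((WithTop.coe_le_coe.mpr (hxy.1.le.trans hyz.1.le)).trans hzt)
    have key : ∀ {s t : P} {s' t' : g.Face}, φ.emb s = (s' : g.Univ) → φ.emb t = (t' : g.Univ) →
        s' ⋖ t' → s ⋖ t := by
      intro s t s' t' hs ht hst
      constructor
      · rw [← φ.emb.lt_iff_lt, hs, ht]
        exact WithTop.coe_lt_coe.mpr hst.1
      · intro c hc1 hc2
        rw [← φ.emb.lt_iff_lt] at hc1 hc2
        rw [hs] at hc1
        rw [ht] at hc2
        have := WithTop.coe_covBy_coe.mpr hst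
        exact this.2 hc1 hc2
    obtain ⟨w, ⟨hw1, hw2, hw3⟩, hw⟩ := hP.diamond a b z.1.2 (key ha hb hxy) (key hb hz hyz)
    refine ⟨φ.emb w, ⟨?_, ?_, ?_⟩, ?_⟩
    · rw [← hb]
      intro he
      exact hw1 (φ.emb.injective he)
    · rw [← ha]
      exact φ.emb.strictMono hw2
    · rw [← hz]
      exact φ.emb.strictMono hw3
    · rintro v ⟨hv1, hv2, hv3⟩
      obtain ⟨c, hc⟩ := φ.lower v (hv3.le.trans hzt)
      rw [← hc]
      congr 1
      apply hw
      refine ⟨?_, ?_, ?_⟩
      · rintro rfl
        exact hv1 (hc.symm.trans hb)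
      · rw [← φ.emb.lt_iff_lt, ha, hc]
        exact hv2
      · rw [← φ.emb.lt_iff_lt, hz, hc]
        exact hv3

end Gluing

end Pool.Agent.H39.Poly
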