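import Mathlib
import Pool.Agent.H39.PolyGlue

set_option autoImplicit false
set_option linter.unusedSectionVars false

universe u v w

namespace Pool.Agent.H39.Poly

open Relation

/-- elementary move keeping the faces with index in `J` -/
def Step {Q : Type v} [PartialOrder Q] {m : ℕ} (J : Set (Fin (m + 2)))
    (A B : Fin (m + 2) ↪o Q) : Prop :=
  (∃ i, ∀ j, j ≠ i → A j = B j) ∧ ∀ j ∈ J, A j = B j

section Step

variable {Q : Type v} [PartialOrder Q] {m : ℕ}

lemma Step.symm {J : Set (Fin (m + 2))} {A B : Fin (m + 2) ↪o Q} (h : Step J A B) :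
    Step J B A := by
  obtain ⟨⟨i, hi⟩, h2⟩ := h
  exact ⟨⟨i, fun j hj => (hi j hj).symm⟩, fun j hj => (h2 j hj).symm⟩

lemma path_symm {J : Set (Fin (m + 2))} {A B : Fin (m + 2) ↪o Q}
    (h : ReflTransGen (Step J) A B) : ReflTransGen (Step J) B A := by
  induction h with
  | refl => exact ReflTransGen.refl
  | tail _ h ih => exact ReflTransGen.head h.symm ih

lemma path_mono {J J' : Set (Fin (m + 2))} (hJ : J ⊆ J') {A B : Fin (m + 2) ↪o Q}
    (h : ReflTransGen (Step J') A B) : ReflTransGen (Step J) A B := by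
  induction h with
  | refl => exact ReflTransGen.refl
  | tail _ h ih => exact ReflTransGen.tail ih ⟨h.1, fun j hj => h.2 j (hJ hj)⟩

lemma path_eq {J : Set (Fin (m + 2))} {A B : Fin (m + 2) ↪o Q}
    (h : ReflTransGen (Step J) A B) : ∀ j ∈ J, A j = B j := by
  induction h with
  | refl => exact fun _ _ => rfl
  | tail _ h ih => exact fun j hj => (ih j hj).trans (h.2 j hj)

lemma path_conv {Φ Ψ : Fin (m + 2) ↪o Q} (h : ReflTransGen (Step {j | Φ j = Ψ j}) Φ Ψ) :
    Relation.ReflTransGen (fun A B : Fin (m + 2) ↪o Q =>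
      (∃ i, ∀ j, j ≠ i → A j = B j) ∧ ∀ j, Φ j = Ψ j → A j = Φ j ∧ B j = Φ j) Φ Ψ := by
  have key : ∀ X, ReflTransGen (Step {j | Φ j = Ψ j}) Φ X →
      Relation.ReflTransGen (fun A B : Fin (m + 2) ↪o Q =>
        (∃ i, ∀ j, j ≠ i → A j = B j) ∧ ∀ j, Φ j = Ψ j → A j = Φ j ∧ B j = Φ j) Φ X := by
    intro X hX
    induction hX with
    | refl => exact ReflTransGen.refl
    | tail hpre h ih =>
      refine ReflTransGen.tail ih ⟨h.1, fun j hj => ?_⟩
      have e1 := path_eq hpre j hj
      have e2 := h.2 j hj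
      exact ⟨e1.symm, by rw [← e2, ← e1]⟩
  exact key Ψ h

end Step

namespace Frame

variable {P : Type u} [PartialOrder P] [BoundedOrder P]
  {R : Type v} [PartialOrder R] [BoundedOrder R] {n : ℕ}

lemma exists_down' (φ : Frame P R) (B : Fin (n + 1 + 2) ↪o R)
    (h : B ⟨n + 1, by omega⟩ = φ.emb ⊤) (h' : B ⟨n + 2, by omega⟩ = ⊤) :
    ∃ A : Fin (n + 2) ↪o P, φ.up A = B := by
  have h1 : ∀ i : Fin (n + 2), B ⟨i.val, by omega⟩ ≤ φ.emb ⊤ := by
    intro i
    rw [← h]
    apply B.monotone
    rw [Fin.le_def]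
    show i.val ≤ n + 1
    omega
  refine ⟨OrderEmbedding.ofStrictMono (fun i => φ.inv (B ⟨i.val, by omega⟩) (h1 i)) ?_, ?_⟩
  · intro i j hij
    rw [← φ.emb.lt_iff_lt, φ.emb_inv, φ.emb_inv]
    apply B.strictMono
    exact hij
  · apply flag_ext
    intro i
    by_cases hi : i.val < n + 2
    · rw [up_apply _ _ _ hi]
      show φ.emb (φ.inv (B ⟨i.val, by omega⟩) (h1 ⟨i.val, hi⟩)) = B i
      rw [φ.emb_inv]
    · rw [up_last _ _ _ hi]
      have : i = ⟨n + 2, by omega⟩ := by
        rw [Fin.ext_iff]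
        show i.val = n + 2
        omega
      rw [this, h']

lemma nonempty_iso (φ : Frame P R) : Nonempty (Set.Iic (φ.emb ⊤) ≃o P) :=
  ⟨{ toFun := fun y => φ.inv y.1 y.2
     invFun := fun x => ⟨φ.emb x, φ.le_top' x⟩
     left_inv := fun y => Subtype.ext (φ.emb_inv _ _)
     right_inv := fun x => φ.inv_emb x
     map_rel_iff' := by
      intro a b
      have ea := φ.emb_inv a.1 a.2
      have eb := φ.emb_inv b.1 b.2
      have e : φ.emb (φ.inv a.1 a.2) ≤ φ.emb (φ.inv b.1 b.2) ↔ a.1 ≤ b.1 := by rw [ea, eb]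
      exact (φ.emb.le_iff_le.symm.trans e) }⟩

/-- moving inside one facet -/
lemma path_up (hP : IsPolytope n P) (φ : Frame P R) (J' : Set (Fin (n + 2)))
    (J : Set (Fin (n + 1 + 2))) (hJ : ∀ j ∈ J, ∀ h : j.val < n + 2, (⟨j.val, h⟩ : Fin (n + 2)) ∈ J')
    (A B : Fin (n + 2) ↪o P) (hAB : ∀ j ∈ J', A j = B j) :
    ReflTransGen (Step J) (φ.up A) (φ.up B) := by
  have := connected_flips hP J' A B hAB
  clear hAB
  induction this with
  | refl => exact ReflTransGen.refl
  | tail _ h ih =>
    obtain ⟨i, hi, rfl⟩ := h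
    refine ReflTransGen.tail ih ⟨⟨⟨i.val, by omega⟩, fun j hj => ?_⟩, fun j hj => ?_⟩
    · by_cases hj2 : j.val < n + 2
      · rw [up_apply _ _ _ hj2, up_apply _ _ _ hj2, flip_apply_ne]
        intro he
        apply hj
        rw [Fin.ext_iff] at he ⊢
        exact he
      · rw [up_last _ _ _ hj2, up_last _ _ _ hj2]
    · by_cases hj2 : j.val < n + 2
      · rw [up_apply _ _ _ hj2, up_apply _ _ _ hj2, flip_apply_ne]
        intro he
        apply hi
        rw [← he]
        exact hJ j hj hj2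
      · rw [up_last _ _ _ hj2, up_last _ _ _ hj2]

end Frame

namespace Gluing

variable {P : Type u} [PartialOrder P] [BoundedOrder P] {n : ℕ} (g : Gluing P)

/-- moving a flag to the canonical copy of one of its faces -/
lemma move (hP : IsPolytope n P) (j₀ : ℕ) (hj₀ : j₀ ≤ n) (l : List {F : P // IsCoatom F}) :
    ∀ (hl : g.Red l) (A : Fin (n + 2) ↪o P) (c : List {F : P // IsCoatom F} × P)
      (_ : g.can l (A ⟨j₀, by omega⟩) = c) (hr : g.Red c.1),
      ∃ A₀ : Fin (n + 2) ↪o P,
        ReflTransGen (Step {j : Fin (n + 1 + 2) | j.val ≤ j₀ ∨ n + 2 ≤ j.val})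
          ((g.fr hP l hl).up A) ((g.fr hP c.1 hr).up A₀) := by
  induction l with
  | nil =>
    intro hl A c hc hr
    rw [can_nil] at hc
    subst hc
    exact ⟨A, ReflTransGen.refl⟩
  | cons G l ih =>
    intro hl A c hc hr
    by_cases hx : A ⟨j₀, by omega⟩ ≤ (g.plus G).1
    · obtain ⟨Θ, hΘ1, hΘ2⟩ := splice_up hP A ⟨j₀, by omega⟩ (g.plus G).1 hx
      have hrG := (coatom_iff hP).mp (g.plus G).2
      have hΘn : Θ ⟨n, by omega⟩ = (g.plus G).1 := hΘ2 ⟨n, by omega⟩ hrG.symm
      have hle : ∀ i : Fin (n + 2), i.val ≤ n → Θ i ≤ (g.plus G).1 := by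
        intro i hi
        rw [← hΘn]
        exact Θ.monotone hi
      -- first path
      have p1 : ReflTransGen (Step {j : Fin (n + 1 + 2) | j.val ≤ j₀ ∨ n + 2 ≤ j.val})
          ((g.fr hP (G :: l) hl).up A) ((g.fr hP (G :: l) hl).up Θ) := by
        apply Frame.path_up hP _ {i : Fin (n + 2) | i.val ≤ j₀}
        · intro j hj hj2
          rcases hj with h | h
          · exact h
          · omega
        · intro j hj
          exact (hΘ1 j hj).symm
      -- the flag in the neighbouring copy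
      classical
      let θ : Fin (n + 2) → P := fun i => if h : i.val ≤ n then g.dn G (Θ i) (hle i h) else ⊤
      have hθ : StrictMono θ := by
        intro i j hij
        have hij' : i.val < j.val := hij
        have hi : i.val ≤ n := by omega
        by_cases hj : j.val ≤ n
        · simp only [θ, dif_pos hi, dif_pos hj]
          rw [lt_iff_le_not_ge, g.dn_le_dn, g.dn_le_dn, ← lt_iff_le_not_ge]
          exact Θ.strictMono hij
        · simp only [θ, dif_pos hi, dif_neg hj]
          exact (g.dn_le _ _ _).trans_lt G.2.lt_top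
      set Θ' : Fin (n + 2) ↪o P := OrderEmbedding.ofStrictMono θ hθ with hΘ'
      have hΘ'a : ∀ (i : Fin (n + 2)) (h : i.val ≤ n), Θ' i = g.dn G (Θ i) (hle i h) := by
        intro i h
        show θ i = _
        simp only [θ, dif_pos h]
      have p2 : Step {j : Fin (n + 1 + 2) | j.val ≤ j₀ ∨ n + 2 ≤ j.val}
          ((g.fr hP (G :: l) hl).up Θ) ((g.fr hP l hl.2).up Θ') := by
        have hag : ∀ j : Fin (n + 1 + 2), j.val ≤ n →
            (g.fr hP (G :: l) hl).up Θ j = (g.fr hP l hl.2).up Θ' j := by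
          intro j hj
          rw [Frame.up_apply _ _ _ (by omega), Frame.up_apply _ _ _ (by omega), fr_apply, fr_apply,
            hΘ'a ⟨j.val, by omega⟩ hj, g.face_dn hl _ (hle ⟨j.val, by omega⟩ hj)]
        have hlast : ∀ j : Fin (n + 1 + 2), n + 2 ≤ j.val →
            (g.fr hP (G :: l) hl).up Θ j = (g.fr hP l hl.2).up Θ' j := by
          intro j hj
          rw [Frame.up_last _ _ _ (by omega), Frame.up_last _ _ _ (by omega)]
        refine ⟨⟨⟨n + 1, by omega⟩, fun j hj => ?_⟩, fun j hj => ?_⟩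
        · by_cases h1 : j.val ≤ n
          · exact hag j h1
          · apply hlast
            have : j.val ≠ n + 1 := by
              intro h
              exact hj (Fin.ext h)
            omega
        · rcases hj with h | h
          · exact hag j (by omega)
          · exact hlast j h
      have hc' : g.can l (Θ' ⟨j₀, by omega⟩) = c := by
        rw [hΘ'a ⟨j₀, by omega⟩ hj₀, ← hc, g.can_cons_pos hx]
        congr 1
        have e : Θ ⟨j₀, by omega⟩ = A ⟨j₀, by omega⟩ := hΘ1 _ le_rfl
        simp only [e]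
      obtain ⟨A₀, p3⟩ := ih hl.2 Θ' c hc' hr
      exact ⟨A₀, (p1.tail p2).trans p3⟩
    · rw [g.can_cons_neg hx] at hc
      subst hc
      exact ⟨A, ReflTransGen.refl⟩

lemma rkU_flag (hP : IsPolytope n P) (B : Fin (n + 1 + 2) ↪o g.Univ) (i : Fin (n + 1 + 2)) :
    g.rkU hP (B i) = i.val := by
  apply strictMono_fin_eq (m := n + 2) (fun i => g.rkU hP (B i))
  · intro i j hij
    exact g.rkU_lt hP (B.strictMono hij)
  · intro i
    generalize B i = x
    induction x using WithTop.recTopCoe with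
    | top => exact le_rfl
    | coe x => exact (g.rkF_le hP x).trans (by omega)

/-- every flag lies in one of the copies -/
lemma exists_node (hP : IsPolytope n P) (B : Fin (n + 1 + 2) ↪o g.Univ) :
    ∃ (l : List {F : P // IsCoatom F}) (hl : g.Red l) (A : Fin (n + 2) ↪o P),
      (g.fr hP l hl).up A = B := by
  have h1 := g.rkU_flag hP B ⟨n + 1, by omega⟩
  have h2 := g.rkU_flag hP B ⟨n + 2, by omega⟩
  have hlast : B ⟨n + 2, by omega⟩ = ⊤ := by
    generalize B ⟨n + 2, by omega⟩ = x at h2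
    induction x using WithTop.recTopCoe with
    | top => rfl
    | coe x =>
      exfalso
      have := g.rkF_le hP x
      have h3 : g.rkF hP x = n + 2 := h2
      omega
  obtain ⟨f, hf⟩ : ∃ f : g.Face, B ⟨n + 1, by omega⟩ = (f : g.Univ) := by
    generalize B ⟨n + 1, by omega⟩ = x at h1
    induction x using WithTop.recTopCoe with
    | top =>
      exfalso
      have h3 : n + 2 = n + 1 := h1
      omega
    | coe x => exact ⟨x, rfl⟩
  rw [hf] at h1
  have hft := g.eq_face_top hP (f := f) h1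
  obtain ⟨A, hA⟩ := Frame.exists_down' (g.fr hP f.1.1 f.2.1) B (by
    rw [hf, fr_apply, ← hft]) hlast
  exact ⟨_, _, A, hA⟩

lemma connected (hP : IsPolytope n P) (Φ Ψ : Fin (n + 1 + 2) ↪o g.Univ) :
    ReflTransGen (Step {j | Φ j = Ψ j}) Φ Ψ := by
  obtain ⟨l, hl, A, rfl⟩ := g.exists_node hP Φ
  obtain ⟨l', hl', A', rfl⟩ := g.exists_node hP Ψ
  by_cases htop : ((g.fr hP l hl).up A) ⟨n + 1, by omega⟩ = ((g.fr hP l' hl').up A') ⟨n + 1, by omega⟩
  · have hll : l = l' := by
      rw [Frame.up_facet hP _ _ _ rfl, Frame.up_facet hP _ _ _ rfl, fr_apply, fr_apply] at htop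
      have h1 := congrArg Subtype.val (WithTop.coe_injective htop)
      have h2 : g.can l ⊤ = g.can l' ⊤ := h1
      rw [can_top, can_top] at h2
      exact (Prod.mk.inj h2).1
    subst hll
    apply Frame.path_up hP _ {i : Fin (n + 2) | A i = A' i}
    · intro j hj hj2
      apply (g.fr hP l hl).emb.injective
      rw [← Frame.up_apply _ _ j hj2, ← Frame.up_apply _ _ j hj2]
      exact hj
    · exact fun j hj => hj
  · classical
    -- the largest common face
    set Φ := (g.fr hP l hl).up A with hΦ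
    set Ψ := (g.fr hP l' hl').up A' with hΨ
    let p : ℕ → Prop := fun j => ∃ h : j < n + 1 + 2, Φ ⟨j, h⟩ = Ψ ⟨j, h⟩
    have p0 : p 0 := by
      refine ⟨by omega, ?_⟩
      have e1 : A ⟨0, by omega⟩ = ⊥ := eq_bot_of_rk hP (rk_flag hP _ _)
      have e2 : A' ⟨0, by omega⟩ = ⊥ := eq_bot_of_rk hP (rk_flag hP _ _)
      rw [hΦ, hΨ, Frame.up_apply _ _ _ (by show 0 < n + 2; omega),
        Frame.up_apply _ _ _ (by show 0 < n + 2; omega), e1, e2, Frame.emb_bot, Frame.emb_bot]
    set j₀ := Nat.findGreatest p n with hj₀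
    have hj₀n : j₀ ≤ n := Nat.findGreatest_le n
    obtain ⟨hj₀lt, hj₀e⟩ : p j₀ := Nat.findGreatest_spec (P := p) (Nat.zero_le n) p0
    have hmax : ∀ j, j ≤ n → p j → j ≤ j₀ := fun j hj hp => Nat.le_findGreatest hj hp
    have hcan : g.can l (A ⟨j₀, by omega⟩) = g.can l' (A' ⟨j₀, by omega⟩) := by
      rw [hΦ, hΨ, Frame.up_apply _ _ _ (by show j₀ < n + 2; omega),
        Frame.up_apply _ _ _ (by show j₀ < n + 2; omega), fr_apply, fr_apply] at hj₀e
      exact congrArg Subtype.val (WithTop.coe_injective hj₀e)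
    have hr := (g.can_spec l (A ⟨j₀, by omega⟩) hl).1
    obtain ⟨A₀, q1⟩ := g.move hP j₀ hj₀n l hl A _ rfl hr
    obtain ⟨A₀', q2⟩ := g.move hP j₀ hj₀n l' hl' A' _ hcan.symm hr
    rw [← hΦ] at q1
    rw [← hΨ] at q2
    have hJ : {j : Fin (n + 1 + 2) | Φ j = Ψ j} ⊆
        {j : Fin (n + 1 + 2) | j.val ≤ j₀ ∨ n + 2 ≤ j.val} := by
      intro j hj
      by_cases h1 : j.val ≤ n
      · left
        exact hmax j.val h1 ⟨j.2, hj⟩
      · right
        by_contra h2
        apply htop
        have : j = ⟨n + 1, by omega⟩ := by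
          rw [Fin.ext_iff]
          show j.val = n + 1
          omega
        rw [← this]
        exact hj
    have q3 : ReflTransGen (Step {j | Φ j = Ψ j})
        ((g.fr hP (g.can l (A ⟨j₀, by omega⟩)).1 hr).up A₀)
        ((g.fr hP (g.can l (A ⟨j₀, by omega⟩)).1 hr).up A₀') := by
      apply Frame.path_up hP _ {i : Fin (n + 2) | Φ ⟨i.val, by omega⟩ = Ψ ⟨i.val, by omega⟩}
      · intro j hj hj2
        exact hj
      · intro j hj
        have hj' : (⟨j.val, by omega⟩ : Fin (n + 1 + 2)) ∈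
          {j : Fin (n + 1 + 2) | Φ j = Ψ j} := hj
        have e1 := path_eq q1 ⟨j.val, by omega⟩ (hJ hj')
        have e2 := path_eq q2 ⟨j.val, by omega⟩ (hJ hj')
        have e1' := (g.fr hP (g.can l (A ⟨j₀, by omega⟩)).1 hr).up_apply A₀
          ⟨j.val, by omega⟩ j.2
        have e2' := (g.fr hP (g.can l (A ⟨j₀, by omega⟩)).1 hr).up_apply A₀'
          ⟨j.val, by omega⟩ j.2
        apply (g.fr hP (g.can l (A ⟨j₀, by omega⟩)).1 hr).emb.injective
        exact (e1.trans e1').symm.trans (hj'.trans (e2.trans e2'))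
    exact ((path_mono hJ q1).trans q3).trans (path_symm (path_mono hJ q2))

/-- the glued poset is a polytope -/
theorem isPolytope (hP : IsPolytope n P) : IsPolytope (n + 1) g.Univ where
  ranked := g.ranked hP
  diamond := g.diamond hP
  connected := fun Φ Ψ => path_conv (g.connected hP Φ Ψ)

/-- the facets of the glued polytope are the copies of `P` -/
lemma coatom_eq (hP : IsPolytope n P) {F : g.Univ} (hF : IsCoatom F) :
    ∃ (l : List {F : P // IsCoatom F}) (hl : g.Red l), (g.fr hP l hl).emb ⊤ = F := by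
  induction F using WithTop.recTopCoe with
  | top => exact absurd rfl hF.1
  | coe f =>
    rw [← covBy_top_iff, WithTop.coe_covBy_top] at hF
    have h1 := g.eq_top_of_isMax hF
    refine ⟨f.1.1, f.2.1, ?_⟩
    rw [fr_apply, ← h1, face_self]

theorem isExtension (hP : IsPolytope n P) : IsExtension n P g.Univ := by
  refine ⟨g.isPolytope hP, fun F hF => ?_⟩
  obtain ⟨l, hl, rfl⟩ := g.coatom_eq hP hF
  exact (g.fr hP l hl).nonempty_iso

/-- `R` is glued according to the rule `g` -/
def HasType (R : Type u) [PartialOrder R] [BoundedOrder R] : Prop :=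
  ∀ (φ : Frame P R) (F : {F : P // IsCoatom F}), ∃ ψ : Frame P R, GluedBy φ ψ (g.γ F)

lemma glued_fr (hP : IsPolytope n P) {G : {F : P // IsCoatom F}}
    {l : List {F : P // IsCoatom F}} (hl : g.Red (G :: l)) :
    GluedBy (g.fr hP l hl.2) (g.fr hP (G :: l) hl) (g.γ G) := by
  refine ⟨?_, fun x => ?_⟩
  · rw [fr_apply, fr_apply]
    intro he
    have h1 : g.can (G :: l) ⊤ = g.can l ⊤ := congrArg Subtype.val (WithTop.coe_injective he)
    rw [can_top, can_top] at h1
    have := congrArg List.length (Prod.mk.inj h1).1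
    simp at this
  · rw [fr_apply, fr_apply, face_cons]

/-- the glued polytope has type `g` -/
theorem hasType (hP : IsPolytope n P) : g.HasType g.Univ := by
  intro φ F
  obtain ⟨l, hl, htop⟩ := g.coatom_eq hP φ.coatom
  obtain ⟨h, hh⟩ := φ.exists_precomp (g.fr hP l hl) htop.symm
  have hhF : IsCoatom (h F.1) := (OrderIso.isCoatom_iff h F.1).mpr F.2
  set F' : {F : P // IsCoatom F} := ⟨h F.1, hhF⟩ with hF'
  by_cases hfree : g.Free F' l
  · have hl' : g.Red (F' :: l) := ⟨hfree, hl⟩
    have hgl := g.glued_fr hP hl'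
    obtain ⟨k, hk⟩ := g.comp F F' h rfl
    refine ⟨(g.fr hP (F' :: l) hl').precomp k, ?_, ?_⟩
    · rw [Frame.precomp_apply, map_top, ← htop]
      exact hgl.1
    · intro x
      rw [Frame.precomp_apply]
      have := hk x.1 x.2
      rw [this, ← hh]
      exact hgl.2 ⟨h x.1, h.monotone x.2⟩
  · cases l with
    | nil => exact absurd trivial hfree
    | cons G l =>
      have hFG : F' = g.plus G := by
        by_contra hne
        exact hfree hne
      have hgl := g.glued_fr hP hl
      obtain ⟨k1, hk1⟩ := g.comp F (g.plus G) h (congrArg Subtype.val hFG)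
      obtain ⟨k2, hk2⟩ := g.inv G
      refine ⟨(g.fr hP l hl.2).precomp (k1.trans k2.symm), ?_, ?_⟩
      · rw [Frame.precomp_apply, map_top, ← htop]
        exact hgl.1.symm
      · intro x
        rw [Frame.precomp_apply, OrderIso.trans_apply]
        have hhx : h x.1 ≤ (g.plus G).1 := by
          rw [← congrArg Subtype.val hFG]
          exact h.monotone x.2
        -- the preimage in the neighbouring copy
        set y : Set.Iic G.1 := (g.γ G).symm ⟨h x.1, hhx⟩ with hy
        have e1 : g.γ G y = ⟨h x.1, hhx⟩ := by rw [hy, OrderIso.apply_symm_apply]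
        have e2 := hk2 y
        have e3 := hk1 x.1 x.2
        have e4 : k2 y.1 = k1 (g.γ F x) := by
          rw [e2, e1]
          exact e3.symm
        rw [← e4, OrderIso.symm_apply_apply, ← hh, ← hgl.2 y, e1]

/-! ### Coverings -/

section Cover

variable {R : Type u} [PartialOrder R] [BoundedOrder R]

lemma glued_unique (hP : IsPolytope n P) (hR : IsPolytope (n + 1) R) {φ ψ ψ' : Frame P R}
    {F G : P} (hF : IsCoatom F) (hG : IsCoatom G) {γ : Set.Iic F ≃o Set.Iic G}
    (h : GluedBy φ ψ γ) (h' : GluedBy φ ψ' γ) : ψ = ψ' := by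
  have htop : ψ.emb ⊤ = ψ'.emb ⊤ := by
    apply Frame.facet_unique hP hR φ hF ψ.coatom ψ'.coatom
    · rw [← h.ridge]; exact ψ.le_top' _
    · rw [← h'.ridge]; exact ψ'.le_top' _
    · exact h.1
    · exact h'.1
  apply Frame.ext_facet hP htop hG
  intro x hx
  have e1 := h.2 (γ.symm ⟨x, hx⟩)
  have e2 := h'.2 (γ.symm ⟨x, hx⟩)
  rw [OrderIso.apply_symm_apply] at e1 e2
  rw [e1, e2]

/-- the frames reached from a base frame -/
noncomputable def walk (ht : g.HasType R) (φ₀ : Frame P R) :
    List {F : P // IsCoatom F} → Frame P R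
  | [] => φ₀
  | G :: l => (ht (walk ht φ₀ l) G).choose

lemma walk_glued (ht : g.HasType R) (φ₀ : Frame P R) (G : {F : P // IsCoatom F})
    (l : List {F : P // IsCoatom F}) :
    GluedBy (g.walk ht φ₀ l) (g.walk ht φ₀ (G :: l)) (g.γ G) :=
  (ht (g.walk ht φ₀ l) G).choose_spec

lemma walk_can (ht : g.HasType R) (φ₀ : Frame P R) (l : List {F : P // IsCoatom F}) (x : P) :
    (g.walk ht φ₀ (g.can l x).1).emb (g.can l x).2 = (g.walk ht φ₀ l).emb x := by
  induction l generalizing x with
  | nil => rfl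
  | cons G l ih =>
    by_cases hx : x ≤ (g.plus G).1
    · rw [g.can_cons_pos hx, ih]
      have := (g.walk_glued ht φ₀ G l).2 ((g.γ G).symm ⟨x, hx⟩)
      rw [OrderIso.apply_symm_apply] at this
      exact this.symm
    · rw [g.can_cons_neg hx]

/-- the covering determined by a base frame -/
noncomputable def cov (ht : g.HasType R) (φ₀ : Frame P R) : g.Univ → R
  | ⊤ => ⊤
  | (f : g.Face) => (g.walk ht φ₀ f.1.1).emb f.1.2

lemma cov_fr (hP : IsPolytope n P) (ht : g.HasType R) (φ₀ : Frame P R)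
    (l : List {F : P // IsCoatom F}) (hl : g.Red l) (x : P) :
    g.cov ht φ₀ ((g.fr hP l hl).emb x) = (g.walk ht φ₀ l).emb x := g.walk_can ht φ₀ l x

lemma cov_strictMono (hP : IsPolytope n P) (ht : g.HasType R) (φ₀ : Frame P R) :
    StrictMono (g.cov ht φ₀) := by
  intro a b hab
  induction a using WithTop.recTopCoe with
  | top => exact absurd hab not_top_lt
  | coe a =>
    induction b using WithTop.recTopCoe with
    | top =>
      show (g.walk ht φ₀ a.1.1).emb a.1.2 < ⊤
      exact ((g.walk ht φ₀ a.1.1).le_top' _).trans_lt (g.walk ht φ₀ a.1.1).coatom.lt_top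
    | coe b =>
      rw [WithTop.coe_lt_coe] at hab
      have hle : a ≤ g.face b.1.1 b.2.1 b.1.2 := by rw [g.face_self b]; exact hab.le
      obtain ⟨y, hy, he⟩ := g.le_face b.2.1 hle
      have hne : y ≠ b.1.2 := by
        intro h
        rw [h, g.face_self] at he
        exact hab.ne he.symm
      have e : g.cov ht φ₀ ((g.face b.1.1 b.2.1 y : g.Face) : g.Univ) =
          (g.walk ht φ₀ b.1.1).emb y := g.cov_fr hP ht φ₀ b.1.1 b.2.1 y
      rw [← he, e]
      exact (g.walk ht φ₀ b.1.1).emb.strictMono (lt_of_le_of_ne hy hne)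

lemma cov_isPre (hP : IsPolytope n P) (ht : g.HasType R) (φ₀ : Frame P R) :
    IsPre (n + 1) (g.cov ht φ₀) := by
  refine ⟨g.cov_strictMono hP ht φ₀, fun i A B hAB => ?_⟩
  obtain ⟨hi0, hi1⟩ := hAB.pos (g.isPolytope hP)
  obtain ⟨l, hl, A', rfl⟩ := g.exists_node hP A
  obtain ⟨l', hl', B', rfl⟩ := g.exists_node hP B
  by_cases hi : i.val < n + 1
  · -- the same copy
    have htop := hAB.2 ⟨n + 1, by omega⟩ (by
      intro h
      rw [← h] at hi
      exact absurd hi (lt_irrefl _))
    have hll : l = l' := by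
      rw [Frame.up_facet hP _ _ _ rfl, Frame.up_facet hP _ _ _ rfl, fr_apply, fr_apply] at htop
      have h1 := congrArg Subtype.val (WithTop.coe_injective htop)
      have h2 : g.can l ⊤ = g.can l' ⊤ := h1
      rw [can_top, can_top] at h2
      exact (Prod.mk.inj h2).1
    subst hll
    have h1 := hAB.1
    rw [Frame.up_apply _ _ _ (by omega), Frame.up_apply _ _ _ (by omega)] at h1 ⊢
    rw [g.cov_fr hP, g.cov_fr hP]
    intro he
    apply h1
    rw [(g.walk ht φ₀ l).emb.injective he]
  · have hin : i.val = n + 1 := by omega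
    have hridge := hAB.2 ⟨n, by omega⟩ (by
      intro h
      rw [← h] at hin
      simp only at hin
      omega)
    rw [Frame.up_apply _ _ _ (by show n < n + 2; omega),
      Frame.up_apply _ _ _ (by show n < n + 2; omega), fr_apply, fr_apply] at hridge
    have hcan : g.can l (A' ⟨n, by omega⟩) = g.can l' (B' ⟨n, by omega⟩) :=
      congrArg Subtype.val (WithTop.coe_injective hridge)
    have h1 := hAB.1
    rw [Frame.up_facet hP _ _ _ hin, Frame.up_facet hP _ _ _ hin] at h1 ⊢
    rw [g.cov_fr hP, g.cov_fr hP]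
    -- the canonical form of the ridge
    obtain ⟨c, hc⟩ : ∃ c, g.can l (A' ⟨n, by omega⟩) = c := ⟨_, rfl⟩
    have hcr : IsCoatom c.2 := by
      rw [coatom_iff hP, ← hc, g.rk_can hP, rk_flag]
    have hc1 : g.can l (A' ⟨n, by omega⟩) = (c.1, (⟨c.2, hcr⟩ : {F : P // IsCoatom F}).1) := hc
    have hc2 : g.can l' (B' ⟨n, by omega⟩) = (c.1, (⟨c.2, hcr⟩ : {F : P // IsCoatom F}).1) := by
      rw [← hcan]; exact hc
    rcases g.nodes_above hP hl hc1 with h2 | h2 <;> rcases g.nodes_above hP hl' hc2 with h3 | h3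
    · subst h2
      subst h3
      exact absurd rfl h1
    · rw [h2, h3]
      exact (g.walk_glued ht φ₀ _ _).1.symm
    · rw [h2, h3]
      exact (g.walk_glued ht φ₀ _ _).1
    · exfalso
      subst h2
      subst h3
      exact absurd rfl h1

lemma cov_isCovering (hP : IsPolytope n P) (hR : IsExtension n P R) (ht : g.HasType R)
    (φ₀ : Frame P R) : IsCovering (n + 1) (g.cov ht φ₀) := by
  have h := g.cov_isPre hP ht φ₀
  exact ⟨h.surjective (g.isPolytope hP) hR.1, h.strictMono,
    fun i A B h1 h2 => h.adjacent i A B ⟨h1, h2⟩⟩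

/-- every frame is reached along every word from some base frame -/
lemma exists_walk (hP : IsPolytope n P) (hR : IsExtension n P R) (ht : g.HasType R)
    (l : List {F : P // IsCoatom F}) (φ : Frame P R) : ∃ φ₀, g.walk ht φ₀ l = φ := by
  induction l generalizing φ with
  | nil => exact ⟨φ, rfl⟩
  | cons G l ih =>
    obtain ⟨ψ, hψ⟩ := ht φ (g.plus G)
    obtain ⟨k, hk⟩ := g.inv G
    obtain ⟨φ₀, hφ₀⟩ := ih (ψ.precomp k)
    refine ⟨φ₀, ?_⟩
    have h1 := g.walk_glued ht φ₀ G l
    rw [hφ₀] at h1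
    have h2 : GluedBy (ψ.precomp k) φ (g.γ G) := by
      refine ⟨?_, fun x => ?_⟩
      · have hkt : k ⊤ = ⊤ := map_top k
        rw [Frame.precomp_apply, hkt]
        exact hψ.1.symm
      · rw [Frame.precomp_apply, hk]
        exact (hψ.2 _).symm
    exact glued_unique hP hR.1 G.2 (g.plus G).2 h1 h2

lemma exists_cov_frame (hP : IsPolytope n P) (hR : IsExtension n P R) (ht : g.HasType R)
    (φ : Frame P g.Univ) (ψ : Frame P R) : ∃ f : g.Univ → R, IsPre (n + 1) f ∧
      ∀ x, f (φ.emb x) = ψ.emb x := by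
  obtain ⟨l, hl, htop⟩ := g.coatom_eq hP φ.coatom
  obtain ⟨h, hh⟩ := φ.exists_precomp (g.fr hP l hl) htop.symm
  obtain ⟨φ₀, hφ₀⟩ := g.exists_walk hP hR ht l (ψ.precomp h.symm)
  refine ⟨g.cov ht φ₀, g.cov_isPre hP ht φ₀, fun x => ?_⟩
  rw [← hh, g.cov_fr hP, hφ₀, Frame.precomp_apply, OrderIso.symm_apply_apply]

end Cover

/-- the glued polytope is frame-transitive -/
theorem frameTransitive (hP : IsPolytope n P) : FrameTransitive P g.Univ := by
  intro φ ψ
  have hU := g.isPolytope hP
  have hE := g.isExtension hP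
  have ht := g.hasType hP
  obtain ⟨f, hf, hf1⟩ := g.exists_cov_frame hP hE ht φ ψ
  obtain ⟨f', hf', hf1'⟩ := g.exists_cov_frame hP hE ht ψ φ
  obtain ⟨A, -⟩ := exists_flag_any hP
  have e1 : (fun x => f' (f x)) = (fun x : g.Univ => x) := by
    apply IsPre.ext (hf'.comp hf) (isPre_iso (OrderIso.refl g.Univ)) hU hU (φ.up A)
    intro i
    by_cases hi : i.val < n + 2
    · rw [Frame.up_apply _ _ _ hi, hf1, hf1']
      rfl
    · rw [Frame.up_last _ _ _ hi]
      show f' (f ⊤) = ⊤
      have h1 : f ⊤ = ⊤ := by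
        apply eq_top_of_rk hU
        rw [hf.rk hU hU, rk_top]
      have h2 : f' ⊤ = ⊤ := by
        apply eq_top_of_rk hU
        rw [hf'.rk hU hU, rk_top]
      rw [h1, h2]
  have e2 : (fun x => f (f' x)) = (fun x : g.Univ => x) := by
    apply IsPre.ext (hf.comp hf') (isPre_iso (OrderIso.refl g.Univ)) hU hU (ψ.up A)
    intro i
    by_cases hi : i.val < n + 2
    · rw [Frame.up_apply _ _ _ hi, hf1', hf1]
      rfl
    · rw [Frame.up_last _ _ _ hi]
      show f (f' ⊤) = ⊤
      have h1 : f ⊤ = ⊤ := by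
        apply eq_top_of_rk hU
        rw [hf.rk hU hU, rk_top]
      have h2 : f' ⊤ = ⊤ := by
        apply eq_top_of_rk hU
        rw [hf'.rk hU hU, rk_top]
      rw [h2, h1]
  refine ⟨{ toFun := f
            invFun := f'
            left_inv := fun x => congrFun e1 x
            right_inv := fun x => congrFun e2 x
            map_rel_iff' := ?_ }, hf1⟩
  intro a b
  constructor
  · intro h
    have := hf'.strictMono.monotone h
    have ha := congrFun e1 a
    have hb := congrFun e1 b
    have h' : f' (f a) ≤ f' (f b) := this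
    rwa [ha, hb] at h'
  · intro h
    exact hf.strictMono.monotone h

theorem isKOrbit {k : ℕ} (hP : IsKOrbit k n P) : IsKOrbit k (n + 1) g.Univ :=
  kOrbit_of_frameTransitive hP (g.isExtension hP.1) (g.frameTransitive hP.1)

end Gluing

end Pool.Agent.H39.Poly
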