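import Mathlib
import Pool.Agent.H39.PolyUniv

set_option autoImplicit false
set_option linter.unusedSectionVars false

universe u v w

namespace Pool.Agent.H39.Poly

open Relation

section Groupoid

variable {P : Type u} [PartialOrder P]

lemma extends_refl (F : P) : Extends (OrderIso.refl (Set.Iic F)) :=
  ⟨OrderIso.refl P, fun _ => rfl⟩

lemma Extends.symm {F G : P} {γ : Set.Iic F ≃o Set.Iic G} (h : Extends γ) : Extends γ.symm := by
  obtain ⟨g, hg⟩ := h
  refine ⟨g.symm, fun y => ?_⟩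
  rw [OrderIso.symm_apply_eq, hg, OrderIso.apply_symm_apply]

lemma Extends.trans {F G H : P} {γ : Set.Iic F ≃o Set.Iic G} {δ : Set.Iic G ≃o Set.Iic H}
    (h : Extends γ) (h' : Extends δ) : Extends (γ.trans δ) := by
  obtain ⟨g, hg⟩ := h
  obtain ⟨g', hg'⟩ := h'
  refine ⟨g.trans g', fun y => ?_⟩
  rw [OrderIso.trans_apply, OrderIso.trans_apply, hg, hg']

lemma iso_top' {F G : P} (γ : Set.Iic F ≃o Set.Iic G) :
    ((γ ⟨F, Set.mem_Iic.mpr le_rfl⟩ : Set.Iic G) : P) = G := by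
  apply le_antisymm (γ ⟨F, Set.mem_Iic.mpr le_rfl⟩).2
  have h1 : γ.symm ⟨G, Set.mem_Iic.mpr le_rfl⟩ ≤ ⟨F, Set.mem_Iic.mpr le_rfl⟩ :=
    (γ.symm ⟨G, Set.mem_Iic.mpr le_rfl⟩).2
  rw [OrderIso.symm_apply_le] at h1
  exact h1

lemma Extends.exists_map {F G : P} {γ : Set.Iic F ≃o Set.Iic G} (h : Extends γ) :
    ∃ g : P ≃o P, g F = G := by
  obtain ⟨g, hg⟩ := h
  refine ⟨g, ?_⟩
  have := hg ⟨F, Set.mem_Iic.mpr le_rfl⟩
  rw [iso_top'] at this
  exact this

/-- the restriction of an automorphism -/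
def res (h : P ≃o P) {F F' : P} (hF : h F = F') : Set.Iic F ≃o Set.Iic F' where
  toFun x := ⟨h x, by
    rw [Set.mem_Iic, ← hF]
    exact h.monotone x.2⟩
  invFun y := ⟨h.symm y, by
    rw [Set.mem_Iic, OrderIso.symm_apply_le, hF]
    exact y.2⟩
  left_inv x := Subtype.ext (h.symm_apply_apply _)
  right_inv y := Subtype.ext (h.apply_symm_apply _)
  map_rel_iff' := by
    intro x y
    exact h.le_iff_le

@[simp] lemma res_apply (h : P ≃o P) {F F' : P} (hF : h F = F') (x : Set.Iic F) :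
    ((res h hF x : Set.Iic F') : P) = h x := rfl

lemma extends_res (h : P ≃o P) {F F' : P} (hF : h F = F') : Extends (res h hF) :=
  ⟨h, fun _ => rfl⟩

lemma Conjugates.symm {F G : P} {γ : Set.Iic F ≃o Set.Iic G} (h : Conjugates γ) :
    Conjugates γ.symm := by
  intro b
  have := h ((γ.symm.symm.trans b).trans γ.symm)
  rw [this]
  have e : (γ.symm.trans ((γ.symm.symm.trans b).trans γ.symm)).trans γ = b := by
    ext y
    simp
  rw [e]

end Groupoid

namespace Gluing

variable {P : Type u} [PartialOrder P] [BoundedOrder P] {n : ℕ}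

/-- a gluing rule from a family of admissible isomorphisms -/
lemma exists_ofRel (T : ∀ {F G : P}, (Set.Iic F ≃o Set.Iic G) → Prop)
    (h1 : ∀ F : P, IsCoatom F → ∃ G, IsCoatom G ∧ ∃ γ : Set.Iic F ≃o Set.Iic G, T γ)
    (h2 : ∀ {F G F' G' : P} (γ : Set.Iic F ≃o Set.Iic G) (γ' : Set.Iic F' ≃o Set.Iic G')
      (h : Set.Iic F ≃o Set.Iic F'), T γ → T γ' → Extends h →
      Extends (γ.symm.trans (h.trans γ')))
    (h3 : ∀ {F G : P} (γ : Set.Iic F ≃o Set.Iic G), T γ → T γ.symm) :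
    ∃ g : Gluing P, ∀ F, T (g.γ F) := by
  choose pl hpl γ hγ using h1
  refine ⟨{ plus := fun F => ⟨pl F.1 F.2, hpl F.1 F.2⟩
            γ := fun F => γ F.1 F.2
            comp := ?_
            inv := ?_ }, fun F => hγ F.1 F.2⟩
  · intro F F' h hF
    obtain ⟨k, hk⟩ := h2 _ _ (res h hF) (hγ F.1 F.2) (hγ F'.1 F'.2) (extends_res h hF)
    refine ⟨k, fun x hx => ?_⟩
    have := hk (γ F.1 F.2 ⟨x, hx⟩)
    rw [this, OrderIso.trans_apply, OrderIso.trans_apply, OrderIso.symm_apply_apply]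
    rfl
  · intro F
    obtain ⟨k, hk⟩ := h2 _ _ (OrderIso.refl _) (h3 _ (hγ F.1 F.2)) (hγ (pl F.1 F.2) (hpl F.1 F.2))
      (extends_refl _)
    refine ⟨k, fun x => ?_⟩
    have := hk x
    rw [this]
    rfl

/-- the identity gluing -/
def idG : Gluing P where
  plus F := F
  γ F := OrderIso.refl _
  comp := fun F F' h hF => ⟨h, fun x hx => rfl⟩
  inv := fun F => ⟨OrderIso.refl P, fun x => rfl⟩

end Gluing

section Twist

variable {P : Type u} [PartialOrder P] [BoundedOrder P] {n : ℕ}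

/-- the isomorphisms admissible for the gluing twisted by `γ₀` -/
def Tw {F₀ G₀ : P} (γ₀ : Set.Iic F₀ ≃o Set.Iic G₀) {F G : P} (γ : Set.Iic F ≃o Set.Iic G) :
    Prop :=
  (∃ (e : Set.Iic F ≃o Set.Iic F₀) (f : Set.Iic G₀ ≃o Set.Iic G), Extends e ∧ Extends f ∧
    γ = e.trans (γ₀.trans f)) ∨
  (∃ (e : Set.Iic F ≃o Set.Iic G₀) (f : Set.Iic F₀ ≃o Set.Iic G), Extends e ∧ Extends f ∧
    γ = e.trans (γ₀.symm.trans f)) ∨
  ((∀ e : Set.Iic F ≃o Set.Iic F₀, ¬ Extends e) ∧ (∀ e : Set.Iic F ≃o Set.Iic G₀, ¬ Extends e) ∧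
    Extends γ)

lemma Tw.symm' {F₀ G₀ : P} {γ₀ : Set.Iic F₀ ≃o Set.Iic G₀} {F G : P}
    {γ : Set.Iic F ≃o Set.Iic G} (h : Tw γ₀ γ) : Tw γ₀ γ.symm := by
  rcases h with ⟨e, f, he, hf, rfl⟩ | ⟨e, f, he, hf, rfl⟩ | ⟨h1, h2, h3⟩
  · right; left
    refine ⟨f.symm, e.symm, hf.symm, he.symm, ?_⟩
    ext y
    simp
  · left
    refine ⟨f.symm, e.symm, hf.symm, he.symm, ?_⟩
    ext y
    simp
  · right; right
    exact ⟨fun e he => h1 (γ.trans e) (h3.trans he), fun e he => h2 (γ.trans e) (h3.trans he),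
      h3.symm⟩

lemma Tw.comp {F₀ G₀ : P} {γ₀ : Set.Iic F₀ ≃o Set.Iic G₀} (hc : Conjugates γ₀)
    (hs : ∀ a : Set.Iic F₀ ≃o Set.Iic G₀, Extends a → Extends (γ₀.symm.trans (a.trans γ₀.symm)))
    {F G F' G' : P} {γ : Set.Iic F ≃o Set.Iic G} {γ' : Set.Iic F' ≃o Set.Iic G'}
    {h : Set.Iic F ≃o Set.Iic F'} (h1 : Tw γ₀ γ) (h2 : Tw γ₀ γ') (hh : Extends h) :
    Extends (γ.symm.trans (h.trans γ')) := by
  rcases h1 with ⟨e, f, he, hf, rfl⟩ | ⟨e, f, he, hf, rfl⟩ | ⟨h1, h2', h3⟩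
  · rcases h2 with ⟨e', f', he', hf', rfl⟩ | ⟨e', f', he', hf', rfl⟩ | ⟨h4, h5, h6⟩
    · have a1 : Extends (e.symm.trans (h.trans e')) := he.symm.trans (hh.trans he')
      have a2 := (hc _).mp a1
      have a3 := (hf.symm.trans a2).trans hf'
      convert a3 using 1
      ext y
      simp
    · have a1 : Extends (e.symm.trans (h.trans e')) := he.symm.trans (hh.trans he')
      have a2 := hs _ a1
      have a3 := (hf.symm.trans a2).trans hf'
      convert a3 using 1
      ext y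
      simp
    · exact absurd (hh.symm.trans he) (h4 _)
  · rcases h2 with ⟨e', f', he', hf', rfl⟩ | ⟨e', f', he', hf', rfl⟩ | ⟨h4, h5, h6⟩
    · have a1 : Extends ((e.symm.trans (h.trans e')).symm) := (he.symm.trans (hh.trans he')).symm
      have a2 := (hs _ a1).symm
      have a3 := (hf.symm.trans a2).trans hf'
      convert a3 using 1
      ext y
      simp
    · have a1 : Extends (e.symm.trans (h.trans e')) := he.symm.trans (hh.trans he')
      have a2 := (hc.symm _).mp a1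
      have a3 := (hf.symm.trans a2).trans hf'
      convert a3 using 1
      ext y
      simp
    · exact absurd (hh.symm.trans he) (h5 _)
  · rcases h2 with ⟨e', f', he', hf', rfl⟩ | ⟨e', f', he', hf', rfl⟩ | ⟨h4, h5, h6⟩
    · exact absurd (hh.trans he') (h1 _)
    · exact absurd (hh.trans he') (h2' _)
    · exact h3.symm.trans (hh.trans h6)

/-- the twisted gluing -/
lemma exists_twisted {F₀ G₀ : P} (hF₀ : IsCoatom F₀) (hG₀ : IsCoatom G₀)
    {γ₀ : Set.Iic F₀ ≃o Set.Iic G₀} (hc : Conjugates γ₀)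
    (hs : ∀ a : Set.Iic F₀ ≃o Set.Iic G₀, Extends a → Extends (γ₀.symm.trans (a.trans γ₀.symm))) :
    ∃ g : Gluing P, ∀ F, Tw γ₀ (g.γ F) := by
  apply Gluing.exists_ofRel (fun {F G} γ => Tw γ₀ γ)
  · intro F hF
    by_cases h1 : ∃ e : Set.Iic F ≃o Set.Iic F₀, Extends e
    · obtain ⟨e, he⟩ := h1
      exact ⟨G₀, hG₀, e.trans γ₀, Or.inl ⟨e, OrderIso.refl _, he, extends_refl _, by ext; rfl⟩⟩
    · by_cases h2 : ∃ e : Set.Iic F ≃o Set.Iic G₀, Extends e
      · obtain ⟨e, he⟩ := h2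
        exact ⟨F₀, hF₀, e.trans γ₀.symm,
          Or.inr (Or.inl ⟨e, OrderIso.refl _, he, extends_refl _, by ext; rfl⟩)⟩
      · exact ⟨F, hF, OrderIso.refl _, Or.inr (Or.inr ⟨fun e he => h1 ⟨e, he⟩,
          fun e he => h2 ⟨e, he⟩, extends_refl _⟩)⟩
  · intro F G F' G' γ γ' h h1 h2 hh
    exact Tw.comp hc hs h1 h2 hh
  · intro F G γ h
    exact h.symm'

end Twist

section Main

variable {P : Type u} [PartialOrder P] [BoundedOrder P] {n k : ℕ}

lemma hasType_determined {g : Gluing P} (hP : IsPolytope n P) {R : Type u} [PartialOrder R]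
    [BoundedOrder R] (hext : IsExtension n P R)
    (ht : FrameTransitive P R) (hg : g.HasType R) {F G : P} (hF : IsCoatom F)
    {γ : Set.Iic F ≃o Set.Iic G} {φ ψ : Frame P R} (h : GluedBy φ ψ γ) :
    Extends (γ.symm.trans (g.γ ⟨F, hF⟩)) := by
  obtain ⟨ψ', h'⟩ := hg φ ⟨F, hF⟩
  obtain ⟨k, hk⟩ := glue_determined hP hext ht hF h h'
  refine ⟨k, fun y => ?_⟩
  have := hk (γ.symm y)
  rw [OrderIso.apply_symm_apply] at this
  exact this

lemma finite_orbits (hP : IsKOrbit k n P) : Finite (Quotient (flagSetoid n P)) :=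
  Nat.finite_of_card_ne_zero (by
    have := hP.2.1
    rw [hP.2.2]
    omega)

/-- the key consequence of having a universal extension -/
lemma extends_of_universal (hP : IsKOrbit k n P) (hU : HasUniversalExtension k n P)
    {F₀ G₀ : P} (hF₀ : IsCoatom F₀) (hG₀ : IsCoatom G₀)
    {γ₀ : Set.Iic F₀ ≃o Set.Iic G₀} (hc : Conjugates γ₀)
    (hs : ∀ a : Set.Iic F₀ ≃o Set.Iic G₀, Extends a → Extends (γ₀.symm.trans (a.trans γ₀.symm))) :
    Extends γ₀ := by
  obtain ⟨U, _, _, hUext, hUk, hUcov⟩ := hU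
  obtain ⟨g₁, hg₁⟩ := exists_twisted hF₀ hG₀ hc hs
  have hfin := finite_orbits hP
  obtain ⟨φ, -⟩ := exists_frame_any hUext
  obtain ⟨ψ, G, hG, γ, hγ⟩ := exists_glued hP.1 hUext φ hF₀
  have key : ∀ g : Gluing P, Extends (γ.symm.trans (g.γ ⟨F₀, hF₀⟩)) := by
    intro g
    obtain ⟨f, hf⟩ := hUcov g.Univ (g.isExtension hP.1) (g.isKOrbit hP)
    obtain ⟨φ', hφ'⟩ := covering_frame hP.1 hfin hUext (g.isExtension hP.1) hf φ
    obtain ⟨ψ', hψ'⟩ := covering_frame hP.1 hfin hUext (g.isExtension hP.1) hf ψ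
    have h1 := covering_glued hP.1 hUext hf hφ' hψ' hF₀ hγ
    exact hasType_determined hP.1 (g.isExtension hP.1) (g.frameTransitive hP.1)
      (g.hasType hP.1) hF₀ h1
  have h0 : Extends γ.symm := key Gluing.idG
  have h1 : Extends (g₁.γ ⟨F₀, hF₀⟩) := by
    have := h0.symm.trans (key g₁)
    convert this using 1
    ext y
    simp
  rcases hg₁ ⟨F₀, hF₀⟩ with ⟨e, f, he, hf, h⟩ | ⟨e, f, he, hf, h⟩ | ⟨h, -, -⟩
  · have := (he.symm.trans h1).trans hf.symm
    rw [h] at this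
    convert this using 1
    ext y
    simp
  · have := ((he.symm.trans h1).trans hf.symm).symm
    rw [h] at this
    convert this using 1
    ext y
    simp
  · exact absurd (extends_refl _) (h _)

/-- in a frame-transitive extension all gluings conjugate -/
lemma glued_conjugates (hP : IsPolytope n P) {R : Type u} [PartialOrder R]
    [BoundedOrder R] (hext : IsExtension n P R) (ht : FrameTransitive P R) {F G : P}
    (hF : IsCoatom F) (hG : IsCoatom G) {γ : Set.Iic F ≃o Set.Iic G} {φ ψ : Frame P R}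
    (h : GluedBy φ ψ γ) : Conjugates γ := by
  have key : ∀ {F G : P} (_ : IsCoatom F) {γ : Set.Iic F ≃o Set.Iic G} {φ ψ : Frame P R}
      (_ : GluedBy φ ψ γ) (a : Set.Iic F ≃o Set.Iic F), Extends a →
      Extends ((γ.symm.trans a).trans γ) := by
    intro F G hF γ φ ψ h a ha
    obtain ⟨b, hb⟩ := ha
    have h' : GluedBy (φ.precomp b) ψ (a.trans γ) := by
      refine ⟨?_, fun x => ?_⟩
      · have hbt : b ⊤ = ⊤ := map_top b
        rw [Frame.precomp_apply, hbt]
        exact h.1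
      · rw [Frame.precomp_apply, hb, OrderIso.trans_apply, h.2]
    obtain ⟨k, hk⟩ := glue_determined hP hext ht hF h h'
    refine ⟨k, fun y => ?_⟩
    have := hk (γ.symm y)
    rw [OrderIso.apply_symm_apply] at this
    exact this
  intro a
  constructor
  · exact key hF h a
  · intro ha
    have := key hG h.symm _ ha
    convert this using 1
    ext y
    simp

/-- the criterion implies that every extension is glued by identities -/
lemma hasType_id (hP : IsPolytope n P)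
    (c1 : ∀ F G : P, IsCoatom F → IsCoatom G → ∀ γ : Set.Iic F ≃o Set.Iic G, Conjugates γ →
      ∃ g : P ≃o P, g F = G)
    (c2 : ∀ F : P, IsCoatom F → ∀ γ : Set.Iic F ≃o Set.Iic F, Conjugates γ →
      Extends (γ.trans γ) → Extends γ) {R : Type u} [PartialOrder R]
    [BoundedOrder R] (hext : IsExtension n P R) (ht : FrameTransitive P R) :
    (Gluing.idG (P := P)).HasType R := by
  intro φ F
  obtain ⟨ψ, G, hG, γ, hγ⟩ := exists_glued hP hext φ F.2
  obtain ⟨g₁, hg₁⟩ := c1 F.1 G F.2 hG γ (glued_conjugates hP hext ht F.2 hG hγ)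
  have hg₁' : g₁.symm G = F.1 := by rw [← hg₁, OrderIso.symm_apply_apply]
  have h1 : GluedBy φ (ψ.precomp g₁) (γ.trans (res g₁.symm hg₁')) := by
    refine ⟨?_, fun x => ?_⟩
    · have hbt : g₁ ⊤ = ⊤ := map_top g₁
      rw [Frame.precomp_apply, hbt]
      exact hγ.1
    · rw [Frame.precomp_apply, OrderIso.trans_apply, res_apply, OrderIso.apply_symm_apply]
      exact hγ.2 x
  have h2 := glued_conjugates hP hext ht F.2 F.2 h1
  have h3 : Extends ((γ.trans (res g₁.symm hg₁')).trans (γ.trans (res g₁.symm hg₁'))) := by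
    obtain ⟨k, hk⟩ := glue_determined hP hext ht F.2 h1 h1.symm
    have h4 : Extends ((γ.trans (res g₁.symm hg₁')).symm.trans
        (γ.trans (res g₁.symm hg₁')).symm) := by
      refine ⟨k, fun y => ?_⟩
      have := hk ((γ.trans (res g₁.symm hg₁')).symm y)
      rw [OrderIso.apply_symm_apply] at this
      exact this
    exact h4.symm
  obtain ⟨g₂, hg₂⟩ := c2 F.1 F.2 _ h2 h3
  refine ⟨(ψ.precomp g₁).precomp g₂, ?_, fun x => ?_⟩
  · have hbt : g₂ ⊤ = ⊤ := map_top g₂
    rw [Frame.precomp_apply, hbt]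
    exact h1.1
  · rw [Frame.precomp_apply]
    show (ψ.precomp g₁).emb (g₂ x.1) = _
    rw [hg₂]
    exact h1.2 x

/-- **The criterion.** -/
theorem criterion (hP : IsKOrbit k n P) : HasUniversalExtension k n P ↔
    (∀ F G : P, IsCoatom F → IsCoatom G → ∀ γ : Set.Iic F ≃o Set.Iic G, Conjugates γ →
      ∃ g : P ≃o P, g F = G) ∧
    (∀ F : P, IsCoatom F → ∀ γ : Set.Iic F ≃o Set.Iic F, Conjugates γ →
      Extends (γ.trans γ) → Extends γ) := by
  constructor
  · intro hU
    constructor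
    · intro F G hF hG γ hγ
      by_contra hcon
      apply hcon
      apply Extends.exists_map
      apply extends_of_universal hP hU hF hG hγ
      intro a ha
      exact absurd ha.exists_map hcon
    · intro F hF γ hγ h2
      apply extends_of_universal hP hU hF hF hγ
      intro a ha
      have a1 := (hγ a).mp ha
      have a2 := a1.trans h2.symm
      convert a2 using 1
      ext y
      simp
  · rintro ⟨c1, c2⟩
    refine ⟨(Gluing.idG (P := P)).Univ, inferInstance, inferInstance,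
      Gluing.idG.isExtension hP.1, Gluing.idG.isKOrbit hP, ?_⟩
    intro R _ _ hext hRk
    have ht := frameTransitive_of_kOrbit hP hext hRk
    obtain ⟨φ₀, -⟩ := exists_frame_any hext
    exact ⟨_, Gluing.idG.cov_isCovering hP.1 hext (hasType_id hP.1 c1 c2 hext ht) φ₀⟩

end Main

end Pool.Agent.H39.Poly
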