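import Mathlib

set_option autoImplicit false

/-! Minors, planarity in Wagner's form, coloured mixed graphs and relative cliques. -/

namespace Pool.Agent.H39.RC

/-- `H` is a minor of `G`: there are pairwise disjoint connected vertex sets of `G`, one for each
vertex of `H`, such that adjacent vertices of `H` have adjacent sets. -/
def HasMinor {V W : Type*} (G : SimpleGraph V) (H : SimpleGraph W) : Prop :=
  ∃ B : W → Set V, (∀ w, (G.induce (B w)).Connected) ∧
    (∀ w w', w ≠ w' → Disjoint (B w) (B w')) ∧
    ∀ w w', H.Adj w w' → ∃ x ∈ B w, ∃ y ∈ B w', G.Adj x y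

/-- planarity, in the form of Wagner's theorem: neither `K₅` nor `K₃,₃` is a minor -/
def Planar {V : Type*} (G : SimpleGraph V) : Prop :=
  ¬ HasMinor G (⊤ : SimpleGraph (Fin 5)) ∧
    ¬ HasMinor G (completeBipartiteGraph (Fin 3) (Fin 3))

end Pool.Agent.H39.RC
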