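import Mathlib
import Pool.Agent.H39.RCDefs

set_option autoImplicit false

namespace Pool.Agent.H39.RC

variable {V : Type*} {G : SimpleGraph V}

/-- connected vertex sets -/
abbrev Con (G : SimpleGraph V) (S : Set V) : Prop := (G.induce S).Connected

lemma con_single (v : V) : Con G {v} := by
  have h1 : Subsingleton ({v} : Set V) := by infer_instance
  have h2 : Nonempty ({v} : Set V) := ⟨⟨v, rfl⟩⟩
  exact ⟨fun a b => by rw [Subsingleton.elim a b]⟩

lemma Con.insert {S : Set V} (hS : Con G S) {y v : V} (hy : y ∈ S) (h : G.Adj y v) :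
    Con G (insert v S) := by
  have := SimpleGraph.connected_induce_union (G := G) (con_single v).preconnected hS.preconnected
    (Set.mem_singleton v) hy h.symm
  rwa [Set.singleton_union] at this

lemma Con.union {S T : Set V} (hS : Con G S) (hT : Con G T) {v : V} (h : v ∈ S) (h' : v ∈ T) :
    Con G (S ∪ T) :=
  SimpleGraph.induce_union_connected (G := G) hS.preconnected hT.preconnected ⟨v, h, h'⟩

lemma Con.union_adj {S T : Set V} (hS : Con G S) (hT : Con G T) {v w : V} (h : v ∈ S)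
    (h' : w ∈ T) (ha : G.Adj v w) : Con G (S ∪ T) :=
  SimpleGraph.connected_induce_union (G := G) hS.preconnected hT.preconnected h h' ha

lemma con_pair {v w : V} (h : v = w ∨ G.Adj v w) : Con G {v, w} := by
  rcases h with rfl | h
  · rw [Set.pair_eq_singleton]
    exact con_single v
  · exact SimpleGraph.induce_pair_connected_of_adj (G := G) h

/-- `v` is linked to `c` by a connected set avoiding `X` -/
def Lnk (G : SimpleGraph V) (X : Set V) (v c : V) : Prop :=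
  ∃ Z : Set V, v ∈ Z ∧ Con G Z ∧ (∀ z ∈ Z, z ∉ X) ∧ ∃ z ∈ Z, G.Adj z c

lemma lnk_adj {X : Set V} {v c : V} (hv : v ∉ X) (h : G.Adj v c) : Lnk G X v c :=
  ⟨{v}, rfl, con_single v, by
    intro z hz
    rw [Set.mem_singleton_iff] at hz
    rwa [hz], v, rfl, h⟩

lemma lnk_cons {X : Set V} {v x c : V} (hv : v ∉ X) (h : G.Adj v x) (hl : Lnk G X x c) :
    Lnk G X v c := by
  obtain ⟨Z, h1, h2, h3, z, hz, h4⟩ := hl
  refine ⟨insert v Z, Set.mem_insert _ _, h2.insert h1 h.symm, ?_, z, Set.mem_insert_of_mem _ hz, h4⟩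
  intro y hy
  rcases Set.mem_insert_iff.mp hy with rfl | hy
  · exact hv
  · exact h3 y hy

/-- build a `K₅` minor -/
lemma hasMinor_k5 (Z : Fin 5 → Set V) (h1 : ∀ i, Con G (Z i))
    (h2 : ∀ i j, i < j → Disjoint (Z i) (Z j))
    (h3 : ∀ i j, i < j → ∃ x ∈ Z i, ∃ y ∈ Z j, G.Adj x y) :
    HasMinor G (⊤ : SimpleGraph (Fin 5)) := by
  refine ⟨Z, h1, ?_, ?_⟩
  · intro i j hij
    rcases lt_or_gt_of_ne hij with h | h
    · exact h2 i j h
    · exact (h2 j i h).symm
  · intro i j hij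
    rcases lt_or_gt_of_ne hij.ne with h | h
    · exact h3 i j h
    · obtain ⟨x, hx, y, hy, hxy⟩ := h3 j i h
      exact ⟨y, hy, x, hx, hxy.symm⟩

/-- build a `K₃,₃` minor from connected sets -/
lemma hasMinor_k33 (A C : Fin 3 → Set V) (hA : ∀ i, Con G (A i)) (hC : ∀ i, Con G (C i))
    (h1 : ∀ i j, i < j → Disjoint (A i) (A j)) (h2 : ∀ i j, i < j → Disjoint (C i) (C j))
    (h3 : ∀ i j, Disjoint (A i) (C j))
    (h4 : ∀ i j, ∃ x ∈ A i, ∃ y ∈ C j, G.Adj x y) :
    HasMinor G (completeBipartiteGraph (Fin 3) (Fin 3)) := by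
  refine ⟨Sum.elim A C, ?_, ?_, ?_⟩
  · rintro (i | i)
    · exact hA i
    · exact hC i
  · rintro (i | i) (j | j) hij
    · rcases lt_or_gt_of_ne (fun h => hij (congrArg Sum.inl h) : i ≠ j) with h | h
      · exact h1 i j h
      · exact (h1 j i h).symm
    · exact h3 i j
    · exact (h3 j i).symm
    · rcases lt_or_gt_of_ne (fun h => hij (congrArg Sum.inr h) : i ≠ j) with h | h
      · exact h2 i j h
      · exact (h2 j i h).symm
  · rintro (i | i) (j | j) hij
    · simp [completeBipartiteGraph] at hij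
    · exact h4 i j
    · obtain ⟨x, hx, y, hy, h⟩ := h4 j i
      exact ⟨y, hy, x, hx, h.symm⟩
    · simp [completeBipartiteGraph] at hij

/-- the basic obstruction: a vertex linked to three common neighbours of `a` and `b` -/
lemma no_k33 (h : ¬ HasMinor G (completeBipartiteGraph (Fin 3) (Fin 3))) {X : Set V}
    {a b v c1 c2 c3 : V} (hab : a ≠ b) (h12 : c1 ≠ c2) (h13 : c1 ≠ c3) (h23 : c2 ≠ c3)
    (aX : a ∈ X) (bX : b ∈ X) (c1X : c1 ∈ X) (c2X : c2 ∈ X) (c3X : c3 ∈ X)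
    (a1 : G.Adj a c1) (a2 : G.Adj a c2) (a3 : G.Adj a c3)
    (b1 : G.Adj b c1) (b2 : G.Adj b c2) (b3 : G.Adj b c3)
    (l1 : Lnk G X v c1) (l2 : Lnk G X v c2) (l3 : Lnk G X v c3) : False := by
  apply h
  obtain ⟨Z, hZ, hX, ⟨z1, m1, e1⟩, ⟨z2, m2, e2⟩, ⟨z3, m3, e3⟩⟩ : ∃ Z : Set V, Con G Z ∧
      (∀ z ∈ Z, z ∉ X) ∧ (∃ z ∈ Z, G.Adj z c1) ∧ (∃ z ∈ Z, G.Adj z c2) ∧ (∃ z ∈ Z, G.Adj z c3) := by
    obtain ⟨Z1, v1, k1, x1, z1, m1, e1⟩ := l1
    obtain ⟨Z2, v2, k2, x2, z2, m2, e2⟩ := l2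
    obtain ⟨Z3, v3, k3, x3, z3, m3, e3⟩ := l3
    refine ⟨Z1 ∪ Z2 ∪ Z3, (k1.union k2 v1 v2).union k3 (Or.inl v1) v3, ?_,
      ⟨z1, Or.inl (Or.inl m1), e1⟩, ⟨z2, Or.inl (Or.inr m2), e2⟩, ⟨z3, Or.inr m3, e3⟩⟩
    rintro z ((hz | hz) | hz)
    · exact x1 z hz
    · exact x2 z hz
    · exact x3 z hz
  have hd : ∀ c ∈ X, Disjoint ({c} : Set V) Z := by
    intro c hc
    rw [Set.disjoint_singleton_left]
    exact fun hz => hX c hz hc
  refine hasMinor_k33 ![{a}, {b}, Z] ![{c1}, {c2}, {c3}] ?_ ?_ ?_ ?_ ?_ ?_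
  · intro i
    fin_cases i
    · exact con_single a
    · exact con_single b
    · exact hZ
  · intro i
    fin_cases i
    · exact con_single c1
    · exact con_single c2
    · exact con_single c3
  · intro i j hij
    fin_cases i <;> fin_cases j <;> simp at hij ⊢
    · exact hab
    · exact fun hz => hX a hz aX
    · exact fun hz => hX b hz bX
  · intro i j hij
    fin_cases i <;> fin_cases j <;> simp at hij ⊢
    · exact h12
    · exact h13
    · exact h23
  · intro i j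
    fin_cases i <;> fin_cases j
    · simpa using a1.ne
    · simpa using a2.ne
    · simpa using a3.ne
    · simpa using b1.ne
    · simpa using b2.ne
    · simpa using b3.ne
    · exact (hd c1 c1X).symm
    · exact (hd c2 c2X).symm
    · exact (hd c3 c3X).symm
  · intro i j
    fin_cases i <;> fin_cases j
    · exact ⟨a, rfl, c1, rfl, a1⟩
    · exact ⟨a, rfl, c2, rfl, a2⟩
    · exact ⟨a, rfl, c3, rfl, a3⟩
    · exact ⟨b, rfl, c1, rfl, b1⟩
    · exact ⟨b, rfl, c2, rfl, b2⟩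
    · exact ⟨b, rfl, c3, rfl, b3⟩
    · exact ⟨z1, m1, c1, rfl, e1⟩
    · exact ⟨z2, m2, c2, rfl, e2⟩
    · exact ⟨z3, m3, c3, rfl, e3⟩

end Pool.Agent.H39.RC
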