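import Mathlib
import Pool.Agent.H39.RCMinor

set_option autoImplicit false

namespace Pool.Agent.H39.RC

open Finset

variable {V : Type*} {G : SimpleGraph V}

/-- `v` is adjacent to `c` or has a common neighbour with it outside `A` -/
def Rch (G : SimpleGraph V) (A : Set V) (v c : V) : Prop :=
  G.Adj v c ∨ ∃ x, x ∉ A ∧ G.Adj v x ∧ G.Adj x c

lemma Rch.symm {A : Set V} {v c : V} (h : Rch G A v c) : Rch G A c v := by
  rcases h with h | ⟨x, h1, h2, h3⟩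
  · exact Or.inl h.symm
  · exact Or.inr ⟨x, h1, h3.symm, h2.symm⟩

/-- no vertex is adjacent to three common neighbours of `a` and `b` -/
lemma no_three (h : ¬ HasMinor G (completeBipartiteGraph (Fin 3) (Fin 3)))
    {a b x c1 c2 c3 : V} (hab : a ≠ b) (xa : x ≠ a) (xb : x ≠ b)
    (h12 : c1 ≠ c2) (h13 : c1 ≠ c3) (h23 : c2 ≠ c3)
    (a1 : G.Adj a c1) (a2 : G.Adj a c2) (a3 : G.Adj a c3)
    (b1 : G.Adj b c1) (b2 : G.Adj b c2) (b3 : G.Adj b c3)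
    (x1 : G.Adj x c1) (x2 : G.Adj x c2) (x3 : G.Adj x c3) : False := by
  have hx : x ∉ ({a, b, c1, c2, c3} : Set V) := by
    simp only [Set.mem_insert_iff, Set.mem_singleton_iff, not_or]
    exact ⟨xa, xb, x1.ne, x2.ne, x3.ne⟩
  exact no_k33 h (X := {a, b, c1, c2, c3}) hab h12 h13 h23 (by simp) (by simp) (by simp) (by simp)
    (by simp) a1 a2 a3 b1 b2 b3 (lnk_adj hx x1) (lnk_adj hx x2) (lnk_adj hx x3)

/-- a vertex reaches at most six common neighbours of `a` and `b` without using `a`, `b` -/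
lemma reach_bound (h : ¬ HasMinor G (completeBipartiteGraph (Fin 3) (Fin 3)))
    {a b v : V} (hab : a ≠ b) (va : v ≠ a) (vb : v ≠ b) (D : Finset V) (vD : v ∉ D)
    (ha : ∀ c ∈ D, G.Adj a c) (hb : ∀ c ∈ D, G.Adj b c) (hr : ∀ c ∈ D, Rch G {a, b} v c) :
    D.card ≤ 6 := by
  classical
  set X : Set V := {a, b} ∪ ↑D with hX
  have vX : v ∉ X := by
    simp only [hX, Set.mem_union, Set.mem_insert_iff, Set.mem_singleton_iff, Finset.mem_coe,
      not_or]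
    exact ⟨⟨va, vb⟩, vD⟩
  have aX : a ∈ X := by simp [hX]
  have bX : b ∈ X := by simp [hX]
  have DX : ∀ c ∈ D, c ∈ X := fun c hc => Or.inr hc
  set D1 := D.filter (fun c => Lnk G X v c) with hD1
  have hD1D : ∀ c ∈ D1, c ∈ D := fun c hc => (Finset.mem_filter.mp hc).1
  have h1 : D1.card ≤ 2 := by
    by_contra hcon
    obtain ⟨c1, m1, c2, m2, c3, m3, n12, n13, n23⟩ := Finset.two_lt_card.mp (not_le.mp hcon)
    exact no_k33 h hab n12 n13 n23 aX bX (DX _ (hD1D _ m1)) (DX _ (hD1D _ m2)) (DX _ (hD1D _ m3))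
      (ha _ (hD1D _ m1)) (ha _ (hD1D _ m2)) (ha _ (hD1D _ m3))
      (hb _ (hD1D _ m1)) (hb _ (hD1D _ m2)) (hb _ (hD1D _ m3))
      (Finset.mem_filter.mp m1).2 (Finset.mem_filter.mp m2).2 (Finset.mem_filter.mp m3).2
  have h2 : ∀ x ∈ D1, (D.filter (fun c => G.Adj x c)).card ≤ 2 := by
    intro x hx
    have hxD := hD1D x hx
    by_contra hcon
    obtain ⟨c1, m1, c2, m2, c3, m3, n12, n13, n23⟩ := Finset.two_lt_card.mp (not_le.mp hcon)
    rw [Finset.mem_filter] at m1 m2 m3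
    exact no_three h hab (ha x hxD).ne' (hb x hxD).ne' n12 n13 n23 (ha _ m1.1) (ha _ m2.1)
      (ha _ m3.1) (hb _ m1.1) (hb _ m2.1) (hb _ m3.1) m1.2 m2.2 m3.2
  have h3 : D ⊆ D1 ∪ D1.biUnion (fun x => D.filter (fun c => G.Adj x c)) := by
    intro c hc
    rw [Finset.mem_union, Finset.mem_biUnion]
    rcases hr c hc with hvc | ⟨x, hx, hvx, hxc⟩
    · left
      exact Finset.mem_filter.mpr ⟨hc, lnk_adj vX hvc⟩
    · by_cases hxD : x ∈ D
      · right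
        exact ⟨x, Finset.mem_filter.mpr ⟨hxD, lnk_adj vX hvx⟩, Finset.mem_filter.mpr ⟨hc, hxc⟩⟩
      · left
        have hxX : x ∉ X := by
          rintro (hx' | hx')
          · exact hx hx'
          · exact hxD hx'
        exact Finset.mem_filter.mpr ⟨hc, lnk_cons vX hvx (lnk_adj hxX hxc)⟩
  have h4 : (D1.biUnion (fun x => D.filter (fun c => G.Adj x c))).card ≤ D1.card * 2 :=
    Finset.card_biUnion_le_card_mul _ _ _ h2
  have h5 := (Finset.card_le_card h3).trans (Finset.card_union_le _ _)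
  omega

/-- a connector from `s` to `t`: either `s` itself or a vertex outside `U` -/
def Cnr (G : SimpleGraph V) (U : Set V) (s t y : V) : Prop :=
  (y = s ∨ (y ∉ U ∧ G.Adj s y)) ∧ G.Adj y t

/-- four common neighbours linked cyclically, and a spare one, give a `K₅` minor -/
lemma k5_of_cycle (h : ¬ HasMinor G (completeBipartiteGraph (Fin 3) (Fin 3)))
    {a b t1 t2 t3 t4 y12 y23 y34 y41 c : V} (hab : a ≠ b)
    (n12 : t1 ≠ t2) (n13 : t1 ≠ t3) (n14 : t1 ≠ t4) (n23 : t2 ≠ t3) (n24 : t2 ≠ t4) (n34 : t3 ≠ t4)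
    (a1 : G.Adj a t1) (a2 : G.Adj a t2) (a3 : G.Adj a t3) (a4 : G.Adj a t4)
    (b1 : G.Adj b t1) (b2 : G.Adj b t2) (b3 : G.Adj b t3) (b4 : G.Adj b t4)
    {U : Set V} (aU : a ∈ U) (bU : b ∈ U) (t1U : t1 ∈ U) (t2U : t2 ∈ U) (t3U : t3 ∈ U)
    (t4U : t4 ∈ U)
    (l12 : Cnr G U t1 t2 y12) (l23 : Cnr G U t2 t3 y23) (l34 : Cnr G U t3 t4 y34)
    (l41 : Cnr G U t4 t1 y41) (ac : G.Adj a c) (bc : G.Adj b c)
    (c1 : c ≠ t1) (c2 : c ≠ t2) (c3 : c ≠ t3) (c4 : c ≠ t4)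
    (c12 : c ≠ y12) (c23 : c ≠ y23) (c34 : c ≠ y34) (c41 : c ≠ y41) :
    HasMinor G (⊤ : SimpleGraph (Fin 5)) := by
  have F : ∀ x c1 c2 c3 : V, x ∉ U → c1 ≠ c2 → c1 ≠ c3 → c2 ≠ c3 →
      (G.Adj a c1 ∧ G.Adj b c1) → (G.Adj a c2 ∧ G.Adj b c2) → (G.Adj a c3 ∧ G.Adj b c3) →
      G.Adj x c1 → G.Adj x c2 → G.Adj x c3 → False := by
    intro x c1 c2 c3 hx h12 h13 h23 A1 A2 A3 x1 x2 x3
    have xa : x ≠ a := by
      rintro rfl
      exact hx aU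
    have xb : x ≠ b := by
      rintro rfl
      exact hx bU
    exact no_three h hab xa xb h12 h13 h23 A1.1 A2.1 A3.1 A1.2 A2.2 A3.2 x1 x2 x3
  obtain ⟨l12, e12⟩ := l12
  obtain ⟨l23, e23⟩ := l23
  obtain ⟨l34, e34⟩ := l34
  obtain ⟨l41, e41⟩ := l41
  have ne : ∀ {u y s : V}, u ∈ U → u ≠ s → (y = s ∨ (y ∉ U ∧ G.Adj s y)) → u ≠ y := by
    intro u y s hu hus hy
    rcases hy with rfl | hy
    · exact hus
    · intro e
      exact hy.1 (e ▸ hu)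
  -- disjointness of connectors
  have q1 : y12 ≠ y23 := by
    intro e
    rcases l12 with f | f
    · exact ne t1U n12 l23 (f.symm.trans e)
    · rcases l23 with g | g
      · exact f.1 (e.trans g ▸ t2U)
      · exact F y12 t1 t2 t3 f.1 n12 n13 n23 ⟨a1, b1⟩ ⟨a2, b2⟩ ⟨a3, b3⟩ f.2.symm e12 (e ▸ e23)
  have q2 : y12 ≠ y34 := by
    intro e
    rcases l12 with f | f
    · exact ne t1U n13 l34 (f.symm.trans e)
    · exact F y12 t1 t2 t4 f.1 n12 n14 n24 ⟨a1, b1⟩ ⟨a2, b2⟩ ⟨a4, b4⟩ f.2.symm e12 (e ▸ e34)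
  have q3 : y12 ≠ y41 := by
    intro e
    rcases l12 with f | f
    · exact ne t1U n14 l41 (f.symm.trans e)
    · rcases l41 with g | g
      · exact f.1 (e.trans g ▸ t4U)
      · exact F y12 t1 t2 t4 f.1 n12 n14 n24 ⟨a1, b1⟩ ⟨a2, b2⟩ ⟨a4, b4⟩ f.2.symm e12
          (e ▸ g.2.symm)
  have q4 : y23 ≠ y34 := by
    intro e
    rcases l23 with f | f
    · exact ne t2U n23 l34 (f.symm.trans e)
    · exact F y23 t2 t3 t4 f.1 n23 n24 n34 ⟨a2, b2⟩ ⟨a3, b3⟩ ⟨a4, b4⟩ f.2.symm e23 (e ▸ e34)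
  have q5 : y23 ≠ y41 := by
    intro e
    rcases l23 with f | f
    · exact ne t2U n24 l41 (f.symm.trans e)
    · exact F y23 t2 t3 t1 f.1 n23 n12.symm n13.symm ⟨a2, b2⟩ ⟨a3, b3⟩ ⟨a1, b1⟩ f.2.symm e23
        (e ▸ e41)
  have K4 : Con G {t3, y34, t4, y41} := by
    have k1 : Con G {t4, y41} := con_pair (by
      rcases l41 with g | g
      · exact Or.inl g.symm
      · exact Or.inr g.2)
    have k2 : Con G (insert y34 {t4, y41}) := k1.insert (Set.mem_insert _ _) e34.symm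
    rcases l34 with g | g
    · rw [g] at k2 ⊢
      rwa [Set.insert_eq_of_mem (Set.mem_insert _ _)]
    · exact k2.insert (Set.mem_insert _ _) g.2.symm
  have K2 : Con G {t1, y12} := con_pair (by
    rcases l12 with g | g
    · exact Or.inl g.symm
    · exact Or.inr g.2)
  have K3 : Con G {t2, y23} := con_pair (by
    rcases l23 with g | g
    · exact Or.inl g.symm
    · exact Or.inr g.2)
  have ay12 := ne aU a1.ne l12
  have ay23 := ne aU a2.ne l23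
  have ay34 := ne aU a3.ne l34
  have ay41 := ne aU a4.ne l41
  have by12 := ne bU b1.ne l12
  have by23 := ne bU b2.ne l23
  have by34 := ne bU b3.ne l34
  have by41 := ne bU b4.ne l41
  have t1y23 := ne t1U n12 l23
  have t1y34 := ne t1U n13 l34
  have t2y34 := ne t2U n23 l34
  have t2y41 := ne t2U n24 l41
  have t3y12 := ne t3U n13.symm l12
  have t4y12 := ne t4U n14.symm l12
  have t4y23 := ne t4U n24.symm l23
  have t1y41 := e41.ne'
  have t2y12 := e12.ne'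
  have t3y23 := e23.ne'
  refine hasMinor_k5 ![{a, c}, {b}, {t1, y12}, {t2, y23}, {t3, y34, t4, y41}] ?_ ?_ ?_
  · intro i
    fin_cases i
    · exact con_pair (Or.inr ac)
    · exact con_single b
    · exact K2
    · exact K3
    · exact K4
  · intro i j hij
    rw [Set.disjoint_left]
    fin_cases i <;> fin_cases j <;> simp only [Fin.reduceFinMk, Fin.zero_eta, Fin.mk_one, Fin.isValue, Fin.reduceLT, lt_self_iff_false, Fin.not_lt_zero, Matrix.cons_val, Matrix.cons_val_zero, Matrix.cons_val_one, Set.mem_insert_iff, Set.mem_singleton_iff, forall_eq_or_imp, forall_eq, not_or] at hij ⊢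
    · exact ⟨hab, bc.ne'⟩
    · exact ⟨⟨a1.ne, ay12⟩, c1, c12⟩
    · exact ⟨⟨a2.ne, ay23⟩, c2, c23⟩
    · exact ⟨⟨a3.ne, ay34, a4.ne, ay41⟩, c3, c34, c4, c41⟩
    · exact ⟨b1.ne, by12⟩
    · exact ⟨b2.ne, by23⟩
    · exact ⟨b3.ne, by34, b4.ne, by41⟩
    · exact ⟨⟨n12, t1y23⟩, t2y12.symm, q1⟩
    · exact ⟨⟨n13, t1y34, n14, t1y41⟩, t3y12.symm, q2, t4y12.symm, q3⟩
    · exact ⟨⟨n23, t2y34, n24, t2y41⟩, t3y23.symm, q4, t4y23.symm, q5⟩
  · intro i j hij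
    fin_cases i <;> fin_cases j <;> simp at hij
    · exact ⟨c, by simp, b, by simp, bc.symm⟩
    · exact ⟨a, by simp, t1, by simp, a1⟩
    · exact ⟨a, by simp, t2, by simp, a2⟩
    · exact ⟨a, by simp, t3, by simp, a3⟩
    · exact ⟨b, by simp, t1, by simp, b1⟩
    · exact ⟨b, by simp, t2, by simp, b2⟩
    · exact ⟨b, by simp, t3, by simp, b3⟩
    · exact ⟨y12, by simp, t2, by simp, e12⟩
    · exact ⟨t1, by simp, y41, by simp, e41.symm⟩
    · exact ⟨y23, by simp, t3, by simp, e23⟩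

lemma four_logic {L12 L13 L14 L23 L24 L34 : Prop} (d1 : ¬ (L12 ∧ L13 ∧ L14))
    (d2 : ¬ (L12 ∧ L23 ∧ L24)) (d3 : ¬ (L13 ∧ L23 ∧ L34)) (d4 : ¬ (L14 ∧ L24 ∧ L34))
    (e12 : L12 ∨ (L13 ∧ L23) ∨ (L14 ∧ L24)) (e13 : L13 ∨ (L12 ∧ L23) ∨ (L14 ∧ L34))
    (e14 : L14 ∨ (L12 ∧ L24) ∨ (L13 ∧ L34)) (e23 : L23 ∨ (L12 ∧ L13) ∨ (L24 ∧ L34))
    (e24 : L24 ∨ (L12 ∧ L14) ∨ (L23 ∧ L34)) (e34 : L34 ∨ (L13 ∧ L14) ∨ (L23 ∧ L24)) :
    (L12 ∧ L23 ∧ L34 ∧ L14) ∨ (L12 ∧ L24 ∧ L34 ∧ L13) ∨ (L13 ∧ L23 ∧ L24 ∧ L14) := by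
  by_cases h12 : L12 <;> by_cases h13 : L13 <;> by_cases h14 : L14 <;> by_cases h23 : L23 <;>
    by_cases h24 : L24 <;> by_cases h34 : L34 <;> simp_all

/-- linked directly or through a vertex outside `U` -/
def Lk (G : SimpleGraph V) (U : Set V) (s t : V) : Prop :=
  G.Adj s t ∨ ∃ x, x ∉ U ∧ G.Adj s x ∧ G.Adj x t

lemma Lk.symm {U : Set V} {s t : V} (h : Lk G U s t) : Lk G U t s := by
  rcases h with h | ⟨x, h1, h2, h3⟩
  · exact Or.inl h.symm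
  · exact Or.inr ⟨x, h1, h3.symm, h2.symm⟩

lemma Lk.cnr {U : Set V} {s t : V} (h : Lk G U s t) : ∃ y, Cnr G U s t y := by
  rcases h with h | ⟨x, h1, h2, h3⟩
  · exact ⟨s, Or.inl rfl, h⟩
  · exact ⟨x, Or.inr ⟨h1, h2⟩, h3⟩

lemma set_perm1 (a b c d e f : V) : ({a, b, c, e, d, f} : Set V) = {a, b, c, d, e, f} := by
  ext x
  simp only [Set.mem_insert_iff, Set.mem_singleton_iff]
  tauto

lemma set_perm2 (a b c d e f : V) : ({a, b, c, f, d, e} : Set V) = {a, b, c, d, e, f} := by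
  ext x
  simp only [Set.mem_insert_iff, Set.mem_singleton_iff]
  tauto

lemma set_perm3 (a b c d e f : V) : ({a, b, d, e, c, f} : Set V) = {a, b, c, d, e, f} := by
  ext x
  simp only [Set.mem_insert_iff, Set.mem_singleton_iff]
  tauto

lemma set_perm4 (a b c d e f : V) : ({a, b, d, f, c, e} : Set V) = {a, b, c, d, e, f} := by
  ext x
  simp only [Set.mem_insert_iff, Set.mem_singleton_iff]
  tauto

lemma set_perm5 (a b c d e f : V) : ({a, b, e, f, c, d} : Set V) = {a, b, c, d, e, f} := by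
  ext x
  simp only [Set.mem_insert_iff, Set.mem_singleton_iff]
  tauto

lemma lk_deg (h33 : ¬ HasMinor G (completeBipartiteGraph (Fin 3) (Fin 3))) {a b s u v w : V}
    (hab : a ≠ b) {U : Set V} (aU : a ∈ U) (bU : b ∈ U) (uU : u ∈ U) (vU : v ∈ U) (wU : w ∈ U)
    (as : G.Adj a s) (bs : G.Adj b s) (su : s ≠ u) (sv : s ≠ v) (sw : s ≠ w)
    (n1 : u ≠ v) (n2 : u ≠ w) (n3 : v ≠ w)
    (A1 : G.Adj a u) (A2 : G.Adj a v) (A3 : G.Adj a w)
    (B1 : G.Adj b u) (B2 : G.Adj b v) (B3 : G.Adj b w) :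
    ¬ (Lk G U s u ∧ Lk G U s v ∧ Lk G U s w) := by
  rintro ⟨l1, l2, l3⟩
  have hs : s ∉ ({a, b, u, v, w} : Set V) := by
    simp only [Set.mem_insert_iff, Set.mem_singleton_iff, not_or]
    exact ⟨as.ne', bs.ne', su, sv, sw⟩
  have hsub : ({a, b, u, v, w} : Set V) ⊆ U := by
    simp only [Set.insert_subset_iff, Set.singleton_subset_iff]
    exact ⟨aU, bU, uU, vU, wU⟩
  have key : ∀ {z}, Lk G U s z → Lnk G {a, b, u, v, w} s z := by
    rintro z (h | ⟨x, h1, h2, h3⟩)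
    · exact lnk_adj hs h
    · exact lnk_cons hs h2 (lnk_adj (fun hx => h1 (hsub hx)) h3)
  exact no_k33 h33 (X := {a, b, u, v, w}) hab n1 n2 n3 (by simp) (by simp) (by simp) (by simp)
    (by simp) A1 A2 A3 B1 B2 B3 (key l1) (key l2) (key l3)

lemma lk_of_rch {a b s t u v : V} {U : Set V} (hUe : ({a, b, s, t, u, v} : Set V) = U)
    (h : Rch G {a, b} s t) :
    Lk G U s t ∨ (Lk G U s u ∧ Lk G U u t) ∨ (Lk G U s v ∧ Lk G U v t) := by
  rcases h with h | ⟨x, hx, h1, h2⟩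
  · exact Or.inl (Or.inl h)
  · by_cases hxU : x ∈ U
    · rw [← hUe] at hxU
      simp only [Set.mem_insert_iff, Set.mem_singleton_iff] at hxU hx
      rcases hxU with e | e | e | e | e | e
      · exact absurd (Or.inl e) hx
      · exact absurd (Or.inr e) hx
      · exact absurd e h1.ne'
      · exact absurd e h2.ne
      · subst e
        exact Or.inr (Or.inl ⟨Or.inl h1, Or.inl h2⟩)
      · subst e
        exact Or.inr (Or.inr ⟨Or.inl h1, Or.inl h2⟩)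
    · exact Or.inl (Or.inr ⟨x, hxU, h1, h2⟩)

lemma lk_cycle (hG : Planar G) {a b : V} (hab : a ≠ b) (C : Finset V) (hC : 9 ≤ C.card)
    (ha : ∀ c ∈ C, G.Adj a c) (hb : ∀ c ∈ C, G.Adj b c) {U : Set V} (aU : a ∈ U) (bU : b ∈ U)
    {p1 p2 p3 p4 : V} (k12 : p1 ≠ p2) (k13 : p1 ≠ p3) (k14 : p1 ≠ p4) (k23 : p2 ≠ p3)
    (k24 : p2 ≠ p4) (k34 : p3 ≠ p4) (u1 : p1 ∈ U) (u2 : p2 ∈ U) (u3 : p3 ∈ U) (u4 : p4 ∈ U)
    (A1 : G.Adj a p1) (A2 : G.Adj a p2) (A3 : G.Adj a p3) (A4 : G.Adj a p4)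
    (B1 : G.Adj b p1) (B2 : G.Adj b p2) (B3 : G.Adj b p3) (B4 : G.Adj b p4)
    (l12 : Lk G U p1 p2) (l23 : Lk G U p2 p3) (l34 : Lk G U p3 p4) (l41 : Lk G U p4 p1) :
    False := by
  classical
  obtain ⟨y12, c12⟩ := l12.cnr
  obtain ⟨y23, c23⟩ := l23.cnr
  obtain ⟨y34, c34⟩ := l34.cnr
  obtain ⟨y41, c41⟩ := l41.cnr
  have hcard : ({p1, p2, p3, p4, y12, y23, y34, y41} : Finset V).card < C.card :=
    lt_of_le_of_lt (b := 8) ((Finset.card_insert_le _ _).trans (Nat.succ_le_succ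
      ((Finset.card_insert_le _ _).trans (Nat.succ_le_succ Finset.card_le_six)))) (by omega)
  obtain ⟨c, hcC, hcn⟩ := Finset.exists_mem_notMem_of_card_lt_card hcard
  simp only [Finset.mem_insert, Finset.mem_singleton, not_or] at hcn
  obtain ⟨n1, n2, n3, n4, n5, n6, n7, n8⟩ := hcn
  exact hG.1 (k5_of_cycle hG.2 hab k12 k13 k14 k23 k24 k34 A1 A2 A3 A4 B1 B2 B3 B4
    aU bU u1 u2 u3 u4 c12 c23 c34 c41 (ha c hcC) (hb c hcC) n1 n2 n3 n4 n5 n6 n7 n8)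

/-- among many common neighbours of `a` and `b`, at most three are pairwise reachable without using
`a` and `b` -/
lemma three_bound (hG : Planar G) {a b : V} (hab : a ≠ b) (C T : Finset V) (hC : 9 ≤ C.card)
    (ha : ∀ c ∈ C, G.Adj a c) (hb : ∀ c ∈ C, G.Adj b c)
    (haT : ∀ c ∈ T, G.Adj a c) (hbT : ∀ c ∈ T, G.Adj b c)
    (hT : ∀ s ∈ T, ∀ t ∈ T, s ≠ t → Rch G {a, b} s t) : T.card ≤ 3 := by
  classical
  by_contra hcon
  obtain ⟨h5, h33⟩ := hG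
  obtain ⟨T', hT'T, hT'⟩ := Finset.exists_subset_card_eq (not_le.mp hcon : 4 ≤ T.card)
  obtain ⟨t1, T3, n1, rfl, hT3⟩ := Finset.card_eq_succ.mp hT'
  obtain ⟨t2, t3, t4, n23, n24, n34, rfl⟩ := Finset.card_eq_three.mp hT3
  simp only [Finset.mem_insert, Finset.mem_singleton, not_or] at n1
  obtain ⟨n12, n13, n14⟩ := n1
  have m1 : t1 ∈ T := hT'T (by simp)
  have m2 : t2 ∈ T := hT'T (by simp)
  have m3 : t3 ∈ T := hT'T (by simp)
  have m4 : t4 ∈ T := hT'T (by simp)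
  obtain ⟨U, hU⟩ : ∃ U : Set V, ({a, b, t1, t2, t3, t4} : Set V) = U := ⟨_, rfl⟩
  have a1 := haT t1 m1
  have a2 := haT t2 m2
  have a3 := haT t3 m3
  have a4 := haT t4 m4
  have b1 := hbT t1 m1
  have b2 := hbT t2 m2
  have b3 := hbT t3 m3
  have b4 := hbT t4 m4
  have aU : a ∈ U := by simp [← hU]
  have bU : b ∈ U := by simp [← hU]
  have t1U : t1 ∈ U := by simp [← hU]
  have t2U : t2 ∈ U := by simp [← hU]
  have t3U : t3 ∈ U := by simp [← hU]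
  have t4U : t4 ∈ U := by simp [← hU]
  have D1 := lk_deg h33 hab aU bU t2U t3U t4U a1 b1 n12 n13 n14 n23 n24 n34 a2 a3 a4 b2 b3 b4
  have D2 := lk_deg h33 hab aU bU t1U t3U t4U a2 b2 (Ne.symm n12) n23 n24 n13 n14 n34
    a1 a3 a4 b1 b3 b4
  have D3 := lk_deg h33 hab aU bU t1U t2U t4U a3 b3 (Ne.symm n13) n23.symm n34 n12 n14 n24
    a1 a2 a4 b1 b2 b4
  have D4 := lk_deg h33 hab aU bU t1U t2U t3U a4 b4 (Ne.symm n14) n24.symm n34.symm n12 n13 n23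
    a1 a2 a3 b1 b2 b3
  have E12 := lk_of_rch hU (hT t1 m1 t2 m2 n12)
  have E13 := lk_of_rch ((set_perm1 a b t1 t2 t3 t4).trans hU) (hT t1 m1 t3 m3 n13)
  have E14 := lk_of_rch ((set_perm2 a b t1 t2 t3 t4).trans hU) (hT t1 m1 t4 m4 n14)
  have E23 := lk_of_rch ((set_perm3 a b t1 t2 t3 t4).trans hU) (hT t2 m2 t3 m3 n23)
  have E24 := lk_of_rch ((set_perm4 a b t1 t2 t3 t4).trans hU) (hT t2 m2 t4 m4 n24)
  have E34 := lk_of_rch ((set_perm5 a b t1 t2 t3 t4).trans hU) (hT t3 m3 t4 m4 n34)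
  have sy : ∀ s t, Lk G U s t ↔ Lk G U t s := fun s t => ⟨Lk.symm, Lk.symm⟩
  rw [sy t2 t1] at D2
  rw [sy t3 t1, sy t3 t2] at D3
  rw [sy t4 t1, sy t4 t2, sy t4 t3] at D4
  rw [sy t3 t2, sy t4 t2] at E12
  rw [sy t4 t3] at E13
  rw [sy t2 t1, sy t4 t3] at E23
  rw [sy t2 t1] at E24
  rw [sy t3 t1, sy t3 t2] at E34
  rcases four_logic D1 D2 D3 D4 E12 E13 E14 E23 E24 E34 with
    ⟨k12, k23, k34, k14⟩ | ⟨k12, k24, k34, k13⟩ | ⟨k13, k23, k24, k14⟩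
  · exact lk_cycle ⟨h5, h33⟩ hab C hC ha hb aU bU n12 n13 n14 n23 n24 n34 t1U t2U t3U t4U a1 a2 a3
      a4 b1 b2 b3 b4 k12 k23 k34 k14.symm
  · exact lk_cycle ⟨h5, h33⟩ hab C hC ha hb aU bU n12 n14 n13 n24 n23 n34.symm t1U t2U t4U t3U a1
      a2 a4 a3 b1 b2 b4 b3 k12 k24 k34.symm k13.symm
  · exact lk_cycle ⟨h5, h33⟩ hab C hC ha hb aU bU n13 n12 n14 n23.symm n34 n24 t1U t3U t2U t4U a1
      a3 a2 a4 b1 b3 b2 b4 k13 k23.symm k24 k14.symm

end Pool.Agent.H39.RC
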