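import Mathlib
import Pool.Agent.H39.RCPlanar

set_option autoImplicit false

namespace Pool.Agent.H39.RC

open Finset

variable {V : Type*} {G : SimpleGraph V}

open Classical in
/-- the vertices `x` of `S` having a common neighbour with `r` and `r'` -/
noncomputable def bad (G : SimpleGraph V) (S : Finset V) (r r' : V) : Finset V :=
  S.filter (fun x => x ≠ r ∧ x ≠ r' ∧ ∃ b, G.Adj b r ∧ G.Adj b r' ∧ G.Adj b x)

open Classical in
lemma bad_bound (h33 : ¬ HasMinor G (completeBipartiteGraph (Fin 3) (Fin 3))) (S : Finset V)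
    (hS : ∀ s ∈ S, ∀ t ∈ S, s ≠ t → Rch G ∅ s t) (d : ℕ)
    (hd : ∀ b, (S.filter (fun x => G.Adj b x)).card ≤ d) {r r' : V} (hr : r ≠ r') :
    (bad G S r r').card ≤ 11 * d := by
  set T' := S.filter (fun x => x ≠ r ∧ x ≠ r' ∧ ¬ G.Adj r x ∧ ¬ G.Adj r' x ∧
    ∃ b, G.Adj b r ∧ G.Adj b r' ∧ G.Adj b x) with hT'
  have hsub : bad G S r r' ⊆ S.filter (fun x => G.Adj r x) ∪ S.filter (fun x => G.Adj r' x) ∪ T' := by
    intro x hx
    obtain ⟨hxS, h1, h2, h3⟩ := Finset.mem_filter.mp hx
    rw [Finset.mem_union, Finset.mem_union]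
    by_cases h4 : G.Adj r x
    · exact Or.inl (Or.inl (Finset.mem_filter.mpr ⟨hxS, h4⟩))
    · by_cases h5 : G.Adj r' x
      · exact Or.inl (Or.inr (Finset.mem_filter.mpr ⟨hxS, h5⟩))
      · exact Or.inr (Finset.mem_filter.mpr ⟨hxS, h1, h2, h4, h5, h3⟩)
  -- choice of the common neighbour
  have hch : ∀ x : V, ∃ b : V, x ∈ T' → G.Adj b r ∧ G.Adj b r' ∧ G.Adj b x := by
    intro x
    by_cases hx : x ∈ T'
    · obtain ⟨-, -, -, -, -, b, hb⟩ := Finset.mem_filter.mp hx
      exact ⟨b, fun _ => hb⟩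
    · exact ⟨x, fun h => absurd h hx⟩
  choose β hβ using hch
  set I := T'.image β with hI
  have hIcard : I.card ≤ 9 := by
    by_cases hne : T'.Nonempty
    swap
    · rw [Finset.not_nonempty_iff_eq_empty] at hne
      rw [hI, hne]
      simp
    obtain ⟨v, hv⟩ := hne
    -- section
    have hsec : ∀ b : V, ∃ x : V, b ∈ I → x ∈ T' ∧ β x = b := by
      intro b
      by_cases hb : b ∈ I
      · obtain ⟨x, hx, he⟩ := Finset.mem_image.mp hb
        exact ⟨x, fun _ => ⟨hx, he⟩⟩
      · exact ⟨b, fun h => absurd h hb⟩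
    choose ξ hξ using hsec
    have hIr : ∀ b ∈ I, G.Adj r b := by
      intro b hb
      obtain ⟨x, hx, rfl⟩ := Finset.mem_image.mp hb
      exact (hβ x hx).1.symm
    have hIr' : ∀ b ∈ I, G.Adj r' b := by
      intro b hb
      obtain ⟨x, hx, rfl⟩ := Finset.mem_image.mp hb
      exact (hβ x hx).2.1.symm
    set X : Set V := {r, r'} ∪ ↑I with hX
    have rX : r ∈ X := by simp [hX]
    have r'X : r' ∈ X := by simp [hX]
    have IX : ∀ b ∈ I, b ∈ X := fun b hb => Or.inr hb
    have T'X : ∀ x ∈ T', x ∉ X := by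
      intro x hx hxX
      obtain ⟨-, h1, h2, h3, h4, -⟩ := Finset.mem_filter.mp hx
      rcases hxX with (rfl | h) | h
      · exact h1 rfl
      · exact h2 h
      · exact h3 (hIr x h)
    have vX := T'X v hv
    have hT'S : ∀ x ∈ T', x ∈ S := fun x hx => (Finset.mem_filter.mp hx).1
    set J1 := I.filter (fun b => Lnk G X v b) with hJ1
    have hJ1I : ∀ b ∈ J1, b ∈ I := fun b hb => (Finset.mem_filter.mp hb).1
    have c1 : J1.card ≤ 2 := by
      by_contra hcon
      obtain ⟨b1, m1, b2, m2, b3, m3, n12, n13, n23⟩ := Finset.two_lt_card.mp (not_le.mp hcon)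
      exact no_k33 h33 hr n12 n13 n23 rX r'X (IX _ (hJ1I _ m1)) (IX _ (hJ1I _ m2))
        (IX _ (hJ1I _ m3)) (hIr _ (hJ1I _ m1)) (hIr _ (hJ1I _ m2)) (hIr _ (hJ1I _ m3))
        (hIr' _ (hJ1I _ m1)) (hIr' _ (hJ1I _ m2)) (hIr' _ (hJ1I _ m3))
        (Finset.mem_filter.mp m1).2 (Finset.mem_filter.mp m2).2 (Finset.mem_filter.mp m3).2
    set W := insert (β v) J1 with hW
    have hWI : ∀ z ∈ W, z ∈ I := by
      intro z hz
      rcases Finset.mem_insert.mp hz with rfl | hz
      · exact Finset.mem_image_of_mem _ hv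
      · exact hJ1I z hz
    have c2 : W.card ≤ 3 := (Finset.card_insert_le _ _).trans (by omega)
    have c3 : ∀ z ∈ W, (I.filter (fun b => b ≠ z ∧ G.Adj z (ξ b))).card ≤ 2 := by
      intro z hz
      by_contra hcon
      obtain ⟨b1, m1, b2, m2, b3, m3, n12, n13, n23⟩ := Finset.two_lt_card.mp (not_le.mp hcon)
      rw [Finset.mem_filter] at m1 m2 m3
      have hzI := hWI z hz
      have hsub' : ({r, r', b1, b2, b3} : Set V) ⊆ X := by
        simp only [Set.insert_subset_iff, Set.singleton_subset_iff]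
        exact ⟨rX, r'X, IX _ m1.1, IX _ m2.1, IX _ m3.1⟩
      have hzX : z ∉ ({r, r', b1, b2, b3} : Set V) := by
        simp only [Set.mem_insert_iff, Set.mem_singleton_iff, not_or]
        exact ⟨(hIr z hzI).ne', (hIr' z hzI).ne', m1.2.1.symm, m2.2.1.symm, m3.2.1.symm⟩
      have key : ∀ b, b ∈ I → G.Adj z (ξ b) → Lnk G {r, r', b1, b2, b3} z b := by
        intro b hb hzb
        obtain ⟨hx, he⟩ := hξ b hb
        refine lnk_cons hzX hzb (lnk_adj (fun h => T'X _ hx (hsub' h)) ?_)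
        have := (hβ _ hx).2.2
        rw [he] at this
        exact this.symm
      exact no_k33 h33 (X := {r, r', b1, b2, b3}) hr n12 n13 n23 (by simp) (by simp) (by simp)
        (by simp) (by simp) (hIr _ m1.1) (hIr _ m2.1) (hIr _ m3.1) (hIr' _ m1.1) (hIr' _ m2.1)
        (hIr' _ m3.1) (key _ m1.1 m1.2.2) (key _ m2.1 m2.2.2) (key _ m3.1 m3.2.2)
    have hcover : I ⊆ W ∪ W.biUnion (fun z => I.filter (fun b => b ≠ z ∧ G.Adj z (ξ b))) := by
      intro b hb
      rw [Finset.mem_union]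
      by_cases hbW : b ∈ W
      · exact Or.inl hbW
      · right
        have hbv : b ≠ β v := fun h => hbW (h ▸ Finset.mem_insert_self _ _)
        have hbJ : ¬ Lnk G X v b := fun h => hbW
          (Finset.mem_insert_of_mem (Finset.mem_filter.mpr ⟨hb, h⟩))
        obtain ⟨hx, he⟩ := hξ b hb
        have hxb : G.Adj (ξ b) b := by
          have := (hβ _ hx).2.2
          rw [he] at this
          exact this.symm
        have hne : v ≠ ξ b := by
          intro h
          rw [← h] at he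
          exact hbv he.symm
        rcases hS v (hT'S v hv) (ξ b) (hT'S _ hx) hne with h | ⟨z, -, h1, h2⟩
        · exact absurd (lnk_cons vX h (lnk_adj (T'X _ hx) hxb)) hbJ
        · obtain ⟨-, -, -, w3, w4, -⟩ := Finset.mem_filter.mp hv
          by_cases hzI : z ∈ I
          · rw [Finset.mem_biUnion]
            have hzb : b ≠ z := by
              rintro rfl
              exact hbJ (lnk_adj vX h1)
            exact ⟨z, Finset.mem_insert_of_mem (Finset.mem_filter.mpr ⟨hzI, lnk_adj vX h1⟩),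
              Finset.mem_filter.mpr ⟨hb, hzb, h2⟩⟩
          · exfalso
            have hzX : z ∉ X := by
              rintro ((rfl | h) | h)
              · exact w3 h1.symm
              · rw [Set.mem_singleton_iff] at h
                rw [h] at h1
                exact w4 h1.symm
              · exact hzI h
            exact hbJ (lnk_cons vX h1 (lnk_cons hzX h2 (lnk_adj (T'X _ hx) hxb)))
    have h4 := Finset.card_biUnion_le_card_mul W
      (fun z => I.filter (fun b => b ≠ z ∧ G.Adj z (ξ b))) 2 c3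
    have h5 := (Finset.card_le_card hcover).trans (Finset.card_union_le _ _)
    omega
  have hT'card : T'.card ≤ 9 * d := by
    have hc : T' ⊆ I.biUnion (fun b => S.filter (fun x => G.Adj b x)) := by
      intro x hx
      rw [Finset.mem_biUnion]
      exact ⟨β x, Finset.mem_image_of_mem _ hx, Finset.mem_filter.mpr
        ⟨(Finset.mem_filter.mp hx).1, (hβ x hx).2.2⟩⟩
    have h1 := Finset.card_biUnion_le_card_mul I (fun b => S.filter (fun x => G.Adj b x)) d
      (fun b _ => hd b)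
    exact (Finset.card_le_card hc).trans (h1.trans (Nat.mul_le_mul_right d hIcard))
  have h1 := (Finset.card_le_card hsub).trans (Finset.card_union_le _ _)
  have h2 := Finset.card_union_le (S.filter (fun x => G.Adj r x)) (S.filter (fun x => G.Adj r' x))
  have h3 := hd r
  have h4 := hd r'
  omega

lemma con_star (v : V) (A : Set V) (h : ∀ x ∈ A, G.Adj v x) : Con G (insert v A) := by
  unfold Con
  rw [SimpleGraph.connected_iff_exists_forall_reachable]
  refine ⟨⟨v, Set.mem_insert _ _⟩, ?_⟩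
  rintro ⟨x, hx⟩
  rcases Set.mem_insert_iff.mp hx with rfl | hx'
  · exact SimpleGraph.Reachable.refl _
  · apply SimpleGraph.Adj.reachable
    exact h x hx'

/-- five vertices in general position give a `K₅` minor -/
lemma k5_of_five (r : Fin 5 → V) (x : Fin 5 → Fin 5 → V)
    (h1 : ∀ i j, i < j → r i ≠ r j ∧ ¬ G.Adj (r i) (r j))
    (h2 : ∀ i j, i < j → G.Adj (r i) (x i j) ∧ G.Adj (x i j) (r j))
    (h3 : ∀ i j k, i < j → j < k → ∀ b, ¬ (G.Adj b (r i) ∧ G.Adj b (r j) ∧ G.Adj b (r k))) :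
    HasMinor G (⊤ : SimpleGraph (Fin 5)) := by
  refine hasMinor_k5 (fun i => insert (r i) ((fun j => x i j) '' {j | i < j})) ?_ ?_ ?_
  · intro i
    apply con_star
    rintro _ ⟨j, hj, rfl⟩
    exact (h2 i j hj).1
  · intro i j hij
    rw [Set.disjoint_left]
    rintro u hu hu'
    rcases Set.mem_insert_iff.mp hu with rfl | ⟨k, hk, rfl⟩
    · rcases Set.mem_insert_iff.mp hu' with h | ⟨l, hl, h⟩
      · exact (h1 i j hij).1 h
      · have := (h2 j l hl).1
        have h' : x j l = r i := h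
        rw [h'] at this
        exact (h1 i j hij).2 this.symm
    · rcases Set.mem_insert_iff.mp hu' with h | ⟨l, hl, h⟩
      · have := (h2 i k hk).1
        have h' : x i k = r j := h
        rw [h'] at this
        exact (h1 i j hij).2 this
      · have h' : x j l = x i k := h
        have e1 := (h2 i k hk).1
        have e2 := (h2 j l hl).1
        have e3 := (h2 j l hl).2
        rw [h'] at e2 e3
        exact h3 i j l hij hl (x i k) ⟨e1.symm, e2.symm, e3⟩
  · intro i j hij
    exact ⟨x i j, Set.mem_insert_of_mem _ ⟨j, hij, rfl⟩, r j, Set.mem_insert _ _, (h2 i j hij).2⟩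

open Classical in
/-- a set of pairwise reachable vertices is small if all vertices have few neighbours in it -/
lemma global_bound (hG : Planar G) (S : Finset V)
    (hS : ∀ s ∈ S, ∀ t ∈ S, s ≠ t → Rch G ∅ s t) (d : ℕ)
    (hd : ∀ b, (S.filter (fun x => G.Adj b x)).card ≤ d) : S.card ≤ 70 * d + 4 := by
  by_contra hcon
  have hB : ∀ {r r' : V}, r ≠ r' → (bad G S r r').card ≤ 11 * d :=
    fun h => bad_bound hG.2 S hS d hd h
  have nb : ∀ {r s : V} , s ∈ S → s ∉ insert r (S.filter (fun x => G.Adj r x)) →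
      r ≠ s ∧ ¬ G.Adj r s := by
    intro r s hs h
    rw [Finset.mem_insert, Finset.mem_filter, not_or] at h
    exact ⟨fun e => h.1 e.symm, fun e => h.2 ⟨hs, e⟩⟩
  have cn : ∀ r, (insert r (S.filter (fun x => G.Adj r x))).card ≤ d + 1 := fun r =>
    (Finset.card_insert_le _ _).trans (Nat.succ_le_succ (hd r))
  have tb : ∀ {r r' s : V}, s ∈ S → r ≠ s → r' ≠ s → s ∉ bad G S r r' →
      ∀ b, ¬ (G.Adj b r ∧ G.Adj b r' ∧ G.Adj b s) := by
    intro r r' s hs h1 h2 h3 b hb
    exact h3 (Finset.mem_filter.mpr ⟨hs, h1.symm, h2.symm, b, hb⟩)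
  let N : V → Finset V := fun r => insert r (S.filter (fun x => G.Adj r x))
  have cN : ∀ r, (N r).card ≤ d + 1 := cn
  have nN : ∀ {r s : V} , s ∈ S → s ∉ N r → r ≠ s ∧ ¬ G.Adj r s := nb
  -- choose the five vertices
  obtain ⟨r1, m1⟩ : S.Nonempty := by
    rw [← Finset.card_pos]
    omega
  obtain ⟨r2, m2, k2⟩ := Finset.exists_mem_notMem_of_card_lt_card
    (s := N r1) (t := S) (lt_of_le_of_lt (cN r1) (by omega))
  have n12 := nN m2 k2
  have l12 := hB n12.1
  have u3 : (N r1 ∪ N r2 ∪ bad G S r1 r2).card < S.card := by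
    have h1 := Finset.card_union_le (N r1 ∪ N r2) (bad G S r1 r2)
    have h2 := Finset.card_union_le (N r1) (N r2)
    have := cN r1
    have := cN r2
    omega
  obtain ⟨r3, m3, k3⟩ := Finset.exists_mem_notMem_of_card_lt_card u3
  simp only [Finset.mem_union, not_or] at k3
  obtain ⟨⟨k31, k32⟩, k312⟩ := k3
  have n13 := nN m3 k31
  have n23 := nN m3 k32
  have l13 := hB n13.1
  have l23 := hB n23.1
  have t123 := tb m3 n13.1 n23.1 k312
  have u4 : (N r1 ∪ N r2 ∪ N r3 ∪ bad G S r1 r2 ∪ bad G S r1 r3 ∪ bad G S r2 r3).card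
      < S.card := by
    have h1 := Finset.card_union_le (N r1 ∪ N r2 ∪ N r3 ∪ bad G S r1 r2 ∪ bad G S r1 r3)
      (bad G S r2 r3)
    have h2 := Finset.card_union_le (N r1 ∪ N r2 ∪ N r3 ∪ bad G S r1 r2) (bad G S r1 r3)
    have h3 := Finset.card_union_le (N r1 ∪ N r2 ∪ N r3) (bad G S r1 r2)
    have h4 := Finset.card_union_le (N r1 ∪ N r2) (N r3)
    have h5 := Finset.card_union_le (N r1) (N r2)
    have := cN r1
    have := cN r2
    have := cN r3
    omega
  obtain ⟨r4, m4, k4⟩ := Finset.exists_mem_notMem_of_card_lt_card u4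
  simp only [Finset.mem_union, not_or] at k4
  obtain ⟨⟨⟨⟨⟨k41, k42⟩, k43⟩, k412⟩, k413⟩, k423⟩ := k4
  have n14 := nN m4 k41
  have n24 := nN m4 k42
  have n34 := nN m4 k43
  have l14 := hB n14.1
  have l24 := hB n24.1
  have l34 := hB n34.1
  have t124 := tb m4 n14.1 n24.1 k412
  have t134 := tb m4 n14.1 n34.1 k413
  have t234 := tb m4 n24.1 n34.1 k423
  have u5 : (N r1 ∪ N r2 ∪ N r3 ∪ N r4 ∪ bad G S r1 r2 ∪ bad G S r1 r3 ∪ bad G S r2 r3 ∪
      bad G S r1 r4 ∪ bad G S r2 r4 ∪ bad G S r3 r4).card < S.card := by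
    have h1 := Finset.card_union_le (N r1 ∪ N r2 ∪ N r3 ∪ N r4 ∪ bad G S r1 r2 ∪ bad G S r1 r3 ∪
      bad G S r2 r3 ∪ bad G S r1 r4 ∪ bad G S r2 r4) (bad G S r3 r4)
    have h2 := Finset.card_union_le (N r1 ∪ N r2 ∪ N r3 ∪ N r4 ∪ bad G S r1 r2 ∪ bad G S r1 r3 ∪
      bad G S r2 r3 ∪ bad G S r1 r4) (bad G S r2 r4)
    have h3 := Finset.card_union_le (N r1 ∪ N r2 ∪ N r3 ∪ N r4 ∪ bad G S r1 r2 ∪ bad G S r1 r3 ∪
      bad G S r2 r3) (bad G S r1 r4)
    have h4 := Finset.card_union_le (N r1 ∪ N r2 ∪ N r3 ∪ N r4 ∪ bad G S r1 r2 ∪ bad G S r1 r3)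
      (bad G S r2 r3)
    have h5 := Finset.card_union_le (N r1 ∪ N r2 ∪ N r3 ∪ N r4 ∪ bad G S r1 r2) (bad G S r1 r3)
    have h6 := Finset.card_union_le (N r1 ∪ N r2 ∪ N r3 ∪ N r4) (bad G S r1 r2)
    have h7 := Finset.card_union_le (N r1 ∪ N r2 ∪ N r3) (N r4)
    have h8 := Finset.card_union_le (N r1 ∪ N r2) (N r3)
    have h9 := Finset.card_union_le (N r1) (N r2)
    have := cN r1
    have := cN r2
    have := cN r3
    have := cN r4
    omega
  obtain ⟨r5, m5, k5⟩ := Finset.exists_mem_notMem_of_card_lt_card u5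
  simp only [Finset.mem_union, not_or] at k5
  obtain ⟨⟨⟨⟨⟨⟨⟨⟨⟨k51, k52⟩, k53⟩, k54⟩, k512⟩, k513⟩, k523⟩, k514⟩, k524⟩, k534⟩ := k5
  have n15 := nN m5 k51
  have n25 := nN m5 k52
  have n35 := nN m5 k53
  have n45 := nN m5 k54
  have t125 := tb m5 n15.1 n25.1 k512
  have t135 := tb m5 n15.1 n35.1 k513
  have t235 := tb m5 n25.1 n35.1 k523
  have t145 := tb m5 n15.1 n45.1 k514
  have t245 := tb m5 n25.1 n45.1 k524
  have t345 := tb m5 n35.1 n45.1 k534
  have hmem : ∀ i : Fin 5, (![r1, r2, r3, r4, r5] : Fin 5 → V) i ∈ S := by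
    intro i
    fin_cases i
    · exact m1
    · exact m2
    · exact m3
    · exact m4
    · exact m5
  have hpair : ∀ i j : Fin 5, i < j → (![r1, r2, r3, r4, r5] : Fin 5 → V) i ≠
      (![r1, r2, r3, r4, r5] : Fin 5 → V) j ∧ ¬ G.Adj ((![r1, r2, r3, r4, r5] : Fin 5 → V) i)
      ((![r1, r2, r3, r4, r5] : Fin 5 → V) j) := by
    intro i j hij
    fin_cases i <;> fin_cases j <;> first | (exact absurd hij (by decide)) | skip
    · exact n12
    · exact n13
    · exact n14
    · exact n15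
    · exact n23
    · exact n24
    · exact n25
    · exact n34
    · exact n35
    · exact n45
  have hconn : ∀ i j : Fin 5, ∃ y, i < j →
      G.Adj ((![r1, r2, r3, r4, r5] : Fin 5 → V) i) y ∧
      G.Adj y ((![r1, r2, r3, r4, r5] : Fin 5 → V) j) := by
    intro i j
    by_cases hij : i < j
    · obtain ⟨h1, h2⟩ := hpair i j hij
      rcases hS _ (hmem i) _ (hmem j) h1 with h | ⟨y, -, h3, h4⟩
      · exact absurd h h2
      · exact ⟨y, fun _ => ⟨h3, h4⟩⟩
    · exact ⟨r1, fun h => absurd h hij⟩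
  choose x hx using hconn
  apply hG.1
  apply k5_of_five ![r1, r2, r3, r4, r5] x hpair hx
  intro i j k hij hjk
  fin_cases i <;> fin_cases j <;> first | (exact absurd hij (by decide)) | skip
  all_goals
    fin_cases k <;> first | (exact absurd hjk (by decide)) | skip
  · exact t123
  · exact t124
  · exact t125
  · exact t134
  · exact t135
  · exact t145
  · exact t234
  · exact t235
  · exact t245
  · exact t345

end Pool.Agent.H39.RC
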