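import Mathlib
import Pool.Agent.H39.RCGlobal

set_option autoImplicit false

namespace Pool.Agent.H39.RC

open Finset

variable {V : Type*} {G : SimpleGraph V}

/-- delete `q` and join `a` and `u` -/
def ctr (G : SimpleGraph V) (a u q : V) : SimpleGraph V where
  Adj x y := x ≠ y ∧ x ≠ q ∧ y ≠ q ∧ (G.Adj x y ∨ (x = a ∧ y = u) ∨ (x = u ∧ y = a))
  symm := ⟨by
    rintro x y ⟨h1, h2, h3, h4⟩
    refine ⟨h1.symm, h3, h2, ?_⟩
    rcases h4 with h | h | h
    · exact Or.inl h.symm
    · exact Or.inr (Or.inr ⟨h.2, h.1⟩)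
    · exact Or.inr (Or.inl ⟨h.2, h.1⟩)⟩
  loopless := ⟨fun x h => h.1 rfl⟩

lemma ctr_minor {W : Type*} {H : SimpleGraph W} (hH : ∀ w, ∃ w', H.Adj w w') {a u q : V}
    (h1 : G.Adj a q) (h2 : G.Adj u q) (hm : HasMinor (ctr G a u q) H) : HasMinor G H := by
  classical
  obtain ⟨B, hB1, hB2, hB3⟩ := hm
  have hq : ∀ w, q ∉ B w := by
    intro w hqw
    have hall : ∀ x ∈ B w, x = q := by
      intro x hx
      have hr := (hB1 w).preconnected ⟨q, hqw⟩ ⟨x, hx⟩
      obtain ⟨p⟩ := hr
      cases p with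
      | nil => rfl
      | cons h p =>
        exfalso
        have h' : (ctr G a u q).Adj q _ := h
        exact h'.2.1 rfl
    obtain ⟨w', hw'⟩ := hH w
    obtain ⟨x, hx, y, hy, hxy⟩ := hB3 w w' hw'
    have := hall x hx
    exact hxy.2.1 this
  refine ⟨fun w => if u ∈ B w then insert q (B w) else B w, ?_, ?_, ?_⟩
  · intro w
    by_cases hu : u ∈ B w
    · have goal : (G.induce (insert q (B w))).Connected → (G.induce ((fun w => if u ∈ B w then
          insert q (B w) else B w) w)).Connected := by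
        intro h
        show (G.induce (if u ∈ B w then insert q (B w) else B w)).Connected
        rwa [if_pos hu]
      apply goal
      have step : ∀ (x y : V) (hx : x ∈ B w) (hy : y ∈ B w), (ctr G a u q).Adj x y →
          (G.induce (insert q (B w))).Reachable ⟨x, Set.mem_insert_of_mem _ hx⟩
            ⟨y, Set.mem_insert_of_mem _ hy⟩ := by
        intro x y hx hy hxy
        rcases hxy.2.2.2 with h | ⟨rfl, rfl⟩ | ⟨rfl, rfl⟩
        · apply SimpleGraph.Adj.reachable
          exact h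
        · have e1 : (G.induce (insert q (B w))).Adj ⟨x, Set.mem_insert_of_mem _ hx⟩
            ⟨q, Set.mem_insert _ _⟩ := h1
          have e2 : (G.induce (insert q (B w))).Adj ⟨y, Set.mem_insert_of_mem _ hy⟩
            ⟨q, Set.mem_insert _ _⟩ := h2
          exact e1.reachable.trans e2.reachable.symm
        · have e1 : (G.induce (insert q (B w))).Adj ⟨x, Set.mem_insert_of_mem _ hx⟩
            ⟨q, Set.mem_insert _ _⟩ := h2
          have e2 : (G.induce (insert q (B w))).Adj ⟨y, Set.mem_insert_of_mem _ hy⟩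
            ⟨q, Set.mem_insert _ _⟩ := h1
          exact e1.reachable.trans e2.reachable.symm
      have walk : ∀ (x y : B w), ((ctr G a u q).induce (B w)).Walk x y →
          (G.induce (insert q (B w))).Reachable ⟨x.1, Set.mem_insert_of_mem _ x.2⟩
            ⟨y.1, Set.mem_insert_of_mem _ y.2⟩ := by
        intro x y p
        induction p with
        | nil => exact SimpleGraph.Reachable.refl _
        | @cons x y z h _ ih => exact (step x.1 y.1 x.2 y.2 h).trans ih
      rw [SimpleGraph.connected_iff_exists_forall_reachable]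
      refine ⟨⟨u, Set.mem_insert_of_mem _ hu⟩, ?_⟩
      rintro ⟨x, hx⟩
      rcases Set.mem_insert_iff.mp hx with rfl | hx'
      · apply SimpleGraph.Adj.reachable
        exact h2
      · obtain ⟨p⟩ := (hB1 w).preconnected ⟨u, hu⟩ ⟨x, hx'⟩
        exact walk _ _ p
    · have goal : (G.induce (B w)).Connected → (G.induce ((fun w => if u ∈ B w then
          insert q (B w) else B w) w)).Connected := by
        intro h
        show (G.induce (if u ∈ B w then insert q (B w) else B w)).Connected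
        rwa [if_neg hu]
      apply goal
      refine (hB1 w).mono ?_
      rintro ⟨x, hx⟩ ⟨y, hy⟩ hxy
      have hxy' : (ctr G a u q).Adj x y := hxy
      rcases hxy'.2.2.2 with h | ⟨-, h⟩ | ⟨h, -⟩
      · exact h
      · exact absurd (h ▸ hy) hu
      · exact absurd (h ▸ hx) hu
  · intro w w' hww
    have hd := hB2 w w' hww
    by_cases hu : u ∈ B w
    · have hu' : u ∉ B w' := fun h => Set.disjoint_left.mp hd hu h
      simp only [if_pos hu, if_neg hu']
      rw [Set.disjoint_left]
      intro x hx hx'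
      rcases Set.mem_insert_iff.mp hx with rfl | hx
      · exact hq w' hx'
      · exact Set.disjoint_left.mp hd hx hx'
    · by_cases hu' : u ∈ B w'
      · simp only [if_neg hu, if_pos hu']
        rw [Set.disjoint_left]
        intro x hx hx'
        rcases Set.mem_insert_iff.mp hx' with rfl | hx'
        · exact hq w hx
        · exact Set.disjoint_left.mp hd hx hx'
      · simp only [if_neg hu, if_neg hu']
        exact hd
  · intro w w' hww
    have sub : ∀ w, B w ⊆ (if u ∈ B w then insert q (B w) else B w) := by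
      intro w
      split_ifs
      · exact Set.subset_insert _ _
      · exact subset_rfl
    obtain ⟨x, hx, y, hy, hxy⟩ := hB3 w w' hww
    rcases hxy.2.2.2 with h | ⟨rfl, rfl⟩ | ⟨rfl, rfl⟩
    · exact ⟨x, sub w hx, y, sub w' hy, h⟩
    · refine ⟨x, sub w hx, q, ?_, h1⟩
      simp only [if_pos hy]
      exact Set.mem_insert _ _
    · refine ⟨q, ?_, y, sub w' hy, h1.symm⟩
      simp only [if_pos hx]
      exact Set.mem_insert _ _

lemma ctr_planar (hG : Planar G) {a u q : V} (h1 : G.Adj a q) (h2 : G.Adj u q) :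
    Planar (ctr G a u q) := by
  refine ⟨fun h => hG.1 (ctr_minor ?_ h1 h2 h), fun h => hG.2 (ctr_minor ?_ h1 h2 h)⟩
  · intro w
    exact ⟨w + 1, by simp⟩
  · rintro (i | i)
    · exact ⟨Sum.inr 0, by simp [completeBipartiteGraph]⟩
    · exact ⟨Sum.inl 0, by simp [completeBipartiteGraph]⟩

/-- the refined bound: a vertex `u` outside `N(a)` joined to `a` by many paths of length two -/
lemma two_bound (hG : Planar G) {a h u : V} (hah : a ≠ h) (ua : u ≠ a) (hu : G.Adj h u)
    (T C Q : Finset V) (uT : u ∉ T) (haT : ∀ t ∈ T, G.Adj a t) (hhT : ∀ t ∈ T, G.Adj h t)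
    (hT : ∀ s ∈ T, ∀ t ∈ T, s ≠ t → Rch G {a, h} s t) (huT : ∀ t ∈ T, Rch G {a, h} u t)
    (hC : 10 ≤ C.card) (haC : ∀ c ∈ C, G.Adj a c) (hhC : ∀ c ∈ C, G.Adj h c)
    (hQ : 11 ≤ Q.card) (haQ : ∀ q ∈ Q, G.Adj a q) (huQ : ∀ q ∈ Q, G.Adj u q) :
    T.card ≤ 2 := by
  classical
  by_contra hcon
  obtain ⟨T', hT'T, hT'⟩ := Finset.exists_subset_card_eq (not_le.mp hcon : 3 ≤ T.card)
  obtain ⟨t1, t2, t3, n12, n13, n23, rfl⟩ := Finset.card_eq_three.mp hT'
  have m1 : t1 ∈ T := hT'T (by simp)
  have m2 : t2 ∈ T := hT'T (by simp)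
  have m3 : t3 ∈ T := hT'T (by simp)
  have conn : ∀ {s t : V}, Rch G {a, h} s t → ∃ y, ∀ q, q ≠ y → q ≠ s → q ≠ t → s ≠ t →
      Rch (ctr G a u q) {a, h} s t := by
    rintro s t (hst | ⟨y, hy, h1, h2⟩)
    · exact ⟨s, fun q _ h1 h2 h3 => Or.inl ⟨h3, h1.symm, h2.symm, Or.inl hst⟩⟩
    · exact ⟨y, fun q h0 h3 h4 h5 => Or.inr ⟨y, hy, ⟨h1.ne, h3.symm, h0.symm, Or.inl h1⟩,
        h2.ne, h0.symm, h4.symm, Or.inl h2⟩⟩
  obtain ⟨y12, c12⟩ := conn (hT t1 m1 t2 m2 n12)
  obtain ⟨y13, c13⟩ := conn (hT t1 m1 t3 m3 n13)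
  obtain ⟨y23, c23⟩ := conn (hT t2 m2 t3 m3 n23)
  obtain ⟨z1, d1⟩ := conn (huT t1 m1)
  obtain ⟨z2, d2⟩ := conn (huT t2 m2)
  obtain ⟨z3, d3⟩ := conn (huT t3 m3)
  have hcard : ({h, t1, t2, t3, y12, y13, y23, z1, z2, z3} : Finset V).card < Q.card := by
    refine lt_of_le_of_lt (b := 10) ?_ (by omega)
    refine (Finset.card_insert_le _ _).trans (Nat.succ_le_succ ?_)
    refine (Finset.card_insert_le _ _).trans (Nat.succ_le_succ ?_)
    refine (Finset.card_insert_le _ _).trans (Nat.succ_le_succ ?_)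
    exact (Finset.card_insert_le _ _).trans (Nat.succ_le_succ Finset.card_le_six)
  obtain ⟨q, hq, hqn⟩ := Finset.exists_mem_notMem_of_card_lt_card hcard
  simp only [Finset.mem_insert, Finset.mem_singleton, not_or] at hqn
  obtain ⟨qh, q1, q2, q3, qy12, qy13, qy23, qz1, qz2, qz3⟩ := hqn
  have aq := haQ q hq
  have uq := huQ q hq
  have e12 := c12 q qy12 q1 q2 n12
  have e13 := c13 q qy13 q1 q3 n13
  have e23 := c23 q qy23 q2 q3 n23
  have f1 := d1 q qz1 uq.ne' q1 (fun e => uT (e ▸ m1))
  have f2 := d2 q qz2 uq.ne' q2 (fun e => uT (e ▸ m2))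
  have f3 := d3 q qz3 uq.ne' q3 (fun e => uT (e ▸ m3))
  have key := three_bound (ctr_planar hG aq uq) hah (C.erase q) {u, t1, t2, t3} (by
      have := Finset.pred_card_le_card_erase (a := q) (s := C)
      omega) (by
      intro c hc
      rw [Finset.mem_erase] at hc
      exact ⟨(haC c hc.2).ne, aq.ne, hc.1, Or.inl (haC c hc.2)⟩) (by
      intro c hc
      rw [Finset.mem_erase] at hc
      exact ⟨(hhC c hc.2).ne, qh ∘ Eq.symm, hc.1, Or.inl (hhC c hc.2)⟩) (by
      intro c hc
      simp only [Finset.mem_insert, Finset.mem_singleton] at hc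
      rcases hc with rfl | rfl | rfl | rfl
      · exact ⟨ua.symm, aq.ne, uq.ne, Or.inr (Or.inl ⟨rfl, rfl⟩)⟩
      · exact ⟨(haT _ m1).ne, aq.ne, fun e => q1 e.symm, Or.inl (haT _ m1)⟩
      · exact ⟨(haT _ m2).ne, aq.ne, fun e => q2 e.symm, Or.inl (haT _ m2)⟩
      · exact ⟨(haT _ m3).ne, aq.ne, fun e => q3 e.symm, Or.inl (haT _ m3)⟩) (by
      intro c hc
      simp only [Finset.mem_insert, Finset.mem_singleton] at hc
      rcases hc with rfl | rfl | rfl | rfl
      · exact ⟨hu.ne, fun e => qh e.symm, uq.ne, Or.inl hu⟩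
      · exact ⟨(hhT _ m1).ne, fun e => qh e.symm, fun e => q1 e.symm, Or.inl (hhT _ m1)⟩
      · exact ⟨(hhT _ m2).ne, fun e => qh e.symm, fun e => q2 e.symm, Or.inl (hhT _ m2)⟩
      · exact ⟨(hhT _ m3).ne, fun e => qh e.symm, fun e => q3 e.symm, Or.inl (hhT _ m3)⟩) (by
      intro s hs t ht hst
      simp only [Finset.mem_insert, Finset.mem_singleton] at hs ht
      rcases hs with rfl | rfl | rfl | rfl <;> rcases ht with rfl | rfl | rfl | rfl
      · exact absurd rfl hst
      · exact f1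
      · exact f2
      · exact f3
      · exact f1.symm
      · exact absurd rfl hst
      · exact e12
      · exact e13
      · exact f2.symm
      · exact e12.symm
      · exact absurd rfl hst
      · exact e23
      · exact f3.symm
      · exact e13.symm
      · exact e23.symm
      · exact absurd rfl hst)
  have hc4 : ({u, t1, t2, t3} : Finset V).card = 4 := by
    rw [Finset.card_insert_of_notMem, hT']
    intro hmem
    exact uT (hT'T hmem)
  omega

end Pool.Agent.H39.RC
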