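import Mathlib

set_option autoImplicit false

namespace Pool.Agent.H39.RC

lemma numeric_aux (p n1 n2 t j1 j2 e1 e2 u m1 m2 : ℤ) (hp : 15000 ≤ p) (hn : n1 + n2 + t = p)
    (hn1 : 1 ≤ n1) (hn2 : 1 ≤ n2) (ht : 0 ≤ t) (hj1 : 0 ≤ j1) (hj2 : 0 ≤ j2) (hj2p : j2 ≤ p)
    (hm1 : 3 * n1 - 6 ≤ m1) (hm2 : 3 * n2 - 6 ≤ m2) (hm1' : 0 ≤ m1) (hm2' : 0 ≤ m2)
    (he1 : e1 + j1 * m1 ≤ 3 * p * n1) (he2 : e2 + j2 * m2 ≤ 3 * p * n2)
    (hu2 : u ≤ e2 + 4 + 634 * t) (hu : u ≤ 10 + 3 * (j1 * j2)) (h12 : n2 ≤ n1) :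
    3 + u + e1 + e2 + 634 * t ≤ 3 * (p * p) + p + 1 := by
  by_contra hcon
  have hcon' := not_le.mp hcon
  have hpt : 0 ≤ p * t := by positivity
  have hsum : 3 * p * n1 + 3 * p * n2 = 3 * (p * p) - 3 * (p * t) := by
    have : n1 + n2 = p - t := by linarith
    calc 3 * p * n1 + 3 * p * n2 = 3 * p * (n1 + n2) := by ring
      _ = 3 * (p * p) - 3 * (p * t) := by rw [this]; ring
  have jm1 : 0 ≤ j1 * m1 := by positivity
  have jm2 : 0 ≤ j2 * m2 := by positivity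
  have tp : 634 * t ≤ 3 * (p * t) - 2 * (p * t) := by nlinarith
  have A : p + 3 * (p * t) - 634 * t + j1 * m1 + j2 * m2 ≤ 3 * (j1 * j2) + 11 := by linarith
  -- step 1
  have s1 : n1 - 1 ≤ j2 := by
    by_contra h
    have h' : j2 ≤ n1 - 2 := by linarith [not_le.mp h, Int.lt_iff_add_one_le.mp (not_le.mp h)]
    have : j1 * (3 * j2) ≤ j1 * m1 := mul_le_mul_of_nonneg_left (by linarith) hj1
    nlinarith
  have s1' : n2 - 1 ≤ j1 := by
    by_contra h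
    have h' : j1 ≤ n2 - 2 := by linarith [not_le.mp h, Int.lt_iff_add_one_le.mp (not_le.mp h)]
    have : j2 * (3 * j1) ≤ j2 * m2 := mul_le_mul_of_nonneg_left (by linarith) hj2
    nlinarith
  have s2 : 1 ≤ j1 := by
    by_contra h
    have h' : j1 = 0 := by omega
    rw [h'] at A
    nlinarith
  have B : p + j1 * m1 + 2 * (j2 * m2) + 3 * (p * t) ≤ 3 * p * n2 + 1268 * t + 5 := by linarith
  rcases eq_or_lt_of_le hn2 with h | h
  · -- n2 = 1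
    have h1 : n2 = 1 := h.symm
    rw [h1] at B hn
    have hm : 3 * p - 3 * t - 9 ≤ m1 := by linarith
    have h2 : m1 ≤ j1 * m1 := by nlinarith
    nlinarith
  · have h2 : 2 ≤ n2 := by omega
    have h3 : p - t - 2 ≤ 2 * j2 := by linarith
    have h4 : (p - t - 2) * (3 * n2 - 6) ≤ 2 * j2 * m2 := by
      apply mul_le_mul h3 hm2 (by linarith) (by linarith)
    have h5 : (p - t - 2) * (3 * n2 - 6) = 3 * p * n2 - 6 * p - 3 * (t * n2) + 6 * t - 6 * n2 + 12 := by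
      ring
    have h6 : 3 * (p * t) + 6 * t + 7 + j1 * m1 ≤ 5 * p + 3 * (t * n2) + 6 * n2 + 1268 * t := by
      nlinarith
    have h7 : 2 * n2 ≤ p - t := by linarith
    have h8 : 2 * (t * n2) ≤ p * t := by nlinarith
    have h9 : 3 * (p * t) + 2 * (j1 * m1) ≤ 16 * p + 2536 * t := by linarith
    have h10 : t ≤ 8 := by
      by_contra hc
      have hc' : 9 ≤ t := by omega
      nlinarith
    have h11 : p ≤ m1 := by linarith
    have h12' : j1 ≤ 8 := by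
      by_contra hc
      have hc' : 9 ≤ j1 := by omega
      have : 9 * p ≤ j1 * m1 := by nlinarith
      nlinarith
    have h13 : n2 ≤ 9 := by linarith
    have h14 : 3 * p - 57 ≤ m1 := by linarith
    have h15 : j1 * (3 * p - 57) ≤ j1 * m1 := mul_le_mul_of_nonneg_left h14 hj1
    have h16 : j1 * j2 ≤ j1 * p := mul_le_mul_of_nonneg_left hj2p hj1
    nlinarith

lemma numeric (p n1 n2 t j1 j2 e1 e2 u : ℕ) (hp : 15000 ≤ p) (hn : n1 + n2 + t = p)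
    (hn1 : 1 ≤ n1) (hn2 : 1 ≤ n2) (hj1 : j1 ≤ p) (hj2 : j2 ≤ p)
    (he1 : e1 + j1 * (3 * n1 - 6) ≤ 3 * p * n1) (he2 : e2 + j2 * (3 * n2 - 6) ≤ 3 * p * n2)
    (hu1 : u ≤ e1 + 4 + 634 * t) (hu2 : u ≤ e2 + 4 + 634 * t) (hu : u ≤ 10 + 3 * (j1 * j2)) :
    3 + u + e1 + e2 + 634 * t ≤ 3 * (p * p) + p + 1 := by
  have key : ∀ n1 n2 j1 j2 e1 e2 : ℕ, n1 + n2 + t = p → 1 ≤ n1 → 1 ≤ n2 → j2 ≤ p →
      e1 + j1 * (3 * n1 - 6) ≤ 3 * p * n1 → e2 + j2 * (3 * n2 - 6) ≤ 3 * p * n2 →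
      u ≤ e2 + 4 + 634 * t → u ≤ 10 + 3 * (j1 * j2) → n2 ≤ n1 →
      3 + u + e1 + e2 + 634 * t ≤ 3 * (p * p) + p + 1 := by
    intro n1 n2 j1 j2 e1 e2 hn hn1 hn2 hj2 he1 he2 hu2 hu h12
    have := numeric_aux p n1 n2 t j1 j2 e1 e2 u ((3 * n1 - 6 : ℕ) : ℤ) ((3 * n2 - 6 : ℕ) : ℤ)
      (by exact_mod_cast hp) (by exact_mod_cast hn) (by exact_mod_cast hn1) (by exact_mod_cast hn2)
      (by positivity) (by positivity) (by positivity) (by exact_mod_cast hj2)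
      (by omega) (by omega) (by positivity) (by positivity)
      (by exact_mod_cast he1) (by exact_mod_cast he2) (by exact_mod_cast hu2)
      (by exact_mod_cast hu) (by exact_mod_cast h12)
    exact_mod_cast this
  rcases le_total n2 n1 with h | h
  · exact key n1 n2 j1 j2 e1 e2 hn hn1 hn2 hj2 he1 he2 hu2 hu h
  · have := key n2 n1 j2 j1 e2 e1 (by omega) hn2 hn1 hj1 he2 he1 hu1 (by
      rw [mul_comm j2 j1]; exact hu) h
    omega

end Pool.Agent.H39.RC
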