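import Mathlib
import Pool.Agent.H39.RCContract
import Pool.Agent.H39.RCNumeric

set_option autoImplicit false

namespace Pool.Agent.H39.RC

open Finset

section

variable {V L : Type*} (G : SimpleGraph V) (lab : V → V → L) (R : Finset V)

/-- the combinatorial condition: two vertices of `R` are adjacent or joined by a special 2-path -/
def Clq : Prop :=
  ∀ u ∈ R, ∀ v ∈ R, u ≠ v → G.Adj u v ∨ ∃ w, G.Adj w u ∧ G.Adj w v ∧ lab w u ≠ lab w v

open Classical in
/-- the neighbours of `a` in `R` -/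
noncomputable def nb (a : V) : Finset V := R.filter (fun v => G.Adj a v)

open Classical in
/-- the neighbours of `a` in `R` with label `α` -/
noncomputable def cl (a : V) (α : L) : Finset V := R.filter (fun v => G.Adj a v ∧ lab a v = α)

end

section

variable {V L : Type*} {G : SimpleGraph V} {lab : V → V → L} {R : Finset V}

lemma mem_nb {a v : V} : v ∈ nb G R a ↔ v ∈ R ∧ G.Adj a v := by
  classical
  simp [nb]

lemma mem_cl {a v : V} {α : L} : v ∈ cl G lab R a α ↔ v ∈ R ∧ G.Adj a v ∧ lab a v = α := by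
  classical
  simp [cl]

lemma rch_avoid (hR : Clq G lab R) {a h s t : V} (hs : s ∈ R) (ht : t ∈ R) (hst : s ≠ t)
    (h1 : G.Adj a s → G.Adj a t → lab a s = lab a t)
    (h2 : G.Adj h s → G.Adj h t → lab h s = lab h t) : Rch G {a, h} s t := by
  rcases hR s hs t ht hst with h0 | ⟨w, w1, w2, w3⟩
  · exact Or.inl h0
  · refine Or.inr ⟨w, ?_, w1.symm, w2⟩
    rintro (rfl | rfl)
    · exact w3 (h1 w1 w2)
    · exact w3 (h2 w1 w2)

lemma pair_three (hG : Planar G) (hR : Clq G lab R) {a h : V} (hah : a ≠ h) (α β : L)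
    (C T : Finset V) (hC : 9 ≤ C.card) (haC : ∀ c ∈ C, G.Adj a c) (hhC : ∀ c ∈ C, G.Adj h c)
    (hTR : T ⊆ R) (haT : ∀ c ∈ T, G.Adj a c) (hhT : ∀ c ∈ T, G.Adj h c)
    (hα : ∀ c ∈ T, lab a c = α) (hβ : ∀ c ∈ T, lab h c = β) : T.card ≤ 3 := by
  refine three_bound hG hah C T hC haC hhC haT hhT ?_
  intro s hs t ht hst
  exact rch_avoid hR (hTR hs) (hTR ht) hst (fun _ _ => (hα s hs).trans (hα t ht).symm)
    (fun _ _ => (hβ s hs).trans (hβ t ht).symm)

lemma six (hG : Planar G) (hR : Clq G lab R) {a h v : V} (hah : a ≠ h) (va : v ≠ a)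
    (vh : v ≠ h) (hv : v ∈ R) (D : Finset V) (hDR : D ⊆ R) (vD : v ∉ D)
    (haD : ∀ c ∈ D, G.Adj a c) (hhD : ∀ c ∈ D, G.Adj h c)
    (h1 : G.Adj a v → ∀ c ∈ D, lab a v = lab a c)
    (h2 : G.Adj h v → ∀ c ∈ D, lab h v = lab h c) : D.card ≤ 6 := by
  refine reach_bound hG.2 hah va vh D vD haD hhD ?_
  intro c hc
  exact rch_avoid hR hv (hDR hc) (fun e => vD (e ▸ hc)) (fun h0 _ => h1 h0 c hc)
    (fun h0 _ => h2 h0 c hc)

/-- `h` is a hub of the class `α` of `a` -/
structure Hub (G : SimpleGraph V) (lab : V → V → L) (R : Finset V) (a : V) (α : L) (h : V) :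
    Prop where
  ne : a ≠ h
  many : ∃ C : Finset V, C ⊆ cl G lab R a α ∧ 10 ≤ C.card ∧ ∀ c ∈ C, G.Adj h c
  adj : ∀ v ∈ cl G lab R a α, v ≠ h → G.Adj h v
  adj' : ∀ u ∈ R, u ≠ a → u ≠ h → ¬ G.Adj a u → G.Adj h u

/-- delete the edges at `a` -/
def del (G : SimpleGraph V) (a : V) : SimpleGraph V where
  Adj x y := x ≠ a ∧ y ≠ a ∧ G.Adj x y
  symm := ⟨fun _ _ h => ⟨h.2.1, h.1, h.2.2.symm⟩⟩
  loopless := ⟨fun _ h => h.2.2.ne rfl⟩

lemma planar_mono {G' : SimpleGraph V} (h : ∀ x y, G'.Adj x y → G.Adj x y) (hG : Planar G) :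
    Planar G' := by
  have key : ∀ {W : Type} (H : SimpleGraph W), HasMinor G' H → HasMinor G H := by
    rintro W H ⟨B, h1, h2, h3⟩
    refine ⟨B, fun w => ?_, h2, fun w w' hw => ?_⟩
    · refine (h1 w).mono ?_
      intro x y hxy
      exact h _ _ hxy
    · obtain ⟨x, hx, y, hy, hxy⟩ := h3 w w' hw
      exact ⟨x, hx, y, hy, h _ _ hxy⟩
  exact ⟨fun hm => hG.1 (key _ hm), fun hm => hG.2 (key _ hm)⟩

lemma exists_hub (hG : Planar G) (hR : Clq G lab R) (a : V) (α : L)
    (hbig : 634 < (cl G lab R a α).card) : ∃ h, Hub G lab R a α h := by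
  classical
  have h1 : ∃ b, 9 < ((cl G lab R a α).filter (fun x => (del G a).Adj b x)).card := by
    by_contra hcon
    push Not at hcon
    have := global_bound (planar_mono (G' := del G a) (fun x y h => h.2.2) hG)
      (cl G lab R a α) (by
        intro s hs t ht hst
        obtain ⟨s1, s2, s3⟩ := mem_cl.mp hs
        obtain ⟨t1, t2, t3⟩ := mem_cl.mp ht
        rcases hR s s1 t t1 hst with h0 | ⟨w, w1, w2, w3⟩
        · exact Or.inl ⟨s2.ne', t2.ne', h0⟩
        · have wa : w ≠ a := by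
            rintro rfl
            exact w3 (s3.trans t3.symm)
          exact Or.inr ⟨w, by simp, ⟨s2.ne', wa, w1.symm⟩, ⟨wa, t2.ne', w2⟩⟩) 9 (by
        intro b
        convert hcon b)
    omega
  obtain ⟨h, hh⟩ := h1
  have hah : a ≠ h := by
    rintro rfl
    have : ((cl G lab R a α).filter (fun x => (del G a).Adj a x)).card = 0 := by
      rw [Finset.card_eq_zero, Finset.filter_eq_empty_iff]
      intro x _ hx
      exact hx.1 rfl
    omega
  set C := (cl G lab R a α).filter (fun x => (del G a).Adj h x) with hC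
  have hC1 : C ⊆ cl G lab R a α := Finset.filter_subset _ _
  have hC2 : ∀ c ∈ C, G.Adj h c := fun c hc => (Finset.mem_filter.mp hc).2.2.2
  have hC3 : ∀ c ∈ C, c ∈ R ∧ G.Adj a c ∧ lab a c = α := fun c hc => mem_cl.mp (hC1 hc)
  refine ⟨h, hah, ⟨C, hC1, hh, hC2⟩, ?_, ?_⟩
  · intro v hv hvh
    by_contra hn
    obtain ⟨v1, v2, v3⟩ := mem_cl.mp hv
    have := six hG hR hah v2.ne' hvh v1 C (fun c hc => (hC3 c hc).1)
      (fun hvC => hn (hC2 v hvC)) (fun c hc => (hC3 c hc).2.1) hC2
      (fun _ c hc => v3.trans (hC3 c hc).2.2.symm) (fun h0 => absurd h0 hn)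
    omega
  · intro u hu hua huh hnu
    by_contra hn
    have := six hG hR hah hua huh hu C (fun c hc => (hC3 c hc).1)
      (fun hvC => hn (hC2 u hvC)) (fun c hc => (hC3 c hc).2.1) hC2
      (fun h0 => absurd h0 hnu) (fun h0 => absurd h0 hn)
    omega

variable [Fintype L]

/-- a class with a hub -/
lemma hub_card (hG : Planar G) (hR : Clq G lab R) {a : V} {α : L} {h : V}
    (hh : Hub G lab R a α h) (hd : DecidableEq V) :
    ((cl G lab R a α).erase h).card ≤ 3 * Fintype.card L := by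
  classical
  obtain ⟨C, hC1, hC2, hC3⟩ := hh.many
  rw [Finset.card_eq_sum_card_fiberwise (f := fun v => lab h v) (t := Finset.univ)
    (fun _ _ => Finset.mem_coe.mpr (Finset.mem_univ _))]
  refine (Finset.sum_le_card_nsmul _ _ 3 ?_).trans (by simp [mul_comm])
  intro β _
  refine pair_three hG hR hh.ne α β C _ (by omega) (fun c hc => (mem_cl.mp (hC1 hc)).2.1) hC3
    ?_ ?_ ?_ ?_ ?_
  · intro c hc
    rw [Finset.mem_filter, Finset.mem_erase] at hc
    exact (mem_cl.mp hc.1.2).1
  · intro c hc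
    rw [Finset.mem_filter, Finset.mem_erase] at hc
    exact (mem_cl.mp hc.1.2).2.1
  · intro c hc
    rw [Finset.mem_filter, Finset.mem_erase] at hc
    exact hh.adj c hc.1.2 hc.1.1
  · intro c hc
    rw [Finset.mem_filter, Finset.mem_erase] at hc
    exact (mem_cl.mp hc.1.2).2.2
  · intro c hc
    rw [Finset.mem_filter, Finset.mem_erase] at hc
    exact hc.2

lemma nb_eq_sum (a : V) : (nb G R a).card = ∑ α : L, (cl G lab R a α).card := by
  classical
  rw [Finset.card_eq_sum_card_fiberwise (f := fun v => lab a v) (t := Finset.univ)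
    (fun _ _ => Finset.mem_coe.mpr (Finset.mem_univ _))]
  refine Finset.sum_congr rfl fun α _ => ?_
  congr 1
  ext v
  rw [Finset.mem_filter, mem_nb, mem_cl, and_assoc]

lemma block (hG : Planar G) (hR : Clq G lab R) {a h : V} (A : Finset L)
    (hA : ∀ α ∈ A, Hub G lab R a α h) (E : Finset V) (J : Finset L)
    (hE : ∀ v ∈ E, v ∈ R ∧ G.Adj a v ∧ v ≠ h ∧ lab a v ∈ A)
    (hJ : ∀ β ∈ J, ∃ u ∈ R, u ≠ a ∧ u ≠ h ∧ ¬ G.Adj a u ∧ lab h u = β) :
    E.card + J.card * (3 * A.card - 6) ≤ 3 * Fintype.card L * A.card := by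
  classical
  have hEh : ∀ v ∈ E, G.Adj h v := fun v hv =>
    (hA _ (hE v hv).2.2.2).adj v (mem_cl.mpr ⟨(hE v hv).1, (hE v hv).2.1, rfl⟩) (hE v hv).2.2.1
  have b1 : ∀ β : L, (E.filter (fun v => lab h v = β)).card ≤ 3 * A.card := by
    intro β
    rw [Finset.card_eq_sum_card_fiberwise (f := fun v => lab a v) (t := A)
      (fun v hv => (hE v (Finset.mem_filter.mp hv).1).2.2.2)]
    refine (Finset.sum_le_card_nsmul _ _ 3 ?_).trans (by simp [mul_comm])
    intro α hα
    obtain ⟨C, hC1, hC2, hC3⟩ := (hA α hα).many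
    refine pair_three hG hR (hA α hα).ne α β C _ (by omega)
      (fun c hc => (mem_cl.mp (hC1 hc)).2.1) hC3 ?_ ?_ ?_ ?_ ?_
    · intro c hc
      rw [Finset.mem_filter, Finset.mem_filter] at hc
      exact (hE c hc.1.1).1
    · intro c hc
      rw [Finset.mem_filter, Finset.mem_filter] at hc
      exact (hE c hc.1.1).2.1
    · intro c hc
      rw [Finset.mem_filter, Finset.mem_filter] at hc
      exact hEh c hc.1.1
    · intro c hc
      rw [Finset.mem_filter, Finset.mem_filter] at hc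
      exact hc.2
    · intro c hc
      rw [Finset.mem_filter, Finset.mem_filter] at hc
      exact hc.1.2
  have b2 : ∀ β ∈ J, (E.filter (fun v => lab h v = β)).card ≤ 6 := by
    intro β hβ
    rcases A.eq_empty_or_nonempty with hA0 | ⟨α, hα⟩
    · have := b1 β
      rw [hA0, Finset.card_empty] at this
      omega
    · obtain ⟨u, u1, u2, u3, u4, u5⟩ := hJ β hβ
      refine six hG hR (hA α hα).ne u2 u3 u1 _ ?_ ?_ ?_ ?_ (fun h0 => absurd h0 u4) ?_
      · intro c hc
        rw [Finset.mem_filter] at hc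
        exact (hE c hc.1).1
      · intro hc
        rw [Finset.mem_filter] at hc
        exact u4 (hE u hc.1).2.1
      · intro c hc
        rw [Finset.mem_filter] at hc
        exact (hE c hc.1).2.1
      · intro c hc
        rw [Finset.mem_filter] at hc
        exact hEh c hc.1
      · intro _ c hc
        rw [Finset.mem_filter] at hc
        exact u5.trans hc.2.symm
  have e1 : E.card = ∑ β : L, (E.filter (fun v => lab h v = β)).card :=
    Finset.card_eq_sum_card_fiberwise (fun _ _ => Finset.mem_coe.mpr (Finset.mem_univ _))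
  have e2 : J.card * (3 * A.card - 6) = ∑ β : L, if β ∈ J then (3 * A.card - 6) else 0 := by
    rw [Finset.sum_ite_mem, Finset.univ_inter, Finset.sum_const, smul_eq_mul]
  rw [e1, e2, ← Finset.sum_add_distrib]
  refine (Finset.sum_le_card_nsmul _ _ (3 * A.card) ?_).trans (by
    rw [smul_eq_mul, Finset.card_univ]
    exact le_of_eq (by ring))
  intro β _
  have := b1 β
  by_cases hβ : β ∈ J
  · have := b2 β hβ
    simp only [hβ, if_true]
    omega
  · simp only [hβ, if_false]
    omega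

end

end Pool.Agent.H39.RC
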