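import Mathlib
import Pool.Agent.H39.RCMain

set_option autoImplicit false

namespace Pool.Agent.H39.RC

open Finset

variable {V L : Type*} {G : SimpleGraph V} {lab : V → V → L} {R : Finset V}

lemma arith0 (p r : ℕ) (hp : 15000 ≤ p) (h : r ≤ 70 * (634 * p) + 4) :
    r ≤ 3 * (p * p) + p + 1 := by nlinarith

lemma arith1 (p t n r u b e : ℕ) (hp : 15000 ≤ p) (ht : n + t = p) (hr : r ≤ 1 + u + b)
    (hb : b ≤ 1 + e + 634 * t) (hu : u + e ≤ 1 + b) (he : e ≤ 3 * p * n) :
    r ≤ 3 * (p * p) + p + 1 := by
  have h1 : u ≤ 2 + 634 * t := by omega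
  have h2 : r ≤ 4 + 1268 * t + 3 * p * n := by omega
  have h3 : p * t ≥ 15000 * t := Nat.mul_le_mul_right t hp
  have h4 : p * n + p * t = p * p := by rw [← Nat.mul_add, ht]
  nlinarith

lemma arith3 (p t n r u b q : ℕ) (hp : 15000 ≤ p) (ht : n + t = p) (hr : r ≤ 1 + u + b)
    (hb : b ≤ 3 * p * n + q + 634 * t) (hu : u ≤ 5) (hq : q ≤ n)
    (h0 : u = 0 ∨ 1 ≤ t ∨ q + 5 ≤ p) : r ≤ 3 * (p * p) + p + 1 := by
  have h3 : p * t ≥ 15000 * t := Nat.mul_le_mul_right t hp
  have h4 : p * n + p * t = p * p := by rw [← Nat.mul_add, ht]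
  have h5 : 3 * p * n = 3 * (p * n) := by ring
  rw [h5] at hb
  omega

/-- counting with a single hub -/
lemma nb_split (a : V) [Fintype L] [DecidableEq L] [DecidableEq V] (Lg : Finset L) (H : L → V)
    (hs : ∀ α, α ∉ Lg → (cl G lab R a α).card ≤ 634) :
    ∃ Sm : Finset V, Sm.card ≤ 634 * (Lgᶜ).card ∧
      ∀ v ∈ nb G R a, v ∈ Sm ∨ (lab a v ∈ Lg ∧ v = H (lab a v)) ∨
        (lab a v ∈ Lg ∧ v ≠ H (lab a v)) := by
  refine ⟨Lgᶜ.biUnion (fun α => cl G lab R a α), ?_, ?_⟩
  · refine (Finset.card_biUnion_le_card_mul _ _ 634 ?_).trans (by rw [mul_comm])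
    intro α hα
    exact hs α (Finset.mem_compl.mp hα)
  · intro v hv
    rw [mem_nb] at hv
    by_cases h1 : lab a v ∈ Lg
    · by_cases h2 : v = H (lab a v)
      · exact Or.inr (Or.inl ⟨h1, h2⟩)
      · exact Or.inr (Or.inr ⟨h1, h2⟩)
    · left
      rw [Finset.mem_biUnion]
      exact ⟨lab a v, Finset.mem_compl.mpr h1, mem_cl.mpr ⟨hv.1, hv.2, rfl⟩⟩

theorem main_bound [Finite V] [Fintype L] (hG : Planar G) (hR : Clq G lab R)
    (hp : 15000 ≤ Fintype.card L) :
    R.card ≤ 3 * (Fintype.card L * Fintype.card L) + Fintype.card L + 1 := by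
  classical
  rcases isEmpty_or_nonempty V with hV | hV
  · rw [Finset.eq_empty_of_isEmpty R]
    simp
  obtain ⟨a, ha⟩ := Finite.exists_max (fun b : V => (nb G R b).card)
  set p := Fintype.card L with hpdef
  set U := R.filter (fun u => u ≠ a ∧ ¬ G.Adj a u) with hUdef
  have hU : ∀ u ∈ U, u ∈ R ∧ u ≠ a ∧ ¬ G.Adj a u := fun u hu => by
    rw [hUdef, Finset.mem_filter] at hu
    exact hu
  have hRc : R.card ≤ 1 + U.card + (nb G R a).card := by
    have h1 : R ⊆ insert a (U ∪ nb G R a) := by
      intro v hv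
      rw [Finset.mem_insert, Finset.mem_union, mem_nb, hUdef, Finset.mem_filter]
      tauto
    have h2 := Finset.card_le_card h1
    have h3 := Finset.card_insert_le a (U ∪ nb G R a)
    have h4 := Finset.card_union_le U (nb G R a)
    omega
  set Lg : Finset L := Finset.univ.filter (fun α => 634 < (cl G lab R a α).card) with hLg
  have hsm : ∀ α, α ∉ Lg → (cl G lab R a α).card ≤ 634 := by
    intro α hα
    by_contra hcon
    exact hα (Finset.mem_filter.mpr ⟨Finset.mem_univ _, not_le.mp hcon⟩)
  have hex : ∀ α : L, ∃ h, α ∈ Lg → Hub G lab R a α h := by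
    intro α
    by_cases hα : α ∈ Lg
    · obtain ⟨h, hh⟩ := exists_hub hG hR a α (Finset.mem_filter.mp hα).2
      exact ⟨h, fun _ => hh⟩
    · exact ⟨Classical.arbitrary V, fun h => absurd h hα⟩
  choose H hH using hex
  have ht : Lg.card + Lgᶜ.card = p := Finset.card_add_card_compl Lg
  obtain ⟨Sm, hSm, hspl⟩ := nb_split (G := G) (lab := lab) (R := R) a Lg H hsm
  set t := Lgᶜ.card with htdef
  by_cases c0 : Lg.card = 0
  · -- no large class
    have h1 : (nb G R a).card ≤ 634 * p := by
      rw [nb_eq_sum (lab := lab)]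
      refine (Finset.sum_le_card_nsmul _ _ 634 ?_).trans (by
        rw [smul_eq_mul, Finset.card_univ, mul_comm])
      intro α _
      refine hsm α ?_
      rw [Finset.card_eq_zero] at c0
      rw [c0]
      exact Finset.notMem_empty _
    have h2 := global_bound hG R (by
      intro s hs t ht hst
      rcases hR s hs t ht hst with h0 | ⟨w, w1, w2, _⟩
      · exact Or.inl h0
      · exact Or.inr ⟨w, by simp, w1.symm, w2⟩) (634 * p) (by
      intro b
      refine le_trans (le_of_eq ?_) ((ha b).trans h1)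
      unfold nb
      congr)
    exact arith0 p _ hp h2
  set E : V → Finset V := fun h =>
    (nb G R a).filter (fun v => lab a v ∈ Lg ∧ H (lab a v) = h ∧ v ≠ h) with hEdef
  have hE : ∀ h v, v ∈ E h ↔ (v ∈ R ∧ G.Adj a v) ∧ lab a v ∈ Lg ∧ H (lab a v) = h ∧ v ≠ h := by
    intro h v
    rw [hEdef, Finset.mem_filter, mem_nb]
  set A : V → Finset L := fun h => Lg.filter (fun α => H α = h) with hAdef
  have hA : ∀ h α, α ∈ A h ↔ α ∈ Lg ∧ H α = h := by
    intro h α
    rw [hAdef, Finset.mem_filter]
  set J : V → Finset L := fun h => (U.erase h).image (fun u => lab h u) with hJdef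
  have hblk : ∀ h, (E h).card + (J h).card * (3 * (A h).card - 6) ≤ 3 * p * (A h).card := by
    intro h
    refine block (a := a) (h := h) hG hR (A h) ?_ (E h) (J h) ?_ ?_
    · intro α hα
      rw [hA] at hα
      rw [← hα.2]
      exact hH α hα.1
    · intro v hv
      rw [hE] at hv
      exact ⟨hv.1.1, hv.1.2, hv.2.2.2, (hA _ _).mpr ⟨hv.2.1, hv.2.2.1⟩⟩
    · intro β hβ
      rw [hJdef, Finset.mem_image] at hβ
      obtain ⟨u, hu, rfl⟩ := hβ
      rw [Finset.mem_erase] at hu
      exact ⟨u, (hU u hu.2).1, (hU u hu.2).2.1, hu.1, (hU u hu.2).2.2, rfl⟩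
  have hadj : ∀ α ∈ Lg, ∀ u ∈ U, u ≠ H α → G.Adj (H α) u := by
    intro α hα u hu hne
    exact (hH α hα).adj' u (hU u hu).1 (hU u hu).2.1 hne (hU u hu).2.2
  have hue : ∀ α ∈ Lg, U.card + (E (H α)).card ≤ 1 + (nb G R a).card := by
    intro α hα
    have h1 : (U.erase (H α)) ∪ E (H α) ⊆ nb G R (H α) := by
      intro v hv
      rw [Finset.mem_union, Finset.mem_erase, hE] at hv
      rw [mem_nb]
      rcases hv with hv | hv
      · exact ⟨(hU v hv.2).1, hadj α hα v hv.2 hv.1⟩
      · refine ⟨hv.1.1, ?_⟩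
        rw [← hv.2.2.1]
        exact (hH _ hv.2.1).adj v (mem_cl.mpr ⟨hv.1.1, hv.1.2, rfl⟩) (by
          rw [hv.2.2.1]; exact hv.2.2.2)
    have h2 : Disjoint (U.erase (H α)) (E (H α)) := by
      rw [Finset.disjoint_left]
      intro v hv hv'
      rw [Finset.mem_erase] at hv
      rw [hE] at hv'
      exact (hU v hv.2).2.2 hv'.1.2
    have h3 := Finset.card_le_card h1
    rw [Finset.card_union_of_disjoint h2] at h3
    have h4 := ha (H α)
    have h5 := Finset.pred_card_le_card_erase (a := H α) (s := U)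
    omega
  set Hs := Lg.image H with hHs
  have hHsmem : ∀ α ∈ Lg, H α ∈ Hs := fun α hα => Finset.mem_image_of_mem _ hα
  have hHs0 : 0 < Hs.card := by
    rw [Finset.card_pos]
    obtain ⟨α, hα⟩ := Finset.card_pos.mp (Nat.pos_of_ne_zero c0)
    exact ⟨H α, hHsmem α hα⟩
  by_cases c1 : Hs.card = 1
  · obtain ⟨h, hh⟩ := Finset.card_eq_one.mp c1
    obtain ⟨α, hα⟩ := Finset.card_pos.mp (Nat.pos_of_ne_zero c0)
    have hHh : ∀ α ∈ Lg, H α = h := fun α hα => by
      have := hHsmem α hα
      rwa [hh, Finset.mem_singleton] at this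
    have hAh : A h = Lg := by
      ext β
      rw [hA]
      exact ⟨fun h0 => h0.1, fun h0 => ⟨h0, hHh β h0⟩⟩
    have hb : (nb G R a).card ≤ 1 + (E h).card + 634 * t := by
      have h1 : nb G R a ⊆ insert h (E h ∪ Sm) := by
        intro v hv
        rw [Finset.mem_insert, Finset.mem_union, hE]
        have hv' := mem_nb.mp hv
        rcases hspl v hv with h0 | ⟨h0, h00⟩ | ⟨h0, h00⟩
        · exact Or.inr (Or.inr h0)
        · left
          rw [h00]
          exact hHh _ h0
        · right; left
          rw [hHh _ h0] at h00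
          exact ⟨hv', h0, hHh _ h0, h00⟩
      have h2 := Finset.card_le_card h1
      have h3 := Finset.card_insert_le h (E h ∪ Sm)
      have h4 := Finset.card_union_le (E h) Sm
      omega
    have hu := hue α hα
    rw [hHh α hα] at hu
    have hb2 := hblk h
    rw [hAh] at hb2
    exact arith1 p t Lg.card _ U.card (nb G R a).card (E h).card hp ht hRc hb hu
      ((Nat.le_add_right _ _).trans hb2)
  by_cases c2 : Hs.card = 2
  · obtain ⟨h1, h2, h12, hh⟩ := Finset.card_eq_two.mp c2
    have hHh : ∀ α ∈ Lg, H α = h1 ∨ H α = h2 := fun α hα => by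
      have := hHsmem α hα
      rwa [hh, Finset.mem_insert, Finset.mem_singleton] at this
    have hm1 : h1 ∈ Hs := by rw [hh]; simp
    have hm2 : h2 ∈ Hs := by rw [hh]; simp
    rw [hHs, Finset.mem_image] at hm1 hm2
    obtain ⟨α1, hα1, hα1'⟩ := hm1
    obtain ⟨α2, hα2, hα2'⟩ := hm2
    have hn : (A h1).card + (A h2).card + t = p := by
      rw [← ht]
      congr 1
      rw [← Finset.card_union_of_disjoint]
      · congr 1
        ext β
        rw [Finset.mem_union, hA, hA]
        constructor
        · rintro (h0 | h0)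
          · exact h0.1
          · exact h0.1
        · intro h0
          rcases hHh β h0 with h00 | h00
          · exact Or.inl ⟨h0, h00⟩
          · exact Or.inr ⟨h0, h00⟩
      · rw [Finset.disjoint_left]
        intro β hβ hβ'
        rw [hA] at hβ hβ'
        exact h12 (hβ.2.symm.trans hβ'.2)
    have hb : (nb G R a).card ≤ 2 + (E h1).card + (E h2).card + 634 * t := by
      have g1 : nb G R a ⊆ insert h1 (insert h2 (E h1 ∪ (E h2 ∪ Sm))) := by
        intro v hv
        rw [Finset.mem_insert, Finset.mem_insert, Finset.mem_union, Finset.mem_union, hE, hE]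
        have hv' := mem_nb.mp hv
        rcases hspl v hv with h0 | ⟨h0, h00⟩ | ⟨h0, h00⟩
        · exact Or.inr (Or.inr (Or.inr (Or.inr h0)))
        · rcases hHh _ h0 with h | h
          · exact Or.inl (h00.trans h)
          · exact Or.inr (Or.inl (h00.trans h))
        · rcases hHh _ h0 with h | h
          · rw [h] at h00
            exact Or.inr (Or.inr (Or.inl ⟨hv', h0, h, h00⟩))
          · rw [h] at h00
            exact Or.inr (Or.inr (Or.inr (Or.inl ⟨hv', h0, h, h00⟩)))
      have g2 := Finset.card_le_card g1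
      have g3 := Finset.card_insert_le h1 (insert h2 (E h1 ∪ (E h2 ∪ Sm)))
      have g4 := Finset.card_insert_le h2 (E h1 ∪ (E h2 ∪ Sm))
      have g5 := Finset.card_union_le (E h1) (E h2 ∪ Sm)
      have g6 := Finset.card_union_le (E h2) Sm
      omega
    have hu1 := hue α1 hα1
    have hu2 := hue α2 hα2
    rw [hα1'] at hu1
    rw [hα2'] at hu2
    have hU12 : U.card ≤ 10 + 3 * ((J h1).card * (J h2).card) := by
      set W := (U.erase h1).erase h2 with hW
      have hWc : U.card ≤ 2 + W.card := by
        rw [hW]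
        have g1 := Finset.pred_card_le_card_erase (a := h1) (s := U)
        have g2 := Finset.pred_card_le_card_erase (a := h2) (s := U.erase h1)
        omega
      have hWm : ∀ u ∈ W, u ∈ U ∧ u ≠ h1 ∧ u ≠ h2 := by
        intro u hu
        rw [hW, Finset.mem_erase, Finset.mem_erase] at hu
        exact ⟨hu.2.2, hu.2.1, hu.1⟩
      have hW1 : ∀ u ∈ W, G.Adj h1 u := fun u hu => by
        have := hadj α1 hα1 u (hWm u hu).1
        rw [hα1'] at this
        exact this (hWm u hu).2.1
      have hW2 : ∀ u ∈ W, G.Adj h2 u := fun u hu => by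
        have := hadj α2 hα2 u (hWm u hu).1
        rw [hα2'] at this
        exact this (hWm u hu).2.2
      by_cases h9 : 9 ≤ W.card
      · have hWle : W.card ≤ 3 * ((J h1).card * (J h2).card) := by
          rw [Finset.card_eq_sum_card_fiberwise (f := fun v => (lab h1 v, lab h2 v))
            (t := J h1 ×ˢ J h2) (by
              intro u hu
              rw [Finset.mem_coe, Finset.mem_product]
              have hu' := hWm u hu
              exact ⟨Finset.mem_image.mpr ⟨u, Finset.mem_erase.mpr ⟨hu'.2.1, hu'.1⟩, rfl⟩,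
                Finset.mem_image.mpr ⟨u, Finset.mem_erase.mpr ⟨hu'.2.2, hu'.1⟩, rfl⟩⟩)]
          refine (Finset.sum_le_card_nsmul _ _ 3 ?_).trans (by
            rw [Finset.card_product, smul_eq_mul, mul_comm])
          rintro ⟨β1, β2⟩ _
          refine pair_three hG hR h12 β1 β2 W _ h9 hW1 hW2 ?_ ?_ ?_ ?_ ?_
          · intro c hc
            rw [Finset.mem_filter] at hc
            exact (hU c (hWm c hc.1).1).1
          · intro c hc
            rw [Finset.mem_filter] at hc
            exact hW1 c hc.1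
          · intro c hc
            rw [Finset.mem_filter] at hc
            exact hW2 c hc.1
          · intro c hc
            rw [Finset.mem_filter] at hc
            exact congrArg Prod.fst hc.2
          · intro c hc
            rw [Finset.mem_filter] at hc
            exact congrArg Prod.snd hc.2
        omega
      · omega
    have hnum := numeric p (A h1).card (A h2).card t (J h1).card (J h2).card (E h1).card
      (E h2).card U.card hp hn (Finset.card_pos.mpr ⟨α1, (hA _ _).mpr ⟨hα1, hα1'⟩⟩)
      (Finset.card_pos.mpr ⟨α2, (hA _ _).mpr ⟨hα2, hα2'⟩⟩) (Finset.card_le_univ _)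
      (Finset.card_le_univ _) (hblk h1) (hblk h2) (by omega) (by omega) hU12
    omega
  have c3 : 2 < Hs.card := by omega
  obtain ⟨h1, m1, h2, m2, h3, m3, h12, h13, h23⟩ := Finset.two_lt_card.mp c3
  have hU5 : U.card ≤ 5 := by
    set W := ((U.erase h1).erase h2).erase h3 with hW
    have hWc : U.card ≤ 3 + W.card := by
      rw [hW]
      have g1 := Finset.pred_card_le_card_erase (a := h1) (s := U)
      have g2 := Finset.pred_card_le_card_erase (a := h2) (s := U.erase h1)
      have g3 := Finset.pred_card_le_card_erase (a := h3) (s := (U.erase h1).erase h2)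
      omega
    have hWm : ∀ u ∈ W, u ∈ U ∧ u ≠ h1 ∧ u ≠ h2 ∧ u ≠ h3 := by
      intro u hu
      rw [hW, Finset.mem_erase, Finset.mem_erase, Finset.mem_erase] at hu
      exact ⟨hu.2.2.2, hu.2.2.1, hu.2.1, hu.1⟩
    have hadj' : ∀ h ∈ Hs, ∀ u ∈ U, u ≠ h → G.Adj h u := by
      intro h hh u hu hne
      rw [hHs, Finset.mem_image] at hh
      obtain ⟨α, hα, rfl⟩ := hh
      exact hadj α hα u hu hne
    have hW2 : W.card ≤ 2 := by
      by_contra hcon
      obtain ⟨u1, k1, u2, k2, u3, k3, e12, e13, e23⟩ := Finset.two_lt_card.mp (not_le.mp hcon)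
      have q1 := hWm u1 k1
      have q2 := hWm u2 k2
      have q3 := hWm u3 k3
      exact no_three hG.2 h12 h13.symm h23.symm e12 e13 e23
        (hadj' h1 m1 u1 q1.1 q1.2.1) (hadj' h1 m1 u2 q2.1 q2.2.1) (hadj' h1 m1 u3 q3.1 q3.2.1)
        (hadj' h2 m2 u1 q1.1 q1.2.2.1) (hadj' h2 m2 u2 q2.1 q2.2.2.1)
        (hadj' h2 m2 u3 q3.1 q3.2.2.1)
        (hadj' h3 m3 u1 q1.1 q1.2.2.2) (hadj' h3 m3 u2 q2.1 q2.2.2.2)
        (hadj' h3 m3 u3 q3.1 q3.2.2.2)
    omega
  set Q := Lg.filter (fun α => H α ∈ cl G lab R a α) with hQ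
  have hclE : ∀ α ∈ Lg, ((cl G lab R a α).erase (H α)).card ≤ 3 * p := fun α hα =>
    hub_card hG hR (hH α hα) _
  have hnbQ : (nb G R a).card ≤ 3 * p * Lg.card + Q.card + 634 * t := by
    rw [nb_eq_sum (lab := lab), ← Finset.sum_add_sum_compl Lg]
    have g1 : ∑ α ∈ Lg, (cl G lab R a α).card ≤ 3 * p * Lg.card + Q.card := by
      have : 3 * p * Lg.card + Q.card = ∑ α ∈ Lg, (3 * p +
          if H α ∈ cl G lab R a α then 1 else 0) := by
        have hQc : Q.card = ∑ α ∈ Lg, if H α ∈ cl G lab R a α then 1 else 0 := by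
          rw [hQ, Finset.card_filter]
        rw [Finset.sum_add_distrib, Finset.sum_const, smul_eq_mul, hQc, mul_comm]
      rw [this]
      refine Finset.sum_le_sum fun α hα => ?_
      have := hclE α hα
      by_cases hmem : H α ∈ cl G lab R a α
      · rw [Finset.card_erase_of_mem hmem] at this
        simp only [hmem, if_true]
        omega
      · rw [Finset.erase_eq_of_notMem hmem] at this
        simp only [hmem, if_false]
        omega
    have g2 : ∑ α ∈ Lgᶜ, (cl G lab R a α).card ≤ 634 * t := by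
      refine (Finset.sum_le_card_nsmul _ _ 634 ?_).trans (by rw [smul_eq_mul, mul_comm])
      intro α hα
      exact hsm α (Finset.mem_compl.mp hα)
    omega
  by_cases hcase : U.card = 0 ∨ 1 ≤ t ∨ Q.card + 5 ≤ p
  · exact arith3 p t Lg.card _ U.card (nb G R a).card Q.card hp ht hRc hnbQ hU5
      (Finset.card_le_card (Finset.filter_subset _ _)) hcase
  · push Not at hcase
    obtain ⟨k1, k2, k3⟩ := hcase
    obtain ⟨u, hu⟩ := Finset.card_pos.mp (Nat.pos_of_ne_zero k1)
    have hLgall : ∀ α : L, α ∈ Lg := by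
      intro α
      by_contra hcon
      have : 0 < Lgᶜ.card := Finset.card_pos.mpr ⟨α, Finset.mem_compl.mpr hcon⟩
      omega
    have hQH : (Q.image H).card = Q.card := by
      refine Finset.card_image_of_injOn ?_
      intro α hα β hβ hab
      rw [Finset.mem_coe, hQ, Finset.mem_filter] at hα hβ
      have e1 := (mem_cl.mp hα.2).2.2
      have e2 := (mem_cl.mp hβ.2).2.2
      rw [← e1, ← e2, hab]
    have hQa : ∀ q ∈ Q.image H, G.Adj a q := by
      intro q hq
      rw [Finset.mem_image] at hq
      obtain ⟨α, hα, rfl⟩ := hq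
      rw [hQ, Finset.mem_filter] at hα
      exact (mem_cl.mp hα.2).2.1
    have hQu : ∀ q ∈ Q.image H, G.Adj u q := by
      intro q hq
      have hqa := hQa q hq
      rw [Finset.mem_image] at hq
      obtain ⟨α, hα, rfl⟩ := hq
      refine (hadj α (hLgall α) u hu ?_).symm
      rintro rfl
      exact (hU _ hu).2.2 hqa
    have hcl : ∀ α : L, (cl G lab R a α).card ≤ 3 * p := by
      intro α
      have hE' := hclE α (hLgall α)
      by_cases hmem : H α ∈ cl G lab R a α
      · have hHα := hH α (hLgall α)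
        obtain ⟨C, hC1, hC2, hC3⟩ := hHα.many
        have hau : G.Adj (H α) u := by
          refine hadj α (hLgall α) u hu ?_
          rintro rfl
          exact (hU _ hu).2.2 (mem_cl.mp hmem).2.1
        have hfib : ((cl G lab R a α).erase (H α)).card < 3 * p := by
          rw [Finset.card_eq_sum_card_fiberwise (f := fun v => lab (H α) v) (t := Finset.univ)
            (fun _ _ => Finset.mem_coe.mpr (Finset.mem_univ _))]
          have hp3 : 3 * p = ∑ β : L, 3 := by
            rw [Finset.sum_const, smul_eq_mul, Finset.card_univ, mul_comm]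
          rw [hp3]
          have hTm : ∀ β, ∀ c ∈ ((cl G lab R a α).erase (H α)).filter
              (fun v => lab (H α) v = β), c ∈ R ∧ G.Adj a c ∧ lab a c = α ∧ G.Adj (H α) c ∧
              lab (H α) c = β := by
            intro β c hc
            rw [Finset.mem_filter, Finset.mem_erase] at hc
            obtain ⟨k1, k2, k3⟩ := mem_cl.mp hc.1.2
            exact ⟨k1, k2, k3, hHα.adj c hc.1.2 hc.1.1, hc.2⟩
          refine Finset.sum_lt_sum ?_ ⟨lab (H α) u, Finset.mem_univ _, ?_⟩
          · intro β _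
            exact pair_three hG hR hHα.ne α β C _ (by omega)
              (fun c hc => (mem_cl.mp (hC1 hc)).2.1) hC3 (fun c hc => (hTm β c hc).1)
              (fun c hc => (hTm β c hc).2.1) (fun c hc => (hTm β c hc).2.2.2.1)
              (fun c hc => (hTm β c hc).2.2.1) (fun c hc => (hTm β c hc).2.2.2.2)
          · refine Nat.lt_succ_of_le (two_bound hG hHα.ne (hU u hu).2.1 hau _ C (Q.image H)
              (fun hmu => (hU u hu).2.2 (hTm _ u hmu).2.1)
              (fun c hc => (hTm _ c hc).2.1) (fun c hc => (hTm _ c hc).2.2.2.1) ?_ ?_ hC2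
              (fun c hc => (mem_cl.mp (hC1 hc)).2.1) hC3 (by omega) hQa hQu)
            · intro s hs t ht hst
              exact rch_avoid hR (hTm _ s hs).1 (hTm _ t ht).1 hst
                (fun _ _ => (hTm _ s hs).2.2.1.trans (hTm _ t ht).2.2.1.symm)
                (fun _ _ => (hTm _ s hs).2.2.2.2.trans (hTm _ t ht).2.2.2.2.symm)
            · intro t ht
              refine rch_avoid hR (hU u hu).1 (hTm _ t ht).1 ?_
                (fun h0 _ => absurd h0 (hU u hu).2.2)
                (fun _ _ => (hTm _ t ht).2.2.2.2.symm)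
              rintro rfl
              exact (hU _ hu).2.2 (hTm _ _ ht).2.1
        rw [Finset.card_erase_of_mem hmem] at hfib
        omega
      · rw [Finset.erase_eq_of_notMem hmem] at hE'
        exact hE'
    have hfin : (nb G R a).card ≤ 3 * (p * p) := by
      rw [nb_eq_sum (lab := lab)]
      refine (Finset.sum_le_card_nsmul _ _ (3 * p) (fun α _ => hcl α)).trans (le_of_eq ?_)
      rw [smul_eq_mul, Finset.card_univ]
      ring
    omega

end Pool.Agent.H39.RC
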