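import Mathlib

set_option autoImplicit false

/-! Technical part of the negative answer to Q1 of `MP_1a6bb7_co`: explicit families of curves. -/

namespace Pool.Agent.H39.Tangencies

open Set

/-! ### The pieces of the curves -/

/-- outer piece of a curve of the upper kind -/
noncomputable def pL (K x y p : ℝ) : ℝ := y + K * (p - x) ^ 2

/-- outer piece of a curve of the lower kind -/
noncomputable def lL (K m c p : ℝ) : ℝ := m * p + c - m ^ 2 / (4 * K)

/-- middle piece of a curve of the upper kind -/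
noncomputable def pM (K T x y t : ℝ) : ℝ :=
  t * y + K * (T ^ 2 + x ^ 2 - 2 * T * x * t) + (1 - t) / 4 + y ^ 2 * (1 - t ^ 2)

/-- middle piece of a curve of the lower kind -/
noncomputable def lM (K T m c t : ℝ) : ℝ :=
  T * m + t * c - m ^ 2 / (4 * K) + c ^ 2 * (1 - t ^ 2)

/-- a curve of the upper kind -/
noncomputable def pt (K T x y X : ℝ) : ℝ :=
  if X ≤ -1 then pL K x y (X + 1 + T) else
    if X ≤ 1 then pM K T x y (-X) else pL K x (1 / 2 - y) (X - 1 - T)

/-- a curve of the lower kind -/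
noncomputable def ln (K T m c X : ℝ) : ℝ :=
  if X ≤ -1 then lL K m c (X + 1 + T) else
    if X ≤ 1 then lM K T m c (-X) else lL K (-m) (-c) (X - 1 - T)

lemma pt_left {K T x y X : ℝ} (h : X ≤ -1) : pt K T x y X = pL K x y (X + 1 + T) := by
  simp [pt, h]

lemma ln_left {K T m c X : ℝ} (h : X ≤ -1) : ln K T m c X = lL K m c (X + 1 + T) := by
  simp [ln, h]

lemma pt_mid {K T x y X : ℝ} (h : -1 ≤ X) (h' : X ≤ 1) : pt K T x y X = pM K T x y (-X) := by
  unfold pt
  split_ifs with h1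
  · have : X = -1 := le_antisymm h1 h
    subst this
    unfold pL pM
    ring
  · rfl

lemma ln_mid {K T m c X : ℝ} (h : -1 ≤ X) (h' : X ≤ 1) : ln K T m c X = lM K T m c (-X) := by
  unfold ln
  split_ifs with h1
  · have : X = -1 := le_antisymm h1 h
    subst this
    unfold lL lM
    ring
  · rfl

lemma pt_right {K T x y X : ℝ} (h : 1 ≤ X) :
    pt K T x y X = pL K x (1 / 2 - y) (X - 1 - T) := by
  unfold pt
  split_ifs with h1 h2
  · linarith
  · have : X = 1 := le_antisymm h2 h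
    subst this
    unfold pL pM
    ring
  · rfl

lemma ln_right {K T m c X : ℝ} (h : 1 ≤ X) :
    ln K T m c X = lL K (-m) (-c) (X - 1 - T) := by
  unfold ln
  split_ifs with h1 h2
  · linarith
  · have : X = 1 := le_antisymm h2 h
    subst this
    unfold lL lM
    ring
  · rfl

lemma continuous_pt (K T x y : ℝ) : Continuous (pt K T x y) := by
  unfold pt
  refine Continuous.if_le ?_ (Continuous.if_le ?_ ?_ continuous_id continuous_const ?_)
    continuous_id continuous_const ?_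
  · unfold pL; fun_prop
  · unfold pM; fun_prop
  · unfold pL; fun_prop
  · intro X hX
    subst hX
    unfold pL pM
    ring
  · intro X hX
    subst hX
    rw [if_pos (by norm_num)]
    unfold pL pM
    ring

lemma continuous_ln (K T m c : ℝ) : Continuous (ln K T m c) := by
  unfold ln
  refine Continuous.if_le ?_ (Continuous.if_le ?_ ?_ continuous_id continuous_const ?_)
    continuous_id continuous_const ?_
  · unfold lL; fun_prop
  · unfold lM; fun_prop
  · unfold lL; fun_prop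
  · intro X hX
    subst hX
    unfold lL lM
    ring
  · intro X hX
    subst hX
    rw [if_pos (by norm_num)]
    unfold lL lM
    ring


/-! ### The outer pieces -/

section Outer

variable {B K : ℝ}

/-- basic facts on the difference of two integers -/
lemma one_le_abs_sub {a b : ℤ} (h : a ≠ b) : (1 : ℝ) ≤ |(a : ℝ) - b| := by
  have h1 : (1 : ℤ) ≤ |a - b| := Int.one_le_abs (sub_ne_zero.mpr h)
  have h2 : ((1 : ℤ) : ℝ) ≤ ((|a - b| : ℤ) : ℝ) := by exact_mod_cast h1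
  simpa [Int.cast_abs] using h2

lemma int_eq_of_abs_lt_one {a b : ℤ} (h : |(a : ℝ) - b| < 1) : a = b := by
  by_contra hne
  have := one_le_abs_sub hne
  linarith

lemma pL_sub (K x y x' y' p : ℝ) :
    pL K x y p - pL K x' y' p = (y - y') - K * (x - x') * (2 * p - x - x') := by
  unfold pL; ring

lemma pL_sub_lL {K : ℝ} (hK : K ≠ 0) (x y m c p : ℝ) :
    pL K x y p - lL K m c p = (y - m * x - c) + K * (p - x - m / (2 * K)) ^ 2 := by
  unfold pL lL
  field_simp
  ring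

lemma lL_sub {K : ℝ} (hK : K ≠ 0) (m c m' c' p : ℝ) :
    lL K m c p - lL K m' c' p =
      (m - m') * (p - (m + m') / (4 * K)) + (c - c') := by
  unfold lL
  field_simp
  ring

/-- two curves of the upper kind with different abscissae meet near the middle abscissa -/
lemma near_AA (hB : 1 ≤ B) (hK : 10000 * B ^ 4 ≤ K) {x x' : ℤ} {y y' p : ℝ}
    (hy : |y| ≤ 2 * B) (hy' : |y'| ≤ 2 * B) (hx : x ≠ x')
    (h : pL K x y p = pL K x' y' p) : |2 * p - x - x'| < 1 / 2 := by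
  have h1 : (y - y') = K * ((x : ℝ) - x') * (2 * p - x - x') := by
    have := pL_sub K x y x' y' p
    rw [h, sub_self] at this
    linarith
  have h2 := one_le_abs_sub hx
  have hB4 : 1 ≤ B ^ 4 := one_le_pow₀ hB
  have hBB : B ≤ B ^ 4 := by
    have : B ^ 1 ≤ B ^ 4 := pow_le_pow_right₀ hB (by norm_num)
    simpa using this
  have hK0 : 0 < K := by linarith
  by_contra hcon
  push Not at hcon
  have h3 : |y - y'| ≤ 4 * B := by
    have := abs_sub y y'
    linarith
  have h4 : |y - y'| = K * (|(x : ℝ) - x'| * |2 * p - x - x'|) := by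
    rw [h1, abs_mul, abs_mul, abs_of_pos hK0, mul_assoc]
  have h5 : 1 / 2 ≤ |(x : ℝ) - x'| * |2 * p - x - x'| := by
    nlinarith [abs_nonneg ((x : ℝ) - x'), abs_nonneg (2 * p - x - x')]
  have h6 : K * (1 / 2) ≤ K * (|(x : ℝ) - x'| * |2 * p - x - x'|) :=
    mul_le_mul_of_nonneg_left h5 hK0.le
  linarith

/-- a common point of an upper and a lower curve is close to the abscissa of the upper one -/
lemma near_AB (hB : 1 ≤ B) (hK : 10000 * B ^ 4 ≤ K) {x y m c p : ℝ}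
    (hx : |x| ≤ B) (hy : |y| ≤ 2 * B) (hm : |m| ≤ B) (hc : |c| ≤ B)
    (h : pL K x y p = lL K m c p) : B * |p - x| ≤ 3 / 100 := by
  have hB4 : 1 ≤ B ^ 4 := one_le_pow₀ hB
  have hK0 : 0 < K := by linarith
  have h1 : K * (p - x - m / (2 * K)) ^ 2 = m * x + c - y := by
    have := pL_sub_lL hK0.ne' x y m c p
    rw [h, sub_self] at this
    linarith
  have h2 : m * x + c - y ≤ 4 * B ^ 2 := by
    have e1 : m * x ≤ B ^ 2 := by
      calc m * x ≤ |m * x| := le_abs_self _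
        _ = |m| * |x| := abs_mul _ _
        _ ≤ B * B := mul_le_mul hm hx (abs_nonneg _) (by linarith)
        _ = B ^ 2 := by ring
    have e2 : c ≤ B := (le_abs_self c).trans hc
    have e3 : -y ≤ 2 * B := (neg_le_abs y).trans hy
    nlinarith
  set q := p - x - m / (2 * K) with hq
  have h3 : 10000 * B ^ 4 * q ^ 2 ≤ 4 * B ^ 2 := by
    have : 10000 * B ^ 4 * q ^ 2 ≤ K * q ^ 2 :=
      mul_le_mul_of_nonneg_right hK (sq_nonneg _)
    linarith
  have h4 : (B * q) ^ 2 ≤ (1 / 50) ^ 2 := by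
    have hB2 : 0 < B ^ 2 := by positivity
    have : B ^ 2 * (10000 * (B * q) ^ 2) ≤ B ^ 2 * 4 := by nlinarith
    have := le_of_mul_le_mul_left this hB2
    linarith
  have h5 : |B * q| ≤ 1 / 50 := abs_le_of_sq_le_sq h4 (by norm_num)
  have h6 : |m / (2 * K)| * B ≤ 1 / 100 := by
    rw [abs_div, abs_of_pos (by positivity : (0 : ℝ) < 2 * K), div_mul_eq_mul_div,
      div_le_iff₀ (by positivity)]
    have : |m| * B ≤ B * B := mul_le_mul_of_nonneg_right hm (by linarith)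
    have hB2 : B ^ 2 ≤ B ^ 4 := pow_le_pow_right₀ hB (by norm_num)
    nlinarith
  have h7 : B * |p - x| ≤ |B * q| + |m / (2 * K)| * B := by
    have e : p - x = q + m / (2 * K) := by rw [hq]; ring
    have e2 : |p - x| ≤ |q| + |m / (2 * K)| := by rw [e]; exact abs_add_le _ _
    rw [abs_mul, abs_of_pos (by linarith : 0 < B)]
    nlinarith [mul_le_mul_of_nonneg_left e2 (by linarith : 0 ≤ B)]
  linarith

lemma no_AAA (hB : 1 ≤ B) (hK : 10000 * B ^ 4 ≤ K) {x x' x'' : ℤ} {y y' y'' p : ℝ}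
    (hy : |y| ≤ 2 * B) (hy' : |y'| ≤ 2 * B) (hy'' : |y''| ≤ 2 * B)
    (h12 : (x, y) ≠ (x', y')) (h23 : (x', y') ≠ (x'', y'')) (h13 : (x, y) ≠ (x'', y''))
    (h : pL K x y p = pL K x' y' p) (h' : pL K x' y' p = pL K x'' y'' p) : False := by
  have key : ∀ {a a' : ℤ} {b b' : ℝ}, (a, b) ≠ (a', b') → pL K a b p = pL K a' b' p → a ≠ a' := by
    intro a a' b b' hne he haa
    subst haa
    have := pL_sub K a b a b' p
    rw [he, sub_self] at this
    apply hne
    rw [Prod.mk.injEq]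
    exact ⟨rfl, by linarith⟩
  have n12 := key h12 h
  have n23 := key h23 h'
  have n13 := key h13 (h.trans h')
  have a1 := near_AA hB hK hy hy' n12 h
  have a2 := near_AA hB hK hy hy'' n13 (h.trans h')
  apply n23
  apply int_eq_of_abs_lt_one
  rw [abs_lt] at *
  constructor <;> linarith [a1.1, a1.2, a2.1, a2.2]

lemma no_AAB (hB : 1 ≤ B) (hK : 10000 * B ^ 4 ≤ K) {x x' : ℤ} {y y' m c p : ℝ}
    (hx : |(x : ℝ)| ≤ B) (hx' : |(x' : ℝ)| ≤ B)
    (hy : |y| ≤ 2 * B) (hy' : |y'| ≤ 2 * B) (hm : |m| ≤ B) (hc : |c| ≤ B)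
    (h12 : (x, y) ≠ (x', y'))
    (h : pL K x y p = pL K x' y' p) (h' : pL K x' y' p = lL K m c p) : False := by
  have a1 := near_AB hB hK hx hy hm hc (h.trans h')
  have a2 := near_AB hB hK hx' hy' hm hc h'
  have b1 : |p - x| ≤ 3 / 100 := by nlinarith [abs_nonneg (p - x)]
  have b2 : |p - x'| ≤ 3 / 100 := by nlinarith [abs_nonneg (p - x')]
  have : x = x' := by
    apply int_eq_of_abs_lt_one
    rw [abs_le] at b1 b2
    rw [abs_lt]
    constructor <;> linarith [b1.1, b1.2, b2.1, b2.2]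
  subst this
  have := pL_sub K x y x y' p
  rw [h, sub_self] at this
  apply h12
  rw [Prod.mk.injEq]
  exact ⟨rfl, by linarith⟩

lemma no_ABB (hB : 1 ≤ B) (hK : 10000 * B ^ 4 ≤ K) {x Y m m' c c' : ℤ} {p : ℝ}
    (hx : |(x : ℝ)| ≤ B) (hy : |(Y : ℝ) / 2| ≤ 2 * B) (hm : |(m : ℝ)| ≤ B) (hc : |(c : ℝ)| ≤ B)
    (hm' : |(m' : ℝ)| ≤ B)
    (h12 : (m, c) ≠ (m', c'))
    (h : pL K x ((Y : ℝ) / 2) p = lL K m c p) (h' : lL K m c p = lL K m' c' p) : False := by
  have hB4 : 1 ≤ B ^ 4 := one_le_pow₀ hB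
  have hB24 : B ^ 2 ≤ B ^ 4 := pow_le_pow_right₀ hB (by norm_num)
  have hK0 : 0 < K := by linarith
  have a1 := near_AB hB hK hx hy hm hc h
  have e1 : ((m : ℝ) - m') * (p - (m + m') / (4 * K)) + (c - c') = 0 := by
    have := lL_sub hK0.ne' m c m' c' p
    rw [h', sub_self] at this
    linarith
  have hmm : m ≠ m' := by
    intro hmm
    subst hmm
    apply h12
    rw [Prod.mk.injEq]
    refine ⟨rfl, ?_⟩
    have : (c : ℝ) = c' := by linarith
    exact_mod_cast this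
  have hsub : |(m : ℝ) - m'| ≤ 2 * B := by
    have := abs_sub (m : ℝ) m'
    linarith
  have hadd : |(m : ℝ) + m'| ≤ 2 * B := by
    have := abs_add_le (m : ℝ) m'
    linarith
  -- the integer `D`
  have hD : (m - m') * x + (c - c') = 0 := by
    have : |(((m - m') * x + (c - c') : ℤ) : ℝ) - (0 : ℤ)| < 1 := by
      have e2 : (((m - m') * x + (c - c') : ℤ) : ℝ) - (0 : ℤ) =
          - (((m : ℝ) - m') * (p - x)) + ((m : ℝ) - m') * ((m + m') / (4 * K)) := by
        push_cast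
        linarith
      rw [e2]
      have e3 : |((m : ℝ) - m') * (p - x)| ≤ 6 / 100 := by
        rw [abs_mul]
        nlinarith [abs_nonneg (p - x), abs_nonneg ((m : ℝ) - m')]
      have e4 : |((m : ℝ) - m') * ((m + m') / (4 * K))| ≤ 1 / 100 := by
        rw [abs_mul, abs_div, abs_of_pos (by positivity : (0 : ℝ) < 4 * K), ← mul_div_assoc,
          div_le_iff₀ (by positivity)]
        have : |(m : ℝ) - m'| * |(m : ℝ) + m'| ≤ (2 * B) * (2 * B) :=
          mul_le_mul hsub hadd (abs_nonneg _) (by linarith)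
        nlinarith
      calc |-(((m : ℝ) - m') * (p - x)) + ((m : ℝ) - m') * ((m + m') / (4 * K))|
          ≤ |-(((m : ℝ) - m') * (p - x))| + |((m : ℝ) - m') * ((m + m') / (4 * K))| :=
            abs_add_le _ _
        _ < 1 := by rw [abs_neg]; linarith
    exact int_eq_of_abs_lt_one this
  have hDr : ((m : ℝ) - m') * x + (c - c') = 0 := by exact_mod_cast hD
  have hmr : (m : ℝ) - m' ≠ 0 := by
    intro h0
    apply hmm
    have : (m : ℝ) = m' := by linarith
    exact_mod_cast this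
  have e5 : p - x = (m + m') / (4 * K) := by
    have : ((m : ℝ) - m') * (p - x - (m + m') / (4 * K)) = 0 := by linarith
    rcases mul_eq_zero.mp this with h0 | h0
    · exact absurd h0 hmr
    · linarith
  have e6 : (Y : ℝ) / 2 - m * x - c + K * (p - x - m / (2 * K)) ^ 2 = 0 := by
    have := pL_sub_lL hK0.ne' x ((Y : ℝ) / 2) m c p
    rw [h, sub_self] at this
    linarith
  rw [e5] at e6
  have e7 : K * (((m : ℝ) + m') / (4 * K) - m / (2 * K)) ^ 2 = (m - m') ^ 2 / (16 * K) := by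
    field_simp
    ring
  rw [e7] at e6
  have e8 : ((2 * m * x + 2 * c - Y : ℤ) : ℝ) = ((m : ℝ) - m') ^ 2 / (8 * K) := by
    push_cast
    have : ((m : ℝ) - m') ^ 2 / (8 * K) = 2 * (((m : ℝ) - m') ^ 2 / (16 * K)) := by
      field_simp
      ring
    rw [this]
    linarith
  have e9 : 0 < ((m : ℝ) - m') ^ 2 / (8 * K) := by positivity
  have e10 : ((m : ℝ) - m') ^ 2 / (8 * K) < 1 := by
    rw [div_lt_one (by positivity)]
    have : ((m : ℝ) - m') ^ 2 ≤ (2 * B) ^ 2 := by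
      rw [← sq_abs]
      exact pow_le_pow_left₀ (abs_nonneg _) hsub 2
    nlinarith
  rw [← e8] at e9 e10
  have f1 : 0 < 2 * m * x + 2 * c - Y := by exact_mod_cast e9
  have f2 : 2 * m * x + 2 * c - Y < 1 := by exact_mod_cast e10
  omega

lemma no_BBB (hB : 1 ≤ B) (hK : 10000 * B ^ 4 ≤ K) {m m' m'' c c' c'' : ℤ} {p : ℝ}
    (hm : |(m : ℝ)| ≤ B) (hm' : |(m' : ℝ)| ≤ B) (hm'' : |(m'' : ℝ)| ≤ B)
    (h12 : (m, c) ≠ (m', c')) (h23 : (m', c') ≠ (m'', c'')) (h13 : (m, c) ≠ (m'', c''))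
    (h : lL K m c p = lL K m' c' p) (h' : lL K m' c' p = lL K m'' c'' p) : False := by
  have hB4 : 1 ≤ B ^ 4 := one_le_pow₀ hB
  have hB34 : B ^ 3 ≤ B ^ 4 := pow_le_pow_right₀ hB (by norm_num)
  have hK0 : 0 < K := by linarith
  have key : ∀ {a a' b b' : ℤ}, (a, b) ≠ (a', b') → lL K a b p = lL K a' b' p →
      (a : ℝ) - a' ≠ 0 ∧ ((a : ℝ) - a') * (p - (a + a') / (4 * K)) + (b - b') = 0 := by
    intro a a' b b' hne he
    have h1 : ((a : ℝ) - a') * (p - (a + a') / (4 * K)) + (b - b') = 0 := by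
      have := lL_sub hK0.ne' a b a' b' p
      rw [he, sub_self] at this
      linarith
    refine ⟨?_, h1⟩
    intro h0
    rw [h0] at h1
    apply hne
    rw [Prod.mk.injEq]
    constructor
    · have : (a : ℝ) = a' := by linarith
      exact_mod_cast this
    · have : (b : ℝ) = b' := by linarith
      exact_mod_cast this
  obtain ⟨n12, e12⟩ := key h12 h
  obtain ⟨n23, -⟩ := key h23 h'
  obtain ⟨n13, e13⟩ := key h13 (h.trans h')
  have e : (((c - c') * (m - m'') - (c - c'') * (m - m') : ℤ) : ℝ) =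
      (((m : ℝ) - m') * (m - m'') * (m' - m'')) / (4 * K) := by
    push_cast
    have e1 : (c : ℝ) - c' = - (((m : ℝ) - m') * (p - (m + m') / (4 * K))) := by linarith
    have e2 : (c : ℝ) - c'' = - (((m : ℝ) - m'') * (p - (m + m'') / (4 * K))) := by linarith
    rw [e1, e2]
    field_simp
    ring
  have hne : (((m : ℝ) - m') * (m - m'') * (m' - m'')) / (4 * K) ≠ 0 := by
    apply div_ne_zero _ (by positivity)
    exact mul_ne_zero (mul_ne_zero n12 n13) n23
  have hlt : |(((m : ℝ) - m') * (m - m'') * (m' - m'')) / (4 * K)| < 1 := by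
    rw [abs_div, abs_of_pos (by positivity : (0 : ℝ) < 4 * K), div_lt_one (by positivity),
      abs_mul, abs_mul]
    have a1 : |(m : ℝ) - m'| ≤ 2 * B := by
      have := abs_sub (m : ℝ) m'
      linarith
    have a2 : |(m : ℝ) - m''| ≤ 2 * B := by
      have := abs_sub (m : ℝ) m''
      linarith
    have a3 : |(m' : ℝ) - m''| ≤ 2 * B := by
      have := abs_sub (m' : ℝ) m''
      linarith
    have : |(m : ℝ) - m'| * |(m : ℝ) - m''| * |(m' : ℝ) - m''| ≤ (2 * B) * (2 * B) * (2 * B) := by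
      apply mul_le_mul _ a3 (abs_nonneg _) (by positivity)
      exact mul_le_mul a1 a2 (abs_nonneg _) (by positivity)
    nlinarith
  rw [← e] at hne hlt
  have : (c - c') * (m - m'') - (c - c'') * (m - m') = 0 := by
    apply int_eq_of_abs_lt_one
    simpa using hlt
  rw [this] at hne
  simp at hne

end Outer


/-! ### The middle pieces -/

section Middle

variable {B K T : ℝ}

lemma pM_sub (K T x y x' y' t : ℝ) :
    pM K T x y t - pM K T x' y' t =
      K * (x - x') * (x + x' - 2 * T * t) + (y - y') * (t + (y + y') * (1 - t ^ 2)) := by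
  unfold pM; ring

lemma lM_sub {K : ℝ} (hK : K ≠ 0) (T m c m' c' t : ℝ) :
    lM K T m c t - lM K T m' c' t =
      (m - m') * (T - (m + m') / (4 * K)) + (c - c') * (t + (c + c') * (1 - t ^ 2)) := by
  unfold lM
  field_simp
  ring

/-- the equation `t + s (1 - t ^ 2) = 0` -/
lemma quad_nonpos {s t : ℝ} (hs : 0 ≤ s) (ht : -1 ≤ t) (ht' : t ≤ 1)
    (h : t + s * (1 - t ^ 2) = 0) : t ≤ 0 := by
  have : 0 ≤ 1 - t ^ 2 := by nlinarith
  nlinarith [mul_nonneg hs this]

lemma quad_unique {s t t' : ℝ} (hs : 0 ≤ s) (ht : -1 ≤ t) (ht1 : t ≤ 1)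
    (ht' : -1 ≤ t') (ht1' : t' ≤ 1)
    (h : t + s * (1 - t ^ 2) = 0) (h' : t' + s * (1 - t' ^ 2) = 0) : t = t' := by
  have a := quad_nonpos hs ht ht1 h
  have a' := quad_nonpos hs ht' ht1' h'
  have e : (t - t') * (1 - s * (t + t')) = 0 := by linear_combination h - h'
  rcases mul_eq_zero.mp e with h0 | h0
  · linarith
  · nlinarith [mul_nonneg hs (by linarith : 0 ≤ -(t + t'))]

lemma mid_bound (hB : 1 ≤ B) {y y' t : ℝ} (hy : 0 ≤ y) (hyB : y ≤ B) (hy' : 0 ≤ y')
    (hyB' : y' ≤ B) (ht : -1 ≤ t) (ht' : t ≤ 1) :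
    |(y - y') * (t + (y + y') * (1 - t ^ 2))| ≤ 3 * B ^ 2 := by
  rw [abs_mul]
  have h0 : 0 ≤ 1 - t ^ 2 := by nlinarith
  have h0' : 1 - t ^ 2 ≤ 1 := by nlinarith [sq_nonneg t]
  have h1 : |y - y'| ≤ B := by
    rw [abs_le]; constructor <;> linarith
  have h2 : |t + (y + y') * (1 - t ^ 2)| ≤ 1 + 2 * B := by
    have : (y + y') * (1 - t ^ 2) ≤ 2 * B := by nlinarith
    have : 0 ≤ (y + y') * (1 - t ^ 2) := by positivity
    rw [abs_le]; constructor <;> linarith
  calc |y - y'| * |t + (y + y') * (1 - t ^ 2)| ≤ B * (1 + 2 * B) :=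
        mul_le_mul h1 h2 (abs_nonneg _) (by linarith)
    _ ≤ 3 * B ^ 2 := by nlinarith

lemma mid_AA (hB : 1 ≤ B) (hK : 10000 * B ^ 4 ≤ K) {x x' : ℤ} {y y' t : ℝ}
    (hy : 0 ≤ y) (hyB : y ≤ B) (hy' : 0 ≤ y') (hyB' : y' ≤ B)
    (ht : -1 ≤ t) (ht' : t ≤ 1) (hx : x ≠ x')
    (h : pM K T x y t = pM K T x' y' t) : |(x : ℝ) + x' - 2 * T * t| < 1 / 2 := by
  have hB4 : 1 ≤ B ^ 4 := one_le_pow₀ hB
  have hB24 : B ^ 2 ≤ B ^ 4 := pow_le_pow_right₀ hB (by norm_num)
  have hK0 : 0 < K := by linarith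
  have e := pM_sub K T x y x' y' t
  rw [h, sub_self] at e
  have h2 := one_le_abs_sub hx
  have h3 := mid_bound hB hy hyB hy' hyB' ht ht'
  by_contra hcon
  push Not at hcon
  have h4 : |(y - y') * (t + (y + y') * (1 - t ^ 2))| =
      K * (|(x : ℝ) - x'| * |(x : ℝ) + x' - 2 * T * t|) := by
    have : (y - y') * (t + (y + y') * (1 - t ^ 2)) =
      -(K * (((x : ℝ) - x') * ((x : ℝ) + x' - 2 * T * t))) := by linarith
    rw [this, abs_neg, abs_mul, abs_mul, abs_of_pos hK0]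
  have h5 : 1 / 2 ≤ |(x : ℝ) - x'| * |(x : ℝ) + x' - 2 * T * t| := by
    nlinarith [abs_nonneg ((x : ℝ) - x'), abs_nonneg ((x : ℝ) + x' - 2 * T * t)]
  have h6 := mul_le_mul_of_nonneg_left h5 hK0.le
  linarith

lemma mid_AA_unique (hB : 1 ≤ B) (hK : 10000 * B ^ 4 ≤ K) (hT : 10 * B ^ 2 ≤ T)
    {x x' : ℤ} {y y' t t' : ℝ}
    (hy : 0 ≤ y) (hyB : y ≤ B) (hy' : 0 ≤ y') (hyB' : y' ≤ B)
    (ht : -1 ≤ t) (ht1 : t ≤ 1) (ht' : -1 ≤ t') (ht1' : t' ≤ 1)
    (hne : (x, y) ≠ (x', y'))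
    (h : pM K T x y t = pM K T x' y' t) (h' : pM K T x y t' = pM K T x' y' t') : t = t' := by
  have hB4 : 1 ≤ B ^ 4 := one_le_pow₀ hB
  have hB2 : 1 ≤ B ^ 2 := one_le_pow₀ hB
  have hB24 : B ^ 2 ≤ B ^ 4 := pow_le_pow_right₀ hB (by norm_num)
  have hK0 : 0 < K := by linarith
  have e := pM_sub K T x y x' y' t
  rw [h, sub_self] at e
  have e' := pM_sub K T x y x' y' t'
  rw [h', sub_self] at e'
  by_cases hx : x = x'
  · subst hx
    have hyy : y - y' ≠ 0 := by
      intro h0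
      apply hne
      rw [Prod.mk.injEq]
      exact ⟨rfl, by linarith⟩
    have e1 : (y - y') * (t + (y + y') * (1 - t ^ 2)) = 0 := by linarith
    have e2 : (y - y') * (t' + (y + y') * (1 - t' ^ 2)) = 0 := by linarith
    have e1' := (mul_eq_zero.mp e1).resolve_left hyy
    have e2' := (mul_eq_zero.mp e2).resolve_left hyy
    exact quad_unique (by linarith) ht ht1 ht' ht1' e1' e2'
  · by_contra htt
    have h2 := one_le_abs_sub hx
    have e3 : (t - t') * ((y - y') - 2 * K * T * (x - x') - (y ^ 2 - y' ^ 2) * (t + t')) = 0 := by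
      linear_combination -e + e'
    have e4 : (y - y') - (y ^ 2 - y' ^ 2) * (t + t') = 2 * K * T * (x - x') := by
      rcases mul_eq_zero.mp e3 with h0 | h0
      · exact absurd (by linarith) htt
      · linarith
    have e5 : |(y - y') - (y ^ 2 - y' ^ 2) * (t + t')| ≤ 3 * B ^ 2 := by
      have a1 : |y - y'| ≤ B := by
        rw [abs_le]; constructor <;> linarith
      have a2 : |y ^ 2 - y' ^ 2| ≤ B ^ 2 := by
        rw [abs_le]; constructor <;> nlinarith
      have a3 : |t + t'| ≤ 2 := by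
        rw [abs_le]; constructor <;> linarith
      have a4 : |(y ^ 2 - y' ^ 2) * (t + t')| ≤ B ^ 2 * 2 := by
        rw [abs_mul]
        exact mul_le_mul a2 a3 (abs_nonneg _) (by positivity)
      have a5 := abs_sub (y - y') ((y ^ 2 - y' ^ 2) * (t + t'))
      nlinarith
    rw [e4, abs_mul, abs_of_pos (by nlinarith : (0 : ℝ) < 2 * K * T)] at e5
    have a6 : 2 * K * T * 1 ≤ 2 * K * T * |(x : ℝ) - x'| :=
      mul_le_mul_of_nonneg_left h2 (by nlinarith)
    nlinarith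

lemma mid_AB (hB : 1 ≤ B) (hK : 10000 * B ^ 4 ≤ K) (hT : 10 * B ^ 2 ≤ T)
    {x y m c t : ℝ} (hx : 0 ≤ x) (hxB : x ≤ B) (hy : 0 ≤ y) (hyB : y ≤ B)
    (hmB : m ≤ B) (hc : 0 ≤ c) (hcB : c ≤ B)
    (ht : -1 ≤ t) (ht' : t ≤ 1) : lM K T m c t < pM K T x y t := by
  have hB4 : 1 ≤ B ^ 4 := one_le_pow₀ hB
  have hB2 : B ≤ B ^ 2 := by nlinarith
  have hK0 : 10000 ≤ K := by linarith
  have h0 : 0 ≤ 1 - t ^ 2 := by nlinarith
  have h0' : 1 - t ^ 2 ≤ 1 := by nlinarith [sq_nonneg t]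
  have hTB : 9 / 10 * T ≤ T - x := by nlinarith
  have hT1 : 10 ≤ T := by nlinarith
  have e1 : (9 / 10 * T) ^ 2 ≤ (T - x) ^ 2 := pow_le_pow_left₀ (by linarith) hTB 2
  have e2 : (T - x) ^ 2 ≤ T ^ 2 + x ^ 2 - 2 * T * x * t := by
    have : 0 ≤ 2 * T * x * (1 - t) := by
      apply mul_nonneg (by positivity) (by linarith)
    nlinarith
  have e3 : 10000 * (9 / 10 * T) ^ 2 ≤ K * (T ^ 2 + x ^ 2 - 2 * T * x * t) :=
    mul_le_mul hK0 (e1.trans e2) (by positivity) (by linarith)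
  have e4 : T * m ≤ T * B := mul_le_mul_of_nonneg_left hmB (by linarith)
  have e5 : T * B ≤ T * T := mul_le_mul_of_nonneg_left (by nlinarith) (by linarith)
  have e6 : t * c ≤ B := by nlinarith
  have e7 : 0 ≤ m ^ 2 / (4 * K) := by positivity
  have e8 : c ^ 2 * (1 - t ^ 2) ≤ B ^ 2 * 1 :=
    mul_le_mul (pow_le_pow_left₀ hc hcB 2) h0' h0 (by positivity)
  have e9 : -B ≤ t * y := by nlinarith
  have e10 : 0 ≤ y ^ 2 * (1 - t ^ 2) := by positivity
  unfold lM pM
  nlinarith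

lemma mid_BB (hB : 1 ≤ B) (hK : 10000 * B ^ 4 ≤ K) (hT : 10 * B ^ 2 ≤ T)
    {m m' : ℤ} {c c' t : ℝ} (hm : |(m : ℝ)| ≤ B) (hm' : |(m' : ℝ)| ≤ B)
    (hc : 0 ≤ c) (hcB : c ≤ B) (hc' : 0 ≤ c') (hcB' : c' ≤ B)
    (ht : -1 ≤ t) (ht' : t ≤ 1) (h : lM K T m c t = lM K T m' c' t) : m = m' := by
  have hB4 : 1 ≤ B ^ 4 := one_le_pow₀ hB
  have hB2 : 1 ≤ B ^ 2 := one_le_pow₀ hB
  have hK0 : 0 < K := by linarith
  have hBK : B ≤ K := by
    have : B ^ 1 ≤ B ^ 4 := pow_le_pow_right₀ hB (by norm_num)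
    linarith [pow_one B]
  have e := lM_sub hK0.ne' T m c m' c' t
  rw [h, sub_self] at e
  have h3 := mid_bound hB hc hcB hc' hcB' ht ht'
  by_contra hne
  have h2 := one_le_abs_sub hne
  have h4 : |(c - c') * (t + (c + c') * (1 - t ^ 2))| =
      |(m : ℝ) - m'| * |T - (m + m') / (4 * K)| := by
    have : (c - c') * (t + (c + c') * (1 - t ^ 2)) =
      -(((m : ℝ) - m') * (T - (m + m') / (4 * K))) := by linarith
    rw [this, abs_neg, abs_mul]
  have h5 : ((m : ℝ) + m') / (4 * K) ≤ 1 := by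
    rw [div_le_one (by positivity)]
    have a1 := (le_abs_self (m : ℝ)).trans hm
    have a2 := (le_abs_self (m' : ℝ)).trans hm'
    linarith
  have h6 : 4 * B ^ 2 ≤ |T - ((m : ℝ) + m') / (4 * K)| := by
    refine le_trans ?_ (le_abs_self _)
    nlinarith
  have h7 : 4 * B ^ 2 ≤ |(m : ℝ) - m'| * |T - ((m : ℝ) + m') / (4 * K)| := by
    nlinarith [abs_nonneg (T - ((m : ℝ) + m') / (4 * K))]
  linarith

end Middle


/-! ### Pairs of curves -/

section Pairs

variable {B K T : ℝ}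

lemma three_pieces (S : Set ℝ) (h1 : (S ∩ Iic (-1)).Subsingleton)
    (h2 : (S ∩ Icc (-1) 1).Subsingleton) (h3 : (S ∩ Ici 1).Subsingleton) :
    S.Finite ∧ S.ncard ≤ 3 := by
  have hS : S ⊆ (S ∩ Iic (-1)) ∪ (S ∩ Icc (-1) 1) ∪ (S ∩ Ici 1) := by
    intro x hx
    rcases le_total x (-1) with h | h
    · exact Or.inl (Or.inl ⟨hx, h⟩)
    · rcases le_total x 1 with h' | h'
      · exact Or.inl (Or.inr ⟨hx, h, h'⟩)
      · exact Or.inr ⟨hx, h'⟩
  have f : ((S ∩ Iic (-1)) ∪ (S ∩ Icc (-1) 1) ∪ (S ∩ Ici 1)).Finite :=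
    (h1.finite.union h2.finite).union h3.finite
  refine ⟨f.subset hS, (ncard_le_ncard hS f).trans ?_⟩
  refine (ncard_union_le _ _).trans ?_
  have a := ncard_union_le (S ∩ Iic (-1)) (S ∩ Icc (-1) 1)
  have b1 := (ncard_le_one h1.finite).mpr (fun a ha b hb => h1 ha hb)
  have b2 := (ncard_le_one h2.finite).mpr (fun a ha b hb => h2 ha hb)
  have b3 := (ncard_le_one h3.finite).mpr (fun a ha b hb => h3 ha hb)
  omega

lemma two_points (S : Set ℝ) (a b : ℝ) (h : S ⊆ {a, b}) : S.Finite ∧ S.ncard ≤ 3 := by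
  have f : ({a, b} : Set ℝ).Finite := by simp
  refine ⟨f.subset h, (ncard_le_ncard h f).trans ?_⟩
  exact (ncard_insert_le a {b}).trans (by simp)

lemma ivt_mid {h : ℝ → ℝ} (hc : Continuous h) (h1 : h (-1) * h 1 ≤ 0) : ∃ X, h X = 0 := by
  rcases le_total (h (-1)) 0 with a | a
  · rcases le_total 0 (h 1) with b | b
    · have := intermediate_value_Icc (by norm_num : (-1 : ℝ) ≤ 1) hc.continuousOn
      obtain ⟨X, -, hX⟩ := this ⟨a, b⟩
      exact ⟨X, hX⟩
    · have : h (-1) * h 1 = 0 := le_antisymm h1 (mul_nonneg_of_nonpos_of_nonpos a b)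
      rcases mul_eq_zero.mp this with h0 | h0
      · exact ⟨_, h0⟩
      · exact ⟨_, h0⟩
  · rcases le_total 0 (h 1) with b | b
    · have : h (-1) * h 1 = 0 := le_antisymm h1 (mul_nonneg a b)
      rcases mul_eq_zero.mp this with h0 | h0
      · exact ⟨_, h0⟩
      · exact ⟨_, h0⟩
    · have := intermediate_value_Icc' (by norm_num : (-1 : ℝ) ≤ 1) hc.continuousOn
      obtain ⟨X, -, hX⟩ := this ⟨b, a⟩
      exact ⟨X, hX⟩

/-- uniqueness of the common point of two outer pieces of the upper kind -/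
lemma outer_AA_unique (hK0 : 0 < K) {x x' : ℤ} {y y' p p' : ℝ} (hne : (x, y) ≠ (x', y'))
    (h : pL K x y p = pL K x' y' p) (h' : pL K x y p' = pL K x' y' p') : p = p' := by
  have e := pL_sub K x y x' y' p
  rw [h, sub_self] at e
  have e' := pL_sub K x y x' y' p'
  rw [h', sub_self] at e'
  by_cases hx : x = x'
  · subst hx
    exfalso
    apply hne
    rw [Prod.mk.injEq]
    exact ⟨rfl, by linarith⟩
  · have h2 : (x : ℝ) - x' ≠ 0 := by
      intro h0
      apply hx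
      have : (x : ℝ) = x' := by linarith
      exact_mod_cast this
    have e3 : (K * ((x : ℝ) - x')) * (p - p') = 0 := by linear_combination (-1/2) * e' + (1/2) * e
    have h3 : K * ((x : ℝ) - x') ≠ 0 := mul_ne_zero hK0.ne' h2
    have := (mul_eq_zero.mp e3).resolve_left h3
    linarith

/-- uniqueness of the common point of two outer pieces of the lower kind -/
lemma outer_BB_unique (hK0 : 0 < K) {m m' c c' : ℤ} {p p' : ℝ} (hne : (m, c) ≠ (m', c'))
    (h : lL K m c p = lL K m' c' p) (h' : lL K m c p' = lL K m' c' p') : p = p' := by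
  have e := lL_sub hK0.ne' m c m' c' p
  rw [h, sub_self] at e
  have e' := lL_sub hK0.ne' m c m' c' p'
  rw [h', sub_self] at e'
  by_cases hm : m = m'
  · subst hm
    exfalso
    apply hne
    rw [Prod.mk.injEq]
    refine ⟨rfl, ?_⟩
    have : (c : ℝ) = c' := by linarith
    exact_mod_cast this
  · have h2 : (m : ℝ) - m' ≠ 0 := by
      intro h0
      apply hm
      have : (m : ℝ) = m' := by linarith
      exact_mod_cast this
    have e3 : ((m : ℝ) - m') * (p - p') = 0 := by linear_combination e' - e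
    have := (mul_eq_zero.mp e3).resolve_left h2
    linarith

lemma pair_AA (hB : 1 ≤ B) (hK : 10000 * B ^ 4 ≤ K) (hT : 10 * B ^ 2 ≤ T)
    {x x' y y' : ℤ} (hx : 1 ≤ x) (hxB : (x : ℝ) ≤ B) (hx' : 1 ≤ x') (hxB' : (x' : ℝ) ≤ B)
    (hy : 0 ≤ y) (hyB : (y : ℝ) ≤ B) (hy' : 0 ≤ y') (hyB' : (y' : ℝ) ≤ B)
    (hne : (x, y) ≠ (x', y')) :
    {X | pt K T x y X = pt K T x' y' X}.Finite ∧ {X | pt K T x y X = pt K T x' y' X}.Nonempty ∧
      {X | pt K T x y X = pt K T x' y' X}.ncard ≤ 3 := by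
  have hB4 : 1 ≤ B ^ 4 := one_le_pow₀ hB
  have hB2 : 1 ≤ B ^ 2 := one_le_pow₀ hB
  have hBB : B ≤ B ^ 4 := by
    have : B ^ 1 ≤ B ^ 4 := pow_le_pow_right₀ hB (by norm_num)
    simpa using this
  have hK0 : 0 < K := by linarith
  have hyr : (0 : ℝ) ≤ y := by exact_mod_cast hy
  have hyr' : (0 : ℝ) ≤ y' := by exact_mod_cast hy'
  have hxr : (1 : ℝ) ≤ x := by exact_mod_cast hx
  have hxr' : (1 : ℝ) ≤ x' := by exact_mod_cast hx'
  have hne1 : (x, (y : ℝ)) ≠ (x', (y' : ℝ)) := by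
    intro h0
    apply hne
    rw [Prod.mk.injEq] at h0 ⊢
    exact ⟨h0.1, by exact_mod_cast h0.2⟩
  have hne2 : (x, 1 / 2 - (y : ℝ)) ≠ (x', 1 / 2 - (y' : ℝ)) := by
    intro h0
    apply hne1
    rw [Prod.mk.injEq] at h0 ⊢
    exact ⟨h0.1, by linarith [h0.2]⟩
  have hcard := three_pieces {X | pt K T x y X = pt K T x' y' X} (by
    rintro X ⟨hX, hX1⟩ X' ⟨hX', hX1'⟩
    simp only [mem_ofPred_eq, mem_Iic] at hX hX' hX1 hX1'
    rw [pt_left hX1, pt_left hX1] at hX
    rw [pt_left hX1', pt_left hX1'] at hX'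
    have := outer_AA_unique hK0 hne1 hX hX'
    linarith) (by
    rintro X ⟨hX, hX1⟩ X' ⟨hX', hX1'⟩
    simp only [mem_ofPred_eq, mem_Icc] at hX hX' hX1 hX1'
    rw [pt_mid hX1.1 hX1.2, pt_mid hX1.1 hX1.2] at hX
    rw [pt_mid hX1'.1 hX1'.2, pt_mid hX1'.1 hX1'.2] at hX'
    have := mid_AA_unique hB hK hT hyr hyB hyr' hyB' (by linarith) (by linarith) (by linarith)
      (by linarith) hne1 hX hX'
    linarith) (by
    rintro X ⟨hX, hX1⟩ X' ⟨hX', hX1'⟩
    simp only [mem_ofPred_eq, mem_Ici] at hX hX' hX1 hX1'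
    rw [pt_right hX1, pt_right hX1] at hX
    rw [pt_right hX1', pt_right hX1'] at hX'
    have := outer_AA_unique hK0 hne2 hX hX'
    linarith)
  refine ⟨hcard.1, ?_, hcard.2⟩
  have hcont : Continuous (fun X => pt K T x y X - pt K T x' y' X) :=
    (continuous_pt _ _ _ _).sub (continuous_pt _ _ _ _)
  have v1 : pt K T x y (-1) - pt K T x' y' (-1) =
      (y - y') + K * ((x : ℝ) - x') * (x + x' - 2 * T) := by
    rw [pt_left le_rfl, pt_left le_rfl, pL_sub]; ring
  have v2 : pt K T x y 1 - pt K T x' y' 1 =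
      -((y : ℝ) - y') + K * ((x : ℝ) - x') * (x + x' + 2 * T) := by
    rw [pt_right le_rfl, pt_right le_rfl, pL_sub]; ring
  have hsgn : (pt K T x y (-1) - pt K T x' y' (-1)) * (pt K T x y 1 - pt K T x' y' 1) ≤ 0 := by
    rw [v1, v2]
    rcases lt_trichotomy x x' with hlt | heq | hgt
    · have h1 : (x : ℝ) + 1 ≤ x' := by exact_mod_cast hlt
      have hd : (x : ℝ) - x' ≤ -1 := by linarith
      have q1 : (1 : ℝ) ≤ -((x : ℝ) + x' - 2 * T) := by nlinarith
      have q2 : (1 : ℝ) ≤ (x : ℝ) + x' + 2 * T := by nlinarith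
      have r1 : (1 : ℝ) ≤ (-((x : ℝ) - x')) * (-((x : ℝ) + x' - 2 * T)) := by nlinarith
      have r2 : (1 : ℝ) ≤ (-((x : ℝ) - x')) * ((x : ℝ) + x' + 2 * T) := by nlinarith
      have s1 := mul_le_mul_of_nonneg_left r1 hK0.le
      have s2 := mul_le_mul_of_nonneg_left r2 hK0.le
      apply mul_nonpos_of_nonneg_of_nonpos
      · linarith
      · linarith
    · subst heq
      have : (y - (y' : ℝ) + K * ((x : ℝ) - x) * (x + x - 2 * T)) *
        (-((y : ℝ) - y') + K * ((x : ℝ) - x) * (x + x + 2 * T)) = - ((y : ℝ) - y') ^ 2 := by ring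
      rw [this]
      nlinarith [sq_nonneg ((y : ℝ) - y')]
    · have h1 : (x' : ℝ) + 1 ≤ x := by exact_mod_cast hgt
      have hd : (1 : ℝ) ≤ (x : ℝ) - x' := by linarith
      have q1 : (1 : ℝ) ≤ -((x : ℝ) + x' - 2 * T) := by nlinarith
      have q2 : (1 : ℝ) ≤ (x : ℝ) + x' + 2 * T := by nlinarith
      have r1 : (1 : ℝ) ≤ ((x : ℝ) - x') * (-((x : ℝ) + x' - 2 * T)) := by nlinarith
      have r2 : (1 : ℝ) ≤ ((x : ℝ) - x') * ((x : ℝ) + x' + 2 * T) := by nlinarith
      have s1 := mul_le_mul_of_nonneg_left r1 hK0.le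
      have s2 := mul_le_mul_of_nonneg_left r2 hK0.le
      apply mul_nonpos_of_nonpos_of_nonneg
      · linarith
      · linarith
  obtain ⟨X, hX⟩ := ivt_mid hcont hsgn
  exact ⟨X, by simpa [sub_eq_zero] using hX⟩

lemma pair_BB (hB : 1 ≤ B) (hK : 10000 * B ^ 4 ≤ K) (hT : 10 * B ^ 2 ≤ T)
    {m m' c c' : ℤ} (hm : 0 ≤ m) (hmB : (m : ℝ) ≤ B) (hm' : 0 ≤ m') (hmB' : (m' : ℝ) ≤ B)
    (hc : 0 ≤ c) (hcB : (c : ℝ) ≤ B) (hc' : 0 ≤ c') (hcB' : (c' : ℝ) ≤ B)
    (hne : (m, c) ≠ (m', c')) :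
    {X | ln K T m c X = ln K T m' c' X}.Finite ∧ {X | ln K T m c X = ln K T m' c' X}.Nonempty ∧
      {X | ln K T m c X = ln K T m' c' X}.ncard ≤ 3 := by
  have hB4 : 1 ≤ B ^ 4 := one_le_pow₀ hB
  have hB2 : 1 ≤ B ^ 2 := one_le_pow₀ hB
  have hBB : B ≤ B ^ 4 := by
    have : B ^ 1 ≤ B ^ 4 := pow_le_pow_right₀ hB (by norm_num)
    simpa using this
  have hK0 : 0 < K := by linarith
  have hcr : (0 : ℝ) ≤ c := by exact_mod_cast hc
  have hcr' : (0 : ℝ) ≤ c' := by exact_mod_cast hc'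
  have hmr : (0 : ℝ) ≤ m := by exact_mod_cast hm
  have hmr' : (0 : ℝ) ≤ m' := by exact_mod_cast hm'
  have hma : |(m : ℝ)| ≤ B := by rwa [abs_of_nonneg hmr]
  have hma' : |(m' : ℝ)| ≤ B := by rwa [abs_of_nonneg hmr']
  have hne2 : (-m, -c) ≠ (-m', -c') := by
    intro h0
    apply hne
    rw [Prod.mk.injEq] at h0 ⊢
    exact ⟨by linarith [h0.1], by linarith [h0.2]⟩
  have hcard := three_pieces {X | ln K T m c X = ln K T m' c' X} (by
    rintro X ⟨hX, hX1⟩ X' ⟨hX', hX1'⟩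
    simp only [mem_ofPred_eq, mem_Iic] at hX hX' hX1 hX1'
    rw [ln_left hX1, ln_left hX1] at hX
    rw [ln_left hX1', ln_left hX1'] at hX'
    have := outer_BB_unique hK0 hne hX hX'
    linarith) (by
    rintro X ⟨hX, hX1⟩ X' ⟨hX', hX1'⟩
    simp only [mem_ofPred_eq, mem_Icc] at hX hX' hX1 hX1'
    rw [ln_mid hX1.1 hX1.2, ln_mid hX1.1 hX1.2] at hX
    rw [ln_mid hX1'.1 hX1'.2, ln_mid hX1'.1 hX1'.2] at hX'
    have hmm := mid_BB hB hK hT hma hma' hcr hcB hcr' hcB' (by linarith) (by linarith) hX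
    subst hmm
    have hcc : (c : ℝ) - c' ≠ 0 := by
      intro h0
      apply hne
      rw [Prod.mk.injEq]
      refine ⟨rfl, ?_⟩
      have : (c : ℝ) = c' := by linarith
      exact_mod_cast this
    have e1 := lM_sub hK0.ne' T m c m c' (-X)
    rw [hX, sub_self] at e1
    have e2 := lM_sub hK0.ne' T m c m c' (-X')
    rw [hX', sub_self] at e2
    have e1' : ((c : ℝ) - c') * ((-X) + (c + c') * (1 - (-X) ^ 2)) = 0 := by linarith
    have e2' : ((c : ℝ) - c') * ((-X') + (c + c') * (1 - (-X') ^ 2)) = 0 := by linarith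
    have f1 := (mul_eq_zero.mp e1').resolve_left hcc
    have f2 := (mul_eq_zero.mp e2').resolve_left hcc
    have := quad_unique (by linarith) (by linarith) (by linarith) (by linarith) (by linarith) f1 f2
    linarith) (by
    rintro X ⟨hX, hX1⟩ X' ⟨hX', hX1'⟩
    simp only [mem_ofPred_eq, mem_Ici] at hX hX' hX1 hX1'
    rw [ln_right hX1, ln_right hX1] at hX
    rw [ln_right hX1', ln_right hX1'] at hX'
    have := outer_BB_unique hK0 hne2 (p := X - 1 - T) (p' := X' - 1 - T)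
      (by push_cast; exact hX) (by push_cast; exact hX')
    linarith)
  refine ⟨hcard.1, ?_, hcard.2⟩
  by_cases hmm : m = m'
  · subst hmm
    have hcont : Continuous (fun X => ln K T m c X - ln K T m c' X) :=
      (continuous_ln _ _ _ _).sub (continuous_ln _ _ _ _)
    have v1 : ln K T m c (-1) - ln K T m c' (-1) = (c : ℝ) - c' := by
      rw [ln_left le_rfl, ln_left le_rfl, lL_sub hK0.ne']; ring
    have v2 : ln K T m c 1 - ln K T m c' 1 = -((c : ℝ) - c') := by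
      rw [ln_right le_rfl, ln_right le_rfl, lL_sub hK0.ne']; ring
    have hsgn : (ln K T m c (-1) - ln K T m c' (-1)) * (ln K T m c 1 - ln K T m c' 1) ≤ 0 := by
      rw [v1, v2]
      nlinarith [sq_nonneg ((c : ℝ) - c')]
    obtain ⟨X, hX⟩ := ivt_mid hcont hsgn
    exact ⟨X, by simpa [sub_eq_zero] using hX⟩
  · have h2 := one_le_abs_sub hmm
    have hd : (m : ℝ) - m' ≠ 0 := by
      intro h0
      rw [h0, abs_zero] at h2
      linarith
    set q : ℝ := (m + m') / (4 * K) - (c - c') / (m - m') with hq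
    have hq1 : q ≤ T := by
      have a1 : ((m : ℝ) + m') / (4 * K) ≤ 1 := by
        rw [div_le_one (by positivity)]
        linarith
      have a2 : |((c : ℝ) - c') / (m - m')| ≤ B := by
        rw [abs_div, div_le_iff₀ (by linarith)]
        have : |(c : ℝ) - c'| ≤ B := by rw [abs_le]; constructor <;> linarith
        nlinarith
      have a3 := neg_le_abs (((c : ℝ) - c') / (m - m'))
      nlinarith
    refine ⟨q - 1 - T, ?_⟩
    have hle : q - 1 - T ≤ -1 := by linarith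
    rw [mem_ofPred_eq, ln_left hle, ln_left hle, ← sub_eq_zero, lL_sub hK0.ne', hq]
    field_simp
    ring

end Pairs


/-! ### An upper and a lower curve -/

section Mixed

variable {B K T : ℝ}

/-- difference of an upper and a lower curve on the left -/
lemma diff_left (hK : K ≠ 0) {x y m c X : ℝ} (hX : X ≤ -1) :
    pt K T x y X - ln K T m c X =
      (y - m * x - c) + K * (X + 1 + T - x - m / (2 * K)) ^ 2 := by
  rw [pt_left hX, ln_left hX, pL_sub_lL hK]

/-- difference of an upper and a lower curve on the right -/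
lemma diff_right (hK : K ≠ 0) {x y m c X : ℝ} (hX : 1 ≤ X) :
    pt K T x y X - ln K T m c X =
      -(y - m * x - c) + 1 / 2 + K * (X - 1 - T - x + m / (2 * K)) ^ 2 := by
  rw [pt_right hX, ln_right hX, pL_sub_lL hK]
  ring

lemma diff_mid (hB : 1 ≤ B) (hK : 10000 * B ^ 4 ≤ K) (hT : 10 * B ^ 2 ≤ T)
    {x y m c X : ℝ} (hx : 0 ≤ x) (hxB : x ≤ B) (hy : 0 ≤ y) (hyB : y ≤ B)
    (hmB : m ≤ B) (hc : 0 ≤ c) (hcB : c ≤ B)
    (h1 : -1 ≤ X) (h2 : X ≤ 1) : 0 < pt K T x y X - ln K T m c X := by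
  rw [pt_mid h1 h2, ln_mid h1 h2]
  have := mid_AB hB hK hT hx hxB hy hyB hmB hc hcB (t := -X) (by linarith) (by linarith)
  linarith

lemma tangent_AB (hB : 1 ≤ B) (hK : 10000 * B ^ 4 ≤ K) (hT : 10 * B ^ 2 ≤ T)
    {x y m c : ℝ} (hx : 0 ≤ x) (hxB : x ≤ B) (hy : 0 ≤ y) (hyB : y ≤ B)
    (hmB : m ≤ B) (hc : 0 ≤ c) (hcB : c ≤ B) (hinc : y = m * x + c) :
    ∃ x₀, ln K T m c x₀ = pt K T x y x₀ ∧ ∀ X, X ≠ x₀ → ln K T m c X < pt K T x y X := by
  have hB4 : 1 ≤ B ^ 4 := one_le_pow₀ hB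
  have hBB : B ≤ B ^ 4 := by
    have : B ^ 1 ≤ B ^ 4 := pow_le_pow_right₀ hB (by norm_num)
    simpa using this
  have hB2 : B ≤ B ^ 2 := by nlinarith
  have hK0 : 0 < K := by linarith
  have hmK : m / (2 * K) ≤ 1 := by
    rw [div_le_one (by positivity)]; linarith
  have hδ : y - m * x - c = 0 := by linarith
  have hle : x + m / (2 * K) - 1 - T ≤ -1 := by linarith
  refine ⟨x + m / (2 * K) - 1 - T, ?_, ?_⟩
  · have := diff_left (T := T) hK0.ne' (x := x) (y := y) (m := m) (c := c) hle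
    rw [hδ] at this
    have e : x + m / (2 * K) - 1 - T + 1 + T - x - m / (2 * K) = 0 := by ring
    rw [e] at this
    linarith
  · intro X hX
    rw [← sub_pos]
    rcases le_total X (-1) with h | h
    · rw [diff_left hK0.ne' h, hδ, zero_add]
      have : X + 1 + T - x - m / (2 * K) ≠ 0 := by
        intro h0
        apply hX
        linarith
      positivity
    · rcases le_total X 1 with h' | h'
      · exact diff_mid hB hK hT hx hxB hy hyB hmB hc hcB h h'
      · rw [diff_right hK0.ne' h', hδ]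
        positivity

lemma pair_AB (hB : 1 ≤ B) (hK : 10000 * B ^ 4 ≤ K) (hT : 10 * B ^ 2 ≤ T)
    {x y m c : ℤ} (hx : 1 ≤ x) (hxB : (x : ℝ) ≤ B) (hy : 0 ≤ y) (hyB : (y : ℝ) ≤ B)
    (hm : 0 ≤ m) (hmB : (m : ℝ) ≤ B) (hc : 0 ≤ c) (hcB : (c : ℝ) ≤ B) :
    {X | pt K T x y X = ln K T m c X}.Finite ∧ {X | pt K T x y X = ln K T m c X}.Nonempty ∧
      {X | pt K T x y X = ln K T m c X}.ncard ≤ 3 := by
  have hB4 : 1 ≤ B ^ 4 := one_le_pow₀ hB
  have hBB : B ≤ B ^ 4 := by
    have : B ^ 1 ≤ B ^ 4 := pow_le_pow_right₀ hB (by norm_num)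
    simpa using this
  have hB24 : B ^ 2 ≤ B ^ 4 := pow_le_pow_right₀ hB (by norm_num)
  have hB2 : B ≤ B ^ 2 := by nlinarith
  have hK0 : 0 < K := by linarith
  have hyr : (0 : ℝ) ≤ y := by exact_mod_cast hy
  have hxr : (1 : ℝ) ≤ x := by exact_mod_cast hx
  have hmr : (0 : ℝ) ≤ m := by exact_mod_cast hm
  have hcr : (0 : ℝ) ≤ c := by exact_mod_cast hc
  have hmK : (m : ℝ) / (2 * K) ≤ 1 := by
    rw [div_le_one (by positivity)]; linarith
  have hmK0 : 0 ≤ (m : ℝ) / (2 * K) := by positivity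
  have hmx : 0 ≤ (m : ℝ) * x := by positivity
  have hmx' : (m : ℝ) * x ≤ B ^ 2 := by
    calc (m : ℝ) * x ≤ B * B := mul_le_mul hmB hxB (by linarith) (by linarith)
      _ = B ^ 2 := by ring
  rcases lt_trichotomy (y - m * x - c) 0 with hδ | hδ | hδ
  · -- crossing twice on the left
    have hδr : ((y : ℝ) - m * x - c) < 0 := by exact_mod_cast hδ
    set r := √(-((y : ℝ) - m * x - c) / K) with hr
    have hr2 : r ^ 2 = -((y : ℝ) - m * x - c) / K := Real.sq_sqrt (by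
      apply div_nonneg _ hK0.le; linarith)
    have hr0 : 0 ≤ r := Real.sqrt_nonneg _
    have hr1 : r ≤ 1 := by
      rw [hr, Real.sqrt_le_one]
      rw [div_le_one hK0]
      nlinarith
    have hKr : K * r ^ 2 = -((y : ℝ) - m * x - c) := by
      rw [hr2]; field_simp
    have hcard := two_points {X | pt K T x y X = ln K T m c X}
      (x + m / (2 * K) - r - 1 - T) (x + m / (2 * K) + r - 1 - T) (by
      intro X hX
      rw [mem_ofPred_eq, ← sub_eq_zero] at hX
      rcases le_total X (-1) with h | h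
      · rw [diff_left hK0.ne' h] at hX
        have e : K * ((X + 1 + T - x - m / (2 * K)) ^ 2 - r ^ 2) = 0 := by linarith
        have e1 := (mul_eq_zero.mp e).resolve_left hK0.ne'
        have e2 : (X + 1 + T - x - m / (2 * K) - r) * (X + 1 + T - x - m / (2 * K) + r) = 0 := by
          linear_combination e1
        rcases mul_eq_zero.mp e2 with h0 | h0
        · right
          rw [mem_singleton_iff]
          linarith
        · left
          linarith
      · rcases le_total X 1 with h' | h'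
        · have := diff_mid hB hK hT (by linarith) hxB hyr hyB hmB hcr hcB h h'
          linarith
        · rw [diff_right hK0.ne' h'] at hX
          have : 0 ≤ K * (X - 1 - T - x + m / (2 * K)) ^ 2 := by positivity
          linarith)
    refine ⟨hcard.1, ⟨x + m / (2 * K) + r - 1 - T, ?_⟩, hcard.2⟩
    have hle : x + m / (2 * K) + r - 1 - T ≤ -1 := by nlinarith
    rw [mem_ofPred_eq, ← sub_eq_zero, diff_left hK0.ne' hle]
    have e : x + m / (2 * K) + r - 1 - T + 1 + T - x - m / (2 * K) = r := by ring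
    rw [e]
    linarith
  · -- tangent
    have hδr : ((y : ℝ) - m * x - c) = 0 := by exact_mod_cast hδ
    obtain ⟨x₀, h0, h1⟩ := tangent_AB hB hK hT (by linarith) hxB hyr hyB hmB hcr hcB
      (by linarith : (y : ℝ) = m * x + c)
    have hcard := two_points {X | pt K T x y X = ln K T m c X} x₀ x₀ (by
      intro X hX
      rw [mem_ofPred_eq] at hX
      by_contra hcon
      have hne : X ≠ x₀ := by
        intro h2
        apply hcon
        rw [h2]
        simp
      have := h1 X hne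
      linarith)
    exact ⟨hcard.1, ⟨x₀, h0.symm⟩, hcard.2⟩
  · -- crossing twice on the right
    have hδ1 : 1 ≤ y - m * x - c := hδ
    have hδr : 1 ≤ ((y : ℝ) - m * x - c) := by exact_mod_cast hδ1
    set r := √((((y : ℝ) - m * x - c) - 1 / 2) / K) with hr
    have hr2 : r ^ 2 = (((y : ℝ) - m * x - c) - 1 / 2) / K := Real.sq_sqrt (by
      apply div_nonneg _ hK0.le; linarith)
    have hr0 : 0 ≤ r := Real.sqrt_nonneg _
    have hr1 : r ≤ 1 := by
      rw [hr, Real.sqrt_le_one]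
      rw [div_le_one hK0]
      nlinarith
    have hKr : K * r ^ 2 = ((y : ℝ) - m * x - c) - 1 / 2 := by
      rw [hr2]; field_simp
    have hcard := two_points {X | pt K T x y X = ln K T m c X}
      (x - m / (2 * K) - r + 1 + T) (x - m / (2 * K) + r + 1 + T) (by
      intro X hX
      rw [mem_ofPred_eq, ← sub_eq_zero] at hX
      rcases le_total X (-1) with h | h
      · rw [diff_left hK0.ne' h] at hX
        have : 0 ≤ K * (X + 1 + T - x - m / (2 * K)) ^ 2 := by positivity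
        linarith
      · rcases le_total X 1 with h' | h'
        · have := diff_mid hB hK hT (by linarith) hxB hyr hyB hmB hcr hcB h h'
          linarith
        · rw [diff_right hK0.ne' h'] at hX
          have e : K * ((X - 1 - T - x + m / (2 * K)) ^ 2 - r ^ 2) = 0 := by linarith
          have e1 := (mul_eq_zero.mp e).resolve_left hK0.ne'
          have e2 : (X - 1 - T - x + m / (2 * K) - r) * (X - 1 - T - x + m / (2 * K) + r) = 0 := by
            linear_combination e1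
          rcases mul_eq_zero.mp e2 with h0 | h0
          · right
            rw [mem_singleton_iff]
            linarith
          · left
            linarith)
    refine ⟨hcard.1, ⟨x - m / (2 * K) + r + 1 + T, ?_⟩, hcard.2⟩
    have hle : 1 ≤ x - m / (2 * K) + r + 1 + T := by nlinarith
    rw [mem_ofPred_eq, ← sub_eq_zero, diff_right hK0.ne' hle]
    have e : x - m / (2 * K) + r + 1 + T - 1 - T - x + m / (2 * K) = r := by ring
    rw [e]
    linarith

end Mixed


/-! ### No point lies on three curves -/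

section Triples

variable {B K T : ℝ}

lemma tri_AAA (hB : 1 ≤ B) (hK : 10000 * B ^ 4 ≤ K) (hT : 10 * B ^ 2 ≤ T)
    {x x' x'' y y' y'' : ℤ} {X : ℝ}
    (hx : 1 ≤ x) (hx' : 1 ≤ x') (hx'' : 1 ≤ x'')
    (hy : 0 ≤ y) (hyB : (y : ℝ) ≤ B) (hy' : 0 ≤ y') (hyB' : (y' : ℝ) ≤ B)
    (hy'' : 0 ≤ y'') (hyB'' : (y'' : ℝ) ≤ B)
    (h12 : (x, y) ≠ (x', y')) (h23 : (x', y') ≠ (x'', y'')) (h13 : (x, y) ≠ (x'', y''))
    (h : pt K T x y X = pt K T x' y' X) (h' : pt K T x' y' X = pt K T x'' y'' X) : False := by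
  have hB2 : B ≤ B ^ 2 := by nlinarith
  have hyr : (0 : ℝ) ≤ y := by exact_mod_cast hy
  have hyr' : (0 : ℝ) ≤ y' := by exact_mod_cast hy'
  have hyr'' : (0 : ℝ) ≤ y'' := by exact_mod_cast hy''
  have hxr : (1 : ℝ) ≤ x := by exact_mod_cast hx
  have hxr' : (1 : ℝ) ≤ x' := by exact_mod_cast hx'
  have hxr'' : (1 : ℝ) ≤ x'' := by exact_mod_cast hx''
  have cast1 : ∀ {a b a' b' : ℤ}, (a, b) ≠ (a', b') → (a, (b : ℝ)) ≠ (a', (b' : ℝ)) := by
    intro a b a' b' hne h0
    apply hne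
    rw [Prod.mk.injEq] at h0 ⊢
    exact ⟨h0.1, by exact_mod_cast h0.2⟩
  have cast2 : ∀ {a b a' b' : ℤ}, (a, b) ≠ (a', b') →
      (a, 1 / 2 - (b : ℝ)) ≠ (a', 1 / 2 - (b' : ℝ)) := by
    intro a b a' b' hne h0
    apply cast1 hne
    rw [Prod.mk.injEq] at h0 ⊢
    exact ⟨h0.1, by linarith [h0.2]⟩
  have bd1 : ∀ {b : ℝ}, 0 ≤ b → b ≤ B → |b| ≤ 2 * B := by
    intro b h0 h1
    rw [abs_le]; constructor <;> linarith
  have bd2 : ∀ {b : ℝ}, 0 ≤ b → b ≤ B → |1 / 2 - b| ≤ 2 * B := by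
    intro b h0 h1
    rw [abs_le]; constructor <;> linarith
  rcases le_total X (-1) with hX | hX
  · rw [pt_left hX, pt_left hX] at h
    rw [pt_left hX, pt_left hX] at h'
    exact no_AAA hB hK (bd1 hyr hyB) (bd1 hyr' hyB') (bd1 hyr'' hyB'') (cast1 h12) (cast1 h23)
      (cast1 h13) h h'
  · rcases le_total X 1 with hX' | hX'
    · rw [pt_mid hX hX', pt_mid hX hX'] at h
      rw [pt_mid hX hX', pt_mid hX hX'] at h'
      have ht : -1 ≤ -X := by linarith
      have ht' : -X ≤ 1 := by linarith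
      set t := -X with htdef
      -- the two alternatives for a pair
      have same : ∀ {a b b' : ℤ}, (a, b) ≠ (a, b') → pM K T a b t = pM K T a b' t →
          0 ≤ (b : ℝ) → 0 ≤ (b' : ℝ) → t ≤ 0 ∧ t + ((b : ℝ) + b') * (1 - t ^ 2) = 0 := by
        intro a b b' hne he hb hb'
        have e := pM_sub K T a b a b' t
        rw [he, sub_self] at e
        have hbb : (b : ℝ) - b' ≠ 0 := by
          intro h0
          apply hne
          rw [Prod.mk.injEq]
          refine ⟨rfl, ?_⟩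
          have : (b : ℝ) = b' := by linarith
          exact_mod_cast this
        have e1 : ((b : ℝ) - b') * (t + (b + b') * (1 - t ^ 2)) = 0 := by linarith
        have e2 := (mul_eq_zero.mp e1).resolve_left hbb
        exact ⟨quad_nonpos (by linarith) ht ht' e2, e2⟩
      have diff : ∀ {a a' b b' : ℤ}, a ≠ a' → pM K T a b t = pM K T a' b' t →
          1 ≤ (a : ℝ) → 1 ≤ (a' : ℝ) → 0 ≤ (b : ℝ) → (b : ℝ) ≤ B → 0 ≤ (b' : ℝ) → (b' : ℝ) ≤ B →
          0 < t ∧ |(a : ℝ) + a' - 2 * T * t| < 1 / 2 := by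
        intro a a' b b' hne he ha ha' hb hbB hb' hbB'
        have e := mid_AA hB hK hb hbB hb' hbB' ht ht' hne he
        refine ⟨?_, e⟩
        rw [abs_lt] at e
        have e2 : 0 < T * t := by linarith [e.2]
        have hT0 : 0 < T := by nlinarith
        exact (pos_iff_pos_of_mul_pos e2).mp hT0
      by_cases hxx : x = x'
      · subst hxx
        obtain ⟨t0, e1⟩ := same h12 h hyr hyr'
        have hxx2 : x = x'' := by
          by_contra hne
          have := (diff hne h' hxr hxr'' hyr' hyB' hyr'' hyB'').1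
          linarith
        subst hxx2
        obtain ⟨-, e2⟩ := same h13 (h.trans h') hyr hyr''
        have e3 : ((y' : ℝ) - y'') * (1 - t ^ 2) = 0 := by linear_combination e1 - e2
        have hyy : (y' : ℝ) - y'' ≠ 0 := by
          intro h0
          apply h23
          rw [Prod.mk.injEq]
          refine ⟨rfl, ?_⟩
          have : (y' : ℝ) = y'' := by linarith
          exact_mod_cast this
        have e4 := (mul_eq_zero.mp e3).resolve_left hyy
        rw [e4, mul_zero, add_zero] at e1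
        rw [e1] at e4
        norm_num at e4
      · obtain ⟨t0, e1⟩ := diff hxx h hxr hxr' hyr hyB hyr' hyB'
        have hx13 : x ≠ x'' := by
          intro h0
          subst h0
          have := (same h13 (h.trans h') hyr hyr'').1
          linarith
        have hx23 : x' ≠ x'' := by
          intro h0
          subst h0
          have := (same h23 h' hyr' hyr'').1
          linarith
        obtain ⟨-, e2⟩ := diff hx13 (h.trans h') hxr hxr'' hyr hyB hyr'' hyB''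
        apply hx23
        apply int_eq_of_abs_lt_one
        rw [abs_lt] at e1 e2 ⊢
        constructor <;> linarith [e1.1, e1.2, e2.1, e2.2]
    · rw [pt_right hX', pt_right hX'] at h
      rw [pt_right hX', pt_right hX'] at h'
      exact no_AAA hB hK (bd2 hyr hyB) (bd2 hyr' hyB') (bd2 hyr'' hyB'') (cast2 h12) (cast2 h23)
        (cast2 h13) h h'

lemma tri_AAB (hB : 1 ≤ B) (hK : 10000 * B ^ 4 ≤ K) (hT : 10 * B ^ 2 ≤ T)
    {x x' y y' m c : ℤ} {X : ℝ}
    (hx : 1 ≤ x) (hxB : (x : ℝ) ≤ B) (hx' : 1 ≤ x') (hxB' : (x' : ℝ) ≤ B)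
    (hy : 0 ≤ y) (hyB : (y : ℝ) ≤ B) (hy' : 0 ≤ y') (hyB' : (y' : ℝ) ≤ B)
    (hm : 0 ≤ m) (hmB : (m : ℝ) ≤ B) (hc : 0 ≤ c) (hcB : (c : ℝ) ≤ B)
    (h12 : (x, y) ≠ (x', y'))
    (h : pt K T x y X = pt K T x' y' X) (h' : pt K T x' y' X = ln K T m c X) : False := by
  have hyr : (0 : ℝ) ≤ y := by exact_mod_cast hy
  have hyr' : (0 : ℝ) ≤ y' := by exact_mod_cast hy'
  have hxr : (1 : ℝ) ≤ x := by exact_mod_cast hx
  have hxr' : (1 : ℝ) ≤ x' := by exact_mod_cast hx'
  have hmr : (0 : ℝ) ≤ m := by exact_mod_cast hm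
  have hcr : (0 : ℝ) ≤ c := by exact_mod_cast hc
  have hma : |(m : ℝ)| ≤ B := by rwa [abs_of_nonneg hmr]
  have hca : |(c : ℝ)| ≤ B := by rwa [abs_of_nonneg hcr]
  have hxa : |(x : ℝ)| ≤ B := by rwa [abs_of_nonneg (by linarith)]
  have hxa' : |(x' : ℝ)| ≤ B := by rwa [abs_of_nonneg (by linarith)]
  rcases le_total X (-1) with hX | hX
  · rw [pt_left hX, pt_left hX] at h
    rw [pt_left hX, ln_left hX] at h'
    refine no_AAB hB hK hxa hxa' ?_ ?_ hma hca ?_ h h'
    · rw [abs_le]; constructor <;> linarith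
    · rw [abs_le]; constructor <;> linarith
    · intro h0
      apply h12
      rw [Prod.mk.injEq] at h0 ⊢
      exact ⟨h0.1, by exact_mod_cast h0.2⟩
  · rcases le_total X 1 with hX' | hX'
    · have := diff_mid hB hK hT (by linarith) hxB' hyr' hyB' hmB hcr hcB hX hX'
      linarith
    · rw [pt_right hX', pt_right hX'] at h
      rw [pt_right hX', ln_right hX'] at h'
      refine no_AAB (m := -(m : ℝ)) (c := -(c : ℝ)) hB hK hxa hxa' ?_ ?_ (by rwa [abs_neg])
        (by rwa [abs_neg]) ?_ h h'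
      · rw [abs_le]; constructor <;> linarith
      · rw [abs_le]; constructor <;> linarith
      · intro h0
        apply h12
        rw [Prod.mk.injEq] at h0 ⊢
        have : (y : ℝ) = y' := by linarith [h0.2]
        exact ⟨h0.1, by exact_mod_cast this⟩

lemma tri_ABB (hB : 1 ≤ B) (hK : 10000 * B ^ 4 ≤ K) (hT : 10 * B ^ 2 ≤ T)
    {x y m c m' c' : ℤ} {X : ℝ}
    (hx : 1 ≤ x) (hxB : (x : ℝ) ≤ B) (hy : 0 ≤ y) (hyB : (y : ℝ) ≤ B)
    (hm : 0 ≤ m) (hmB : (m : ℝ) ≤ B) (hc : 0 ≤ c) (hcB : (c : ℝ) ≤ B)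
    (hm' : 0 ≤ m') (hmB' : (m' : ℝ) ≤ B)
    (h12 : (m, c) ≠ (m', c'))
    (h : pt K T x y X = ln K T m c X) (h' : ln K T m c X = ln K T m' c' X) : False := by
  have hyr : (0 : ℝ) ≤ y := by exact_mod_cast hy
  have hxr : (1 : ℝ) ≤ x := by exact_mod_cast hx
  have hmr : (0 : ℝ) ≤ m := by exact_mod_cast hm
  have hcr : (0 : ℝ) ≤ c := by exact_mod_cast hc
  have hmr' : (0 : ℝ) ≤ m' := by exact_mod_cast hm'
  have hma : |(m : ℝ)| ≤ B := by rwa [abs_of_nonneg hmr]
  have hma' : |(m' : ℝ)| ≤ B := by rwa [abs_of_nonneg hmr']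
  have hca : |(c : ℝ)| ≤ B := by rwa [abs_of_nonneg hcr]
  have hxa : |(x : ℝ)| ≤ B := by rwa [abs_of_nonneg (by linarith)]
  rcases le_total X (-1) with hX | hX
  · rw [pt_left hX, ln_left hX] at h
    rw [ln_left hX, ln_left hX] at h'
    have ey : (y : ℝ) = ((2 * y : ℤ) : ℝ) / 2 := by push_cast; ring
    rw [ey] at h
    refine no_ABB hB hK hxa ?_ hma hca hma' h12 h h'
    rw [← ey, abs_le]; constructor <;> linarith
  · rcases le_total X 1 with hX' | hX'
    · have := diff_mid hB hK hT (by linarith) hxB hyr hyB hmB hcr hcB hX hX'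
      linarith
    · rw [pt_right hX', ln_right hX'] at h
      rw [ln_right hX', ln_right hX'] at h'
      have ey : 1 / 2 - (y : ℝ) = ((1 - 2 * y : ℤ) : ℝ) / 2 := by push_cast; ring
      have h2 : pL K x (((1 - 2 * y : ℤ) : ℝ) / 2) (X - 1 - T) =
          lL K ((-m : ℤ) : ℝ) ((-c : ℤ) : ℝ) (X - 1 - T) := by
        rw [← ey, Int.cast_neg, Int.cast_neg]
        exact h
      refine no_ABB (m := -m) (c := -c) (m' := -m') (c' := -c') hB hK hxa ?_
        (by push_cast; rwa [abs_neg]) (by push_cast; rwa [abs_neg])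
        (by push_cast; rwa [abs_neg]) ?_ h2 (by push_cast; exact h')
      · rw [← ey, abs_le]; constructor <;> linarith
      · intro h0
        apply h12
        rw [Prod.mk.injEq] at h0 ⊢
        exact ⟨by linarith [h0.1], by linarith [h0.2]⟩

lemma tri_BBB (hB : 1 ≤ B) (hK : 10000 * B ^ 4 ≤ K) (hT : 10 * B ^ 2 ≤ T)
    {m m' m'' c c' c'' : ℤ} {X : ℝ}
    (hm : 0 ≤ m) (hmB : (m : ℝ) ≤ B) (hc : 0 ≤ c) (hcB : (c : ℝ) ≤ B)
    (hm' : 0 ≤ m') (hmB' : (m' : ℝ) ≤ B) (hc' : 0 ≤ c') (hcB' : (c' : ℝ) ≤ B)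
    (hm'' : 0 ≤ m'') (hmB'' : (m'' : ℝ) ≤ B) (hc'' : 0 ≤ c'') (hcB'' : (c'' : ℝ) ≤ B)
    (h12 : (m, c) ≠ (m', c')) (h23 : (m', c') ≠ (m'', c'')) (h13 : (m, c) ≠ (m'', c''))
    (h : ln K T m c X = ln K T m' c' X) (h' : ln K T m' c' X = ln K T m'' c'' X) : False := by
  have hB4 : 1 ≤ B ^ 4 := one_le_pow₀ hB
  have hK0 : 0 < K := by linarith
  have hcr : (0 : ℝ) ≤ c := by exact_mod_cast hc
  have hcr' : (0 : ℝ) ≤ c' := by exact_mod_cast hc'
  have hcr'' : (0 : ℝ) ≤ c'' := by exact_mod_cast hc''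
  have hmr : (0 : ℝ) ≤ m := by exact_mod_cast hm
  have hmr' : (0 : ℝ) ≤ m' := by exact_mod_cast hm'
  have hmr'' : (0 : ℝ) ≤ m'' := by exact_mod_cast hm''
  have hma : |(m : ℝ)| ≤ B := by rwa [abs_of_nonneg hmr]
  have hma' : |(m' : ℝ)| ≤ B := by rwa [abs_of_nonneg hmr']
  have hma'' : |(m'' : ℝ)| ≤ B := by rwa [abs_of_nonneg hmr'']
  rcases le_total X (-1) with hX | hX
  · rw [ln_left hX, ln_left hX] at h
    rw [ln_left hX, ln_left hX] at h'
    exact no_BBB hB hK hma hma' hma'' h12 h23 h13 h h'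
  · rcases le_total X 1 with hX' | hX'
    · rw [ln_mid hX hX', ln_mid hX hX'] at h
      rw [ln_mid hX hX', ln_mid hX hX'] at h'
      have ht : -1 ≤ -X := by linarith
      have ht' : -X ≤ 1 := by linarith
      set t := -X with htdef
      have hmm := mid_BB hB hK hT hma hma' hcr hcB hcr' hcB' ht ht' h
      have hmm' := mid_BB hB hK hT hma' hma'' hcr' hcB' hcr'' hcB'' ht ht' h'
      subst hmm
      subst hmm'
      have same : ∀ {b b' : ℤ}, (m, b) ≠ (m, b') → lM K T m b t = lM K T m b' t →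
          t + ((b : ℝ) + b') * (1 - t ^ 2) = 0 ∧ (b : ℝ) - b' ≠ 0 := by
        intro b b' hne he
        have e := lM_sub hK0.ne' T m b m b' t
        rw [he, sub_self] at e
        have hbb : (b : ℝ) - b' ≠ 0 := by
          intro h0
          apply hne
          rw [Prod.mk.injEq]
          refine ⟨rfl, ?_⟩
          have : (b : ℝ) = b' := by linarith
          exact_mod_cast this
        have e1 : ((b : ℝ) - b') * (t + (b + b') * (1 - t ^ 2)) = 0 := by linarith
        exact ⟨(mul_eq_zero.mp e1).resolve_left hbb, hbb⟩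
      obtain ⟨e1, -⟩ := same h12 h
      obtain ⟨e2, -⟩ := same h13 (h.trans h')
      obtain ⟨-, hcc⟩ := same h23 h'
      have e3 : ((c' : ℝ) - c'') * (1 - t ^ 2) = 0 := by linear_combination e1 - e2
      have e4 := (mul_eq_zero.mp e3).resolve_left hcc
      rw [e4, mul_zero, add_zero] at e1
      rw [e1] at e4
      norm_num at e4
    · rw [ln_right hX', ln_right hX'] at h
      rw [ln_right hX', ln_right hX'] at h'
      have neg_ne : ∀ {a b a' b' : ℤ}, (a, b) ≠ (a', b') → (-a, -b) ≠ (-a', -b') := by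
        intro a b a' b' hne h0
        apply hne
        rw [Prod.mk.injEq] at h0 ⊢
        exact ⟨by linarith [h0.1], by linarith [h0.2]⟩
      exact no_BBB (m := -m) (c := -c) (m' := -m') (c' := -c') (m'' := -m'') (c'' := -c'') hB hK
        (by push_cast; rwa [abs_neg]) (by push_cast; rwa [abs_neg]) (by push_cast; rwa [abs_neg])
        (neg_ne h12) (neg_ne h23) (neg_ne h13) (by push_cast; exact h) (by push_cast; exact h')

end Triples


/-! ### The family -/

section Family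

/-- the index of a curve: a lower curve is given by its slope and intercept, an upper curve by the
coordinates of its apex -/
abbrev Idx := (ℤ × ℤ) ⊕ (ℤ × ℤ)

/-- the curve with a given index -/
noncomputable def val (K T : ℝ) : Idx → ℝ → ℝ
  | Sum.inl a => ln K T a.1 a.2
  | Sum.inr a => pt K T a.1 a.2

/-- the indices whose parameters are within the bound `B` -/
def Ok (B : ℝ) : Idx → Prop
  | Sum.inl a => 0 ≤ a.1 ∧ (a.1 : ℝ) ≤ B ∧ 0 ≤ a.2 ∧ (a.2 : ℝ) ≤ B
  | Sum.inr a => 1 ≤ a.1 ∧ (a.1 : ℝ) ≤ B ∧ 0 ≤ a.2 ∧ (a.2 : ℝ) ≤ B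

variable {B K T : ℝ}

lemma continuous_val (u : Idx) : Continuous (val K T u) := by
  rcases u with a | a
  · exact continuous_ln _ _ _ _
  · exact continuous_pt _ _ _ _

lemma pair_val (hB : 1 ≤ B) (hK : 10000 * B ^ 4 ≤ K) (hT : 10 * B ^ 2 ≤ T) {u v : Idx}
    (hu : Ok B u) (hv : Ok B v) (huv : u ≠ v) :
    {X | val K T u X = val K T v X}.Finite ∧ {X | val K T u X = val K T v X}.Nonempty ∧
      {X | val K T u X = val K T v X}.ncard ≤ 3 := by
  rcases u with ⟨a, b⟩ | ⟨a, b⟩ <;> rcases v with ⟨a', b'⟩ | ⟨a', b'⟩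
  · obtain ⟨h1, h2, h3, h4⟩ := hu
    obtain ⟨h1', h2', h3', h4'⟩ := hv
    exact pair_BB hB hK hT h1 h2 h1' h2' h3 h4 h3' h4' (fun h => huv (congrArg Sum.inl h))
  · obtain ⟨h1, h2, h3, h4⟩ := hu
    obtain ⟨h1', h2', h3', h4'⟩ := hv
    have := pair_AB hB hK hT h1' h2' h3' h4' h1 h2 h3 h4
    have e : {X | val K T (Sum.inl (a, b)) X = val K T (Sum.inr (a', b')) X} =
        {X | pt K T a' b' X = ln K T a b X} := by
      ext X
      exact eq_comm
    rw [e]
    exact this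
  · obtain ⟨h1, h2, h3, h4⟩ := hu
    obtain ⟨h1', h2', h3', h4'⟩ := hv
    exact pair_AB hB hK hT h1 h2 h3 h4 h1' h2' h3' h4'
  · obtain ⟨h1, h2, h3, h4⟩ := hu
    obtain ⟨h1', h2', h3', h4'⟩ := hv
    exact pair_AA hB hK hT h1 h2 h1' h2' h3 h4 h3' h4' (fun h => huv (congrArg Sum.inr h))

lemma tri_val (hB : 1 ≤ B) (hK : 10000 * B ^ 4 ≤ K) (hT : 10 * B ^ 2 ≤ T) {u v w : Idx} {X : ℝ}
    (hu : Ok B u) (hv : Ok B v) (hw : Ok B w) (huv : u ≠ v) (hvw : v ≠ w) (huw : u ≠ w)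
    (h : val K T u X = val K T v X) (h' : val K T v X = val K T w X) : False := by
  rcases u with ⟨a, b⟩ | ⟨a, b⟩ <;> rcases v with ⟨a', b'⟩ | ⟨a', b'⟩ <;>
    rcases w with ⟨a'', b''⟩ | ⟨a'', b''⟩ <;>
    obtain ⟨h1, h2, h3, h4⟩ := hu <;>
    obtain ⟨h1', h2', h3', h4'⟩ := hv <;>
    obtain ⟨h1'', h2'', h3'', h4''⟩ := hw <;>
    simp only [ne_eq, Sum.inl.injEq, Sum.inr.injEq] at huv hvw huw <;>
    simp only [val] at h h'
  · exact tri_BBB hB hK hT h1 h2 h3 h4 h1' h2' h3' h4' h1'' h2'' h3'' h4'' huv hvw huw h h'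
  · exact tri_ABB hB hK hT h1'' h2'' h3'' h4'' h1' h2' h3' h4' h1 h2 (Ne.symm huv) h'.symm h.symm
  · exact tri_ABB hB hK hT h1' h2' h3' h4' h1 h2 h3 h4 h1'' h2'' huw h.symm (h.trans h')
  · exact tri_AAB hB hK hT h1'' h2'' h1' h2' h3'' h4'' h3' h4' h1 h2 h3 h4 (Ne.symm hvw)
      h'.symm h.symm
  · exact tri_ABB hB hK hT h1 h2 h3 h4 h1' h2' h3' h4' h1'' h2'' hvw h h'
  · exact tri_AAB hB hK hT h1'' h2'' h1 h2 h3'' h4'' h3 h4 h1' h2' h3' h4' (Ne.symm huw)
      (h.trans h').symm h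
  · exact tri_AAB hB hK hT h1 h2 h1' h2' h3 h4 h3' h4' h1'' h2'' h3'' h4'' huv h h'
  · exact tri_AAA hB hK hT h1 h1' h1'' h3 h4 h3' h4' h3'' h4'' huv hvw huw h h'

lemma tangent_val (hB : 1 ≤ B) (hK : 10000 * B ^ 4 ≤ K) (hT : 10 * B ^ 2 ≤ T) {x y m c : ℤ}
    (hp : Ok B (Sum.inr (x, y))) (hl : Ok B (Sum.inl (m, c))) (hinc : y = m * x + c) :
    ∃ x₀, val K T (Sum.inl (m, c)) x₀ = val K T (Sum.inr (x, y)) x₀ ∧
      ((∀ X, X ≠ x₀ → val K T (Sum.inl (m, c)) X < val K T (Sum.inr (x, y)) X) ∨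
        (∀ X, X ≠ x₀ → val K T (Sum.inr (x, y)) X < val K T (Sum.inl (m, c)) X)) := by
  obtain ⟨h1, h2, h3, h4⟩ := hp
  obtain ⟨h1', h2', h3', h4'⟩ := hl
  have h1r : (1 : ℝ) ≤ x := by exact_mod_cast h1
  have h3r : (0 : ℝ) ≤ y := by exact_mod_cast h3
  have h3r' : (0 : ℝ) ≤ c := by exact_mod_cast h3'
  obtain ⟨x₀, e0, e1⟩ := tangent_AB (m := m) (c := c) hB hK hT (by linarith) h2 h3r h4 h2' h3r' h4'
    (by exact_mod_cast hinc)
  exact ⟨x₀, e0, Or.inl e1⟩

/-- Every finite configuration of integer points and lines is realised by the tangencies of an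
admissible family of curves. -/
lemma family_of_indices (n : ℕ) (e : Fin n → Idx) (he : Function.Injective e) (hB : 1 ≤ B)
    (hok : ∀ i, Ok B (e i)) (hK : 10000 * B ^ 4 ≤ K) (hT : 10 * B ^ 2 ≤ T) :
    (∀ i, Continuous (val K T (e i))) ∧
    (∀ i j, i ≠ j → {x | val K T (e i) x = val K T (e j) x}.Finite ∧
      {x | val K T (e i) x = val K T (e j) x}.Nonempty ∧
      {x | val K T (e i) x = val K T (e j) x}.ncard ≤ 3) ∧
    (∀ i j l, i ≠ j → j ≠ l → i ≠ l → ∀ x,
      ¬ (val K T (e i) x = val K T (e j) x ∧ val K T (e j) x = val K T (e l) x)) := by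
  refine ⟨fun i => continuous_val _, ?_, ?_⟩
  · intro i j hij
    exact pair_val hB hK hT (hok i) (hok j) (he.ne hij)
  · rintro i j l hij hjl hil X ⟨h, h'⟩
    exact tri_val hB hK hT (hok i) (hok j) (hok l) (he.ne hij) (he.ne hjl) (he.ne hil) h h'

end Family


/-! ### The grid -/

section Grid

/-- the index of the `i`-th curve: first `N ^ 3` lines, then a grid of `2 N ^ 3` points, then
additional points -/
def idx (N i : ℕ) : Idx :=
  if i < N ^ 3 then Sum.inl (((i / N ^ 2 : ℕ) : ℤ), ((i % N ^ 2 : ℕ) : ℤ))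
  else if i < 3 * N ^ 3 then
    Sum.inr ((((i - N ^ 3) / (2 * N ^ 2) + 1 : ℕ) : ℤ), (((i - N ^ 3) % (2 * N ^ 2) : ℕ) : ℤ))
  else Sum.inr (1, ((2 * N ^ 2 + (i - 3 * N ^ 3) : ℕ) : ℤ))

lemma idx_injective {N : ℕ} (hN : 1 ≤ N) : Function.Injective (idx N) := by
  have hN2 : 0 < N ^ 2 := by positivity
  intro i j h
  unfold idx at h
  split_ifs at h with h1 h2 h3 h4 h5 h6 h7 h8
  · simp only [Sum.inl.injEq, Prod.mk.injEq, Nat.cast_inj] at h
    rw [← Nat.div_add_mod i (N ^ 2), ← Nat.div_add_mod j (N ^ 2), h.1, h.2]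
  · simp only [Sum.inr.injEq, Prod.mk.injEq, Nat.cast_inj] at h
    have e1 : (i - N ^ 3) / (2 * N ^ 2) = (j - N ^ 3) / (2 * N ^ 2) := by
      have := h.1
      omega
    have e2 := h.2
    have e3 : i - N ^ 3 = j - N ^ 3 := by
      rw [← Nat.div_add_mod (i - N ^ 3) (2 * N ^ 2), ← Nat.div_add_mod (j - N ^ 3) (2 * N ^ 2),
        e1, e2]
    omega
  · exfalso
    simp only [Sum.inr.injEq, Prod.mk.injEq, Nat.cast_inj] at h
    have := Nat.mod_lt (i - N ^ 3) (by positivity : 0 < 2 * N ^ 2)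
    omega
  · exfalso
    simp only [Sum.inr.injEq, Prod.mk.injEq, Nat.cast_inj] at h
    have := Nat.mod_lt (j - N ^ 3) (by positivity : 0 < 2 * N ^ 2)
    omega
  · simp only [Sum.inr.injEq, Prod.mk.injEq, Nat.cast_inj] at h
    omega

lemma idx_ok {N n i : ℕ} (hN : 1 ≤ N) (_hn : 3 * N ^ 3 ≤ n) (hi : i < n) :
    Ok (3 * (n : ℝ)) (idx N i) := by
  have hN23 : N ^ 2 ≤ N ^ 3 := Nat.pow_le_pow_right hN (by norm_num)
  unfold idx
  split_ifs with h1 h2
  · have a1 : i / N ^ 2 ≤ i := Nat.div_le_self _ _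
    have a2 : i % N ^ 2 ≤ i := Nat.mod_le _ _
    refine ⟨by positivity, ?_, by positivity, ?_⟩
    · have : ((i / N ^ 2 : ℕ) : ℝ) ≤ ((3 * n : ℕ) : ℝ) := by exact_mod_cast (by omega)
      push_cast at this ⊢
      exact_mod_cast this
    · have : ((i % N ^ 2 : ℕ) : ℝ) ≤ ((3 * n : ℕ) : ℝ) := by exact_mod_cast (by omega)
      push_cast at this ⊢
      exact_mod_cast this
  · have a1 : (i - N ^ 3) / (2 * N ^ 2) ≤ i - N ^ 3 := Nat.div_le_self _ _
    have a2 : (i - N ^ 3) % (2 * N ^ 2) ≤ i - N ^ 3 := Nat.mod_le _ _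
    refine ⟨?_, ?_, by positivity, ?_⟩
    · show (1 : ℤ) ≤ (((i - N ^ 3) / (2 * N ^ 2) + 1 : ℕ) : ℤ)
      exact_mod_cast Nat.le_add_left 1 ((i - N ^ 3) / (2 * N ^ 2))
    · have : (((i - N ^ 3) / (2 * N ^ 2) + 1 : ℕ) : ℝ) ≤ ((3 * n : ℕ) : ℝ) := by
        exact_mod_cast (by omega)
      rw [Int.cast_natCast]
      push_cast at this ⊢
      exact this
    · have : (((i - N ^ 3) % (2 * N ^ 2) : ℕ) : ℝ) ≤ ((3 * n : ℕ) : ℝ) := by
        exact_mod_cast (by omega)
      rw [Int.cast_natCast]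
      push_cast at this ⊢
      exact this
  · refine ⟨le_rfl, ?_, by positivity, ?_⟩
    · have : ((1 : ℕ) : ℝ) ≤ ((3 * n : ℕ) : ℝ) := by exact_mod_cast (by omega)
      push_cast at this ⊢
      exact this
    · have : ((2 * N ^ 2 + (i - 3 * N ^ 3) : ℕ) : ℝ) ≤ ((3 * n : ℕ) : ℝ) := by
        exact_mod_cast (by omega)
      rw [Int.cast_natCast]
      push_cast at this ⊢
      exact this

lemma line_lt {N m c : ℕ} (hm : m < N) (hc : c < N ^ 2) : m * N ^ 2 + c < N ^ 3 := by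
  calc m * N ^ 2 + c < m * N ^ 2 + N ^ 2 := by omega
    _ = (m + 1) * N ^ 2 := by ring
    _ ≤ N * N ^ 2 := Nat.mul_le_mul_right _ hm
    _ = N ^ 3 := by ring

lemma ord_lt {N m c x : ℕ} (hm : m < N) (hc : c < N ^ 2) (hx : x < N) :
    m * (x + 1) + c < 2 * N ^ 2 := by
  have : m * (x + 1) ≤ N * N := Nat.mul_le_mul hm.le hx
  nlinarith

lemma point_lt {N m c x : ℕ} (hm : m < N) (hc : c < N ^ 2) (hx : x < N) :
    N ^ 3 + (x * (2 * N ^ 2) + (m * (x + 1) + c)) < 3 * N ^ 3 := by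
  have h1 := ord_lt hm hc hx
  have h2 : (x + 1) * (2 * N ^ 2) ≤ N * (2 * N ^ 2) := Nat.mul_le_mul_right _ hx
  nlinarith

/-- the tangent pair belonging to an incidence -/
def pairOf {N n : ℕ} (hn : 3 * N ^ 3 ≤ n) (t : Fin N × Fin (N ^ 2) × Fin N) : Fin n × Fin n :=
  (⟨t.1 * N ^ 2 + t.2.1, by
      have := line_lt t.1.2 t.2.1.2
      omega⟩,
    ⟨N ^ 3 + (t.2.2 * (2 * N ^ 2) + (t.1 * (t.2.2 + 1) + t.2.1)), by
      have := point_lt t.1.2 t.2.1.2 t.2.2.2
      omega⟩)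

lemma pairOf_injective {N n : ℕ} (hn : 3 * N ^ 3 ≤ n) : Function.Injective (pairOf hn) := by
  rintro ⟨m, c, x⟩ ⟨m', c', x'⟩ h
  have hN : 0 < N := m.pos
  have hN2 : 0 < N ^ 2 := by positivity
  simp only [pairOf, Prod.mk.injEq, Fin.mk.injEq] at h
  obtain ⟨h1, h2⟩ := h
  have e1 : (m : ℕ) = m' := by
    have a1 : ((m : ℕ) * N ^ 2 + c) / N ^ 2 = m := by
      rw [mul_comm, Nat.mul_add_div hN2, Nat.div_eq_of_lt c.2, add_zero]
    have a2 : ((m' : ℕ) * N ^ 2 + c') / N ^ 2 = m' := by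
      rw [mul_comm, Nat.mul_add_div hN2, Nat.div_eq_of_lt c'.2, add_zero]
    rw [← a1, ← a2, h1]
  have e2 : (c : ℕ) = c' := by
    rw [e1] at h1
    omega
  have e3 : (x : ℕ) = x' := by
    have h2' : (x : ℕ) * (2 * N ^ 2) + (m * (x + 1) + c) =
        x' * (2 * N ^ 2) + (m' * (x' + 1) + c') := by omega
    have a1 : ((x : ℕ) * (2 * N ^ 2) + (m * (x + 1) + c)) / (2 * N ^ 2) = x := by
      rw [mul_comm (x : ℕ), Nat.mul_add_div (by positivity),
        Nat.div_eq_of_lt (ord_lt m.2 c.2 x.2), add_zero]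
    have a2 : ((x' : ℕ) * (2 * N ^ 2) + (m' * (x' + 1) + c')) / (2 * N ^ 2) = x' := by
      rw [mul_comm (x' : ℕ), Nat.mul_add_div (by positivity),
        Nat.div_eq_of_lt (ord_lt m'.2 c'.2 x'.2), add_zero]
    rw [← a1, ← a2, h2']
  simp only [Prod.mk.injEq]
  exact ⟨Fin.ext e1, Fin.ext e2, Fin.ext e3⟩

lemma idx_fst {N m c : ℕ} (hm : m < N) (hc : c < N ^ 2) :
    idx N (m * N ^ 2 + c) = Sum.inl ((m : ℤ), (c : ℤ)) := by
  have hN : 0 < N := by omega
  have hN2 : 0 < N ^ 2 := by positivity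
  unfold idx
  rw [if_pos (line_lt hm hc)]
  have a1 : (m * N ^ 2 + c) / N ^ 2 = m := by
    rw [mul_comm, Nat.mul_add_div hN2, Nat.div_eq_of_lt hc, add_zero]
  have a2 : (m * N ^ 2 + c) % N ^ 2 = c := by
    rw [mul_comm, Nat.mul_add_mod, Nat.mod_eq_of_lt hc]
  rw [a1, a2]

lemma idx_snd {N m c x : ℕ} (hm : m < N) (hc : c < N ^ 2) (hx : x < N) :
    idx N (N ^ 3 + (x * (2 * N ^ 2) + (m * (x + 1) + c))) =
      Sum.inr (((x + 1 : ℕ) : ℤ), ((m * (x + 1) + c : ℕ) : ℤ)) := by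
  have hN : 0 < N := by omega
  have hN2 : 0 < N ^ 2 := by positivity
  unfold idx
  rw [if_neg (by omega), if_pos (point_lt hm hc hx), Nat.add_sub_cancel_left]
  have a1 : (x * (2 * N ^ 2) + (m * (x + 1) + c)) / (2 * N ^ 2) = x := by
    rw [mul_comm x, Nat.mul_add_div (by positivity),
      Nat.div_eq_of_lt (ord_lt hm hc hx), add_zero]
  have a2 : (x * (2 * N ^ 2) + (m * (x + 1) + c)) % (2 * N ^ 2) = m * (x + 1) + c := by
    rw [mul_comm x, Nat.mul_add_mod, Nat.mod_eq_of_lt (ord_lt hm hc hx)]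
  rw [a1, a2]

/-- For every `N ≥ 1` and `n ≥ 3 N ^ 3` there is a family of `n` curves with `N ^ 4` tangencies. -/
lemma exists_family {N n : ℕ} (hN : 1 ≤ N) (hn : 3 * N ^ 3 ≤ n) :
    ∃ F : Fin n → ℝ → ℝ, (∀ i, Continuous (F i)) ∧
      (∀ i j, i ≠ j → {x | F i x = F j x}.Finite ∧ {x | F i x = F j x}.Nonempty ∧
        {x | F i x = F j x}.ncard ≤ 3) ∧
      (∀ i j l, i ≠ j → j ≠ l → i ≠ l → ∀ x, ¬ (F i x = F j x ∧ F j x = F l x)) ∧
      N ^ 4 ≤ {p : Fin n × Fin n | p.1 < p.2 ∧ ∃ x₀, F p.1 x₀ = F p.2 x₀ ∧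
        ((∀ x, x ≠ x₀ → F p.1 x < F p.2 x) ∨ (∀ x, x ≠ x₀ → F p.2 x < F p.1 x))}.ncard := by
  have hn1 : 1 ≤ n := by
    have : 0 < N ^ 3 := by positivity
    omega
  have hB : (1 : ℝ) ≤ 3 * n := by
    have : (1 : ℝ) ≤ n := by exact_mod_cast hn1
    linarith
  set B : ℝ := 3 * n with hBdef
  set K : ℝ := 10000 * B ^ 4 with hK
  set T : ℝ := 10 * B ^ 2 with hT
  obtain ⟨c1, c2, c3⟩ := family_of_indices n (fun i => idx N i)
      ((idx_injective hN).comp Fin.val_injective) hB (fun i => idx_ok hN hn i.2)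
      (le_refl (10000 * B ^ 4)) (le_refl (10 * B ^ 2))
  refine ⟨fun i => val K T (idx N i), c1, c2, c3, ?_⟩
  · have hsub : range (pairOf hn) ⊆ {p : Fin n × Fin n | p.1 < p.2 ∧
        ∃ x₀, val K T (idx N p.1) x₀ = val K T (idx N p.2) x₀ ∧
        ((∀ x, x ≠ x₀ → val K T (idx N p.1) x < val K T (idx N p.2) x) ∨
          (∀ x, x ≠ x₀ → val K T (idx N p.2) x < val K T (idx N p.1) x))} := by
      rintro _ ⟨⟨m, c, x⟩, rfl⟩
      refine ⟨?_, ?_⟩
      · have := line_lt m.2 c.2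
        simp only [pairOf, Fin.mk_lt_mk]
        omega
      · simp only [pairOf]
        rw [idx_fst m.2 c.2, idx_snd m.2 c.2 x.2]
        have ok1 := idx_ok (i := (m : ℕ) * N ^ 2 + c) hN hn (by
          have := line_lt m.2 c.2
          omega)
        rw [idx_fst m.2 c.2] at ok1
        have ok2 := idx_ok (i := N ^ 3 + ((x : ℕ) * (2 * N ^ 2) + (m * (x + 1) + c))) hN hn (by
          have := point_lt m.2 c.2 x.2
          omega)
        rw [idx_snd m.2 c.2 x.2] at ok2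
        exact tangent_val hB le_rfl le_rfl ok2 ok1 (by push_cast; ring)
    have hcard : (range (pairOf hn)).ncard = N ^ 4 := by
      rw [← image_univ, ncard_image_of_injective _ (pairOf_injective hn), ncard_univ,
        Nat.card_prod, Nat.card_prod, Nat.card_eq_fintype_card, Nat.card_eq_fintype_card,
        Fintype.card_fin, Fintype.card_fin]
      ring
    rw [← hcard]
    exact ncard_le_ncard hsub (toFinite _)

end Grid

end Pool.Agent.H39.Tangencies
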